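import Mathlib

/-!
Basic definitions for the antiferromagnetic Ising model on the triangular lattice:
spins as Booleans (`true` is spin `-1`), gluing a configuration on a finite set to a boundary
configuration, flips, triangle energies, and the pointwise triangle identities.
-/
open Real

namespace Pool.Agent.AFIsing

/-- spin value of a Boolean -/
def sp (b : Bool) : ℝ := if b then -1 else 1

@[simp] lemma sp_true : sp true = -1 := by simp [sp]
@[simp] lemma sp_false : sp false = 1 := by simp [sp]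

lemma sp_xor (a b : Bool) : sp (xor a b) = sp a * sp b := by
  cases a <;> cases b <;> simp [sp]

lemma sp_cases (a : Bool) : sp a = 1 ∨ sp a = -1 := by
  cases a <;> simp [sp]

lemma sp_sq (a : Bool) : sp a * sp a = 1 := by
  cases a <;> simp [sp]

lemma abs_sp (a : Bool) : |sp a| = 1 := by
  cases a <;> simp [sp]

lemma sp_not (a : Bool) : sp (!a) = - sp a := by
  cases a <;> simp [sp]

/-- energy of a triangle -/
def tri (a b c : ℝ) : ℝ := a * b + b * c + c * a

section config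

set_option linter.unusedSectionVars false

variable {V : Type*} [DecidableEq V]

/-- the configuration `τ` on `Λ`, completed by `ξ` outside -/
def glue (Λ : Finset V) (τ : Λ → Bool) (ξ : V → Bool) : V → Bool :=
  fun v => if h : v ∈ Λ then τ ⟨v, h⟩ else ξ v

/-- flipping the spins in `R` -/
def flip (R : V → Bool) (σ : V → Bool) : V → Bool := fun v => xor (R v) (σ v)

/-- sum over all configurations that agree with `ξ` off `Λ` -/
def Sm (Λ : Finset V) (ξ : V → Bool) (f : (V → Bool) → ℝ) : ℝ :=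
  ∑ τ : Λ → Bool, f (glue Λ τ ξ)

lemma glue_mem {Λ : Finset V} {τ : Λ → Bool} {ξ : V → Bool} {v : V} (h : v ∈ Λ) :
    glue Λ τ ξ v = τ ⟨v, h⟩ := by simp [glue, h]

lemma glue_not_mem {Λ : Finset V} {τ : Λ → Bool} {ξ : V → Bool} {v : V} (h : v ∉ Λ) :
    glue Λ τ ξ v = ξ v := by simp [glue, h]

lemma flip_flip (R σ : V → Bool) : flip R (flip R σ) = σ := by
  funext v; simp [flip]

lemma flip_glue (Λ : Finset V) (τ : Λ → Bool) (ξ R : V → Bool) :
    flip R (glue Λ τ ξ) = glue Λ (fun v => xor (R v) (τ v)) (flip R ξ) := by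
  funext v
  by_cases h : v ∈ Λ <;> simp [flip, glue, h]

/-- the flip as an equivalence of the configurations on `Λ` -/
def flipEquiv (Λ : Finset V) (R : V → Bool) : (Λ → Bool) ≃ (Λ → Bool) where
  toFun τ := fun v => xor (R v) (τ v)
  invFun τ := fun v => xor (R v) (τ v)
  left_inv τ := by funext v; simp
  right_inv τ := by funext v; simp

lemma Sm_flip (Λ : Finset V) (ξ R : V → Bool) (f : (V → Bool) → ℝ) :
    Sm Λ ξ (fun σ => f (flip R σ)) = Sm Λ (flip R ξ) f := by
  unfold Sm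
  rw [← (flipEquiv Λ R).sum_comp (fun τ => f (glue Λ τ (flip R ξ)))]
  apply Finset.sum_congr rfl
  intro τ _
  show f (flip R (glue Λ τ ξ)) = _
  rw [flip_glue]; rfl

lemma Sm_congr_bdry (Λ : Finset V) (ξ ξ' : V → Bool) (f : (V → Bool) → ℝ)
    (h : ∀ v ∉ Λ, ξ v = ξ' v) : Sm Λ ξ f = Sm Λ ξ' f := by
  unfold Sm
  apply Finset.sum_congr rfl
  intro τ _
  congr 1
  funext v
  by_cases hv : v ∈ Λ
  · simp [glue, hv]
  · simp [glue, hv, h v hv]

lemma Sm_congr (Λ : Finset V) (ξ : V → Bool) (f g : (V → Bool) → ℝ)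
    (h : ∀ σ, (∀ v ∉ Λ, σ v = ξ v) → f σ = g σ) : Sm Λ ξ f = Sm Λ ξ g := by
  unfold Sm
  apply Finset.sum_congr rfl
  intro τ _
  apply h
  intro v hv
  simp [glue, hv]

lemma Sm_add (Λ : Finset V) (ξ : V → Bool) (f g : (V → Bool) → ℝ) :
    Sm Λ ξ (fun σ => f σ + g σ) = Sm Λ ξ f + Sm Λ ξ g := by
  unfold Sm; exact Finset.sum_add_distrib

lemma Sm_sub (Λ : Finset V) (ξ : V → Bool) (f g : (V → Bool) → ℝ) :
    Sm Λ ξ (fun σ => f σ - g σ) = Sm Λ ξ f - Sm Λ ξ g := by
  unfold Sm; exact Finset.sum_sub_distrib ..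

lemma Sm_mul (Λ : Finset V) (ξ : V → Bool) (f : (V → Bool) → ℝ) (c : ℝ) :
    Sm Λ ξ (fun σ => c * f σ) = c * Sm Λ ξ f := by
  unfold Sm; rw [Finset.mul_sum]

lemma Sm_le (Λ : Finset V) (ξ : V → Bool) (f g : (V → Bool) → ℝ)
    (h : ∀ σ, (∀ v ∉ Λ, σ v = ξ v) → f σ ≤ g σ) : Sm Λ ξ f ≤ Sm Λ ξ g := by
  unfold Sm
  apply Finset.sum_le_sum
  intro τ _
  apply h
  intro v hv
  simp [glue, hv]

lemma Sm_pos (Λ : Finset V) (ξ : V → Bool) (f : (V → Bool) → ℝ) (h : ∀ σ, 0 < f σ) :
    0 < Sm Λ ξ f := by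
  unfold Sm
  apply Finset.sum_pos
  · intro τ _; exact h _
  · exact Finset.univ_nonempty

lemma abs_Sm_le (Λ : Finset V) (ξ : V → Bool) (f g : (V → Bool) → ℝ)
    (h : ∀ σ, (∀ v ∉ Λ, σ v = ξ v) → |f σ| ≤ g σ) : |Sm Λ ξ f| ≤ Sm Λ ξ g := by
  unfold Sm
  refine (Finset.abs_sum_le_sum_abs _ _).trans ?_
  apply Finset.sum_le_sum
  intro τ _
  apply h
  intro v hv
  simp [glue, hv]

end config

section triangle

/-- the constant `y` -/
noncomputable def yy (J : ℝ) : ℝ := (exp (-J) - exp (3 * J)) / (exp (3 * J) + 3 * exp (-J))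

lemma yy_pos {J : ℝ} (hJ : J < 0) : 0 < yy J := by
  unfold yy
  apply div_pos
  · have : exp (3 * J) < exp (-J) := exp_lt_exp.mpr (by linarith)
    linarith
  · positivity

lemma yy_lt (J : ℝ) : yy J < 1 / 3 := by
  unfold yy
  rw [div_lt_div_iff₀ (by positivity) (by norm_num)]
  have := exp_pos (3 * J)
  linarith

/-- weight of a triangle -/
noncomputable def wt (J a b c : ℝ) : ℝ := exp (J * tri a b c)

lemma tri_id1 (J : ℝ) {a b c : ℝ} (ha : a = 1 ∨ a = -1) (hb : b = 1 ∨ b = -1)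
    (hc : c = 1 ∨ c = -1) :
    a * (wt J a b c - wt J (-a) b c)
      = - yy J * (b * (wt J a b c + wt J a (-b) c) + c * (wt J a (-b) c + wt J (-a) b c)) := by
  have h0 : exp (3 * J) + 3 * exp (-J) ≠ 0 := by positivity
  unfold wt tri yy
  rcases ha with rfl | rfl <;> rcases hb with rfl | rfl <;> rcases hc with rfl | rfl <;>
    norm_num <;> field_simp <;> ring_nf <;> simp

lemma tri_id2 (J : ℝ) {a b c : ℝ} (ha : a = 1 ∨ a = -1) (hb : b = 1 ∨ b = -1)
    (hc : c = 1 ∨ c = -1) :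
    b * (wt J a b c - wt J a (-b) c)
      = - yy J * (a * (wt J a b c + wt J (-a) b c) + c * (wt J a (-b) c + wt J (-a) b c)) := by
  have h0 : exp (3 * J) + 3 * exp (-J) ≠ 0 := by positivity
  unfold wt tri yy
  rcases ha with rfl | rfl <;> rcases hb with rfl | rfl <;> rcases hc with rfl | rfl <;>
    norm_num <;> field_simp <;> ring_nf

lemma tri_id3 (J : ℝ) {a b c : ℝ} (ha : a = 1 ∨ a = -1) (hb : b = 1 ∨ b = -1)
    (hc : c = 1 ∨ c = -1) :
    c * (wt J a (-b) c - wt J (-a) b c)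
      = - yy J * (a * (wt J a b c + wt J (-a) b c) - b * (wt J a b c + wt J a (-b) c)) := by
  have h0 : exp (3 * J) + 3 * exp (-J) ≠ 0 := by positivity
  unfold wt tri yy
  rcases ha with rfl | rfl <;> rcases hb with rfl | rfl <;> rcases hc with rfl | rfl <;>
    norm_num <;> field_simp <;> ring_nf

end triangle

end Pool.Agent.AFIsing
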