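import Pool.Agent.AFIsing.Local

/-!
The three kinds of strips inside the box.
-/
open Real

namespace Pool.Agent.AFIsing

/-- exceptional triangles at the ends of a strip -/
noncomputable def Qs (p h : ℕ) : Finset Vtx :=
  ({-1, (p : ℤ)} : Finset ℤ) ×ˢ Finset.Ico (0 : ℤ) ((2 * h + 2 : ℕ) : ℤ)

lemma mem_Ls (p h : ℕ) (v : Vtx) :
    v ∈ Ls p h ↔ (0 ≤ v.1 ∧ v.1 ≤ p) ∧ (1 ≤ v.2 ∧ v.2 ≤ 2 * (h : ℤ) + 1) := by
  simp only [Ls, Finset.mem_product, Finset.mem_Ico, Finset.mem_Ioo]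
  push_cast
  omega

lemma mem_Ts (p h : ℕ) (v : Vtx) :
    v ∈ Ts p h ↔ (0 ≤ v.1 ∧ v.1 < p) ∧ (0 ≤ v.2 ∧ v.2 ≤ 2 * (h : ℤ) + 1) := by
  simp only [Ts, Finset.mem_product, Finset.mem_Ico]
  push_cast
  omega

lemma mem_Qs (p h : ℕ) (v : Vtx) :
    v ∈ Qs p h ↔ (v.1 = -1 ∨ v.1 = p) ∧ (0 ≤ v.2 ∧ v.2 ≤ 2 * (h : ℤ) + 1) := by
  simp only [Qs, Finset.mem_product, Finset.mem_Ico, Finset.mem_insert, Finset.mem_singleton]
  push_cast
  omega

lemma mem_imageV (F : Finset Vtx) (a b : ℤ) (v : Vtx) :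
    v ∈ F.image (eV a b) ↔ (v.2 - b, v.1 - a) ∈ F := by
  rw [Finset.mem_image]
  constructor
  · rintro ⟨⟨k, i⟩, hw, rfl⟩
    simpa [eV] using hw
  · intro hv
    refine ⟨_, hv, ?_⟩
    simp [eV]

lemma mem_imageH (F : Finset Vtx) (a b : ℤ) (v : Vtx) :
    v ∈ F.image (eH a b) ↔ (v.1 - a, v.2 - b) ∈ F := by
  rw [Finset.mem_image]
  constructor
  · rintro ⟨⟨k, i⟩, hw, rfl⟩
    simpa [eH] using hw
  · intro hv
    refine ⟨_, hv, ?_⟩
    simp [eH]

lemma card_Qs (p h : ℕ) (e : Vtx → Vtx) : (((Qs p h).image e).card : ℝ) ≤ 4 * ((h : ℝ) + 1) := by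
  have h1 : ((Qs p h).image e).card ≤ 2 * (2 * h + 2) := by
    refine Finset.card_image_le.trans ?_
    unfold Qs
    rw [Finset.card_product]
    apply Nat.mul_le_mul
    · exact Finset.card_le_two
    · simp
  have h2 : (((Qs p h).image e).card : ℝ) ≤ ((2 * (2 * h + 2) : ℕ) : ℝ) := by exact_mod_cast h1
  refine h2.trans ?_
  push_cast
  linarith

lemma Zd_split_box (J : ℝ) (T Λ D : Finset Vtx) (hD : D ⊆ Λ) (ξ φ : Vtx → Bool) :
    Zd J T Λ ξ φ = Sm (Λ \ D) ξ (fun σ => Zd J T D σ φ) := by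
  conv_lhs => rw [← Finset.sdiff_union_of_subset hD]
  exact Zd_split J T (Λ \ D) D Finset.sdiff_disjoint ξ φ

lemma exp_card_le (J : ℝ) (p h : ℕ) (e : Vtx → Vtx) :
    exp (|J| * (6 * ((Qs p h).image e).card)) ≤ exp (|J| * (24 * ((h : ℝ) + 1))) := by
  apply exp_le_exp.mpr
  have := card_Qs p h e
  have hJ := abs_nonneg J
  nlinarith

/-- a vertical cut, with the strip to its right -/
lemma vert_right (J : ℝ) (L p h : ℕ) (x m : ℤ) (hp : (p : ℤ) + 1 = m + L)
    (hx0 : -(L : ℤ) - 1 ≤ x) (hx : x + 2 * h + 1 ≤ L) (hm : m ≤ L + 1) (ξ ψ : Vtx → Bool)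
    (hψ : ∀ t ∈ TB L, x ≤ t.1 → t.1 ≤ x + 2 * h + 1 → ψ t = false) (κ : ℝ) (hκ0 : 0 ≤ κ)
    (hs : ∀ ω : Vtx → Bool, Zs J p h (flip row0 ω) ≤ κ * Zs J p h ω) :
    Zd J (TB L) (box L) ξ (flip (cut x m) ψ)
      ≤ κ * exp (|J| * (24 * ((h : ℝ) + 1))) * Zd J (TB L) (box L) ξ ψ := by
  have hD : (Ls p h).image (eV x (-(L : ℤ))) ⊆ box L := by
    intro v hv
    rw [mem_imageV, mem_Ls] at hv
    rw [mem_box]
    simp only at hv
    omega
  have hST : (Ts p h).image (eV x (-(L : ℤ))) ⊆ TB L := by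
    intro v hv
    rw [mem_imageV, mem_Ts] at hv
    rw [mem_TB]
    simp only at hv
    omega
  rw [Zd_split_box J (TB L) (box L) _ hD, Zd_split_box J (TB L) (box L) _ hD, ← Sm_mul]
  apply Sm_le
  intro σ _
  have e1 : Zd J ((Ts p h).image (eV x (-(L : ℤ)))) ((Ls p h).image (eV x (-(L : ℤ)))) σ ψ
      = Zs J p h (σ ∘ eV x (-(L : ℤ))) := by
    rw [Zd_embed J p h _ (eV_inj _ _) ψ σ nofZ]
    · congr 1; funext v; simp [flip, nofZ]
    · intro σ'
      rw [En_imageV]
      unfold En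
      apply Finset.sum_congr rfl
      intro t ht
      have hmem : eV x (-(L : ℤ)) t ∈ TB L := hST (Finset.mem_image_of_mem _ ht)
      rw [mem_Ts] at ht
      have h1 : ψ (eV x (-(L : ℤ)) t) = false :=
        hψ _ hmem (by simp only [eV]; omega) (by simp only [eV]; omega)
      rw [h1]
      simp only [nofZ, flip, Bool.false_xor, sp_false, one_mul, Function.comp]
      rw [tri_symm]
  have e2 : Zd J ((Ts p h).image (eV x (-(L : ℤ)))) ((Ls p h).image (eV x (-(L : ℤ)))) σ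
      (flip (cut x m) ψ) = Zs J p h (flip row0 (σ ∘ eV x (-(L : ℤ)))) := by
    rw [Zd_embed J p h _ (eV_inj _ _) (flip (cut x m) ψ) σ row0]
    intro σ'
    rw [En_imageV]
    unfold En
    apply Finset.sum_congr rfl
    intro t ht
    have hmem : eV x (-(L : ℤ)) t ∈ TB L := hST (Finset.mem_image_of_mem _ ht)
    rw [mem_Ts] at ht
    have h1 : ψ (eV x (-(L : ℤ)) t) = false :=
      hψ _ hmem (by simp only [eV]; omega) (by simp only [eV]; omega)
    have h2 : cut x m (eV x (-(L : ℤ)) t) = decide (t.2 = 0) := by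
      unfold cut
      rw [decide_eq_decide]
      simp only [eV]
      omega
    have h3 : row0 t = decide (t.2 = 0) := rfl
    have h4 : row0 (tb t) = decide (t.2 = 0) := rfl
    have h5 : row0 (tc t) = false := by
      unfold row0 tc
      rw [decide_eq_false_iff_not]
      simp only
      omega
    simp only [flip, h1, h2, h3, h4, h5, nofZ, Bool.xor_false, Bool.false_xor, sp_xor,
      sp_false, one_mul, Function.comp]
    unfold tri
    by_cases h0 : t.2 = 0
    · simp only [h0, decide_true, sp_true]; ring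
    · simp only [h0, decide_false, sp_false]; ring
  have key := Zd_compare J (TB L) _ ((Ls p h).image (eV x (-(L : ℤ))))
    ((Qs p h).image (eV x (-(L : ℤ)))) hST ψ (flip (cut x m) ψ) σ σ κ ?_ ?_ ?_ hκ0
  · refine key.trans ?_
    have := exp_card_le J p h (eV x (-(L : ℤ)))
    have hpos : 0 ≤ Zd J (TB L) ((Ls p h).image (eV x (-(L : ℤ)))) σ ψ := (Zd_pos _ _ _ _ _).le
    exact mul_le_mul_of_nonneg_right (mul_le_mul_of_nonneg_left this hκ0) hpos
  · intro t ht h1 h2
    rw [mem_TB] at ht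
    rw [mem_imageV, mem_Ts] at h1
    rw [mem_imageV, mem_Qs] at h2
    rw [mem_imageV, mem_imageV, mem_imageV, mem_Ls, mem_Ls, mem_Ls]
    simp only [tb, tc] at h1 h2 ⊢
    omega
  · intro t ht h1 h2
    rw [mem_TB] at ht
    rw [mem_imageV, mem_Ts] at h1
    rw [mem_imageV, mem_Qs] at h2
    refine ⟨rfl, ?_, rfl⟩
    have : cut x m t = false := by
      unfold cut
      rw [decide_eq_false_iff_not]
      simp only at h1 h2
      omega
    simp [flip, this]
  · rw [e1, e2]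
    exact hs _

/-- a vertical cut, with the strip to its left -/
lemma vert_left (J : ℝ) (L p h : ℕ) (x m : ℤ) (hp : (p : ℤ) + 1 = m + L)
    (hx0 : -(L : ℤ) ≤ x - 2 * h) (hx : x ≤ L) (hm : m ≤ L + 1) (ξ ψ : Vtx → Bool)
    (hψ : ∀ t ∈ TB L, x - 2 * h - 1 ≤ t.1 → t.1 < x → ψ t = false) (κ : ℝ) (hκ0 : 0 ≤ κ)
    (hs : ∀ ω : Vtx → Bool, Zs J p h (flip row0 ω) ≤ κ * Zs J p h ω) :
    Zd J (TB L) (box L) ξ (flip (cut x m) ψ)
      ≤ κ * exp (|J| * (24 * ((h : ℝ) + 1))) * Zd J (TB L) (box L) ξ ψ := by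
  set e : Vtx → Vtx := eV (x - 2 * h - 1) (-(L : ℤ)) with he
  have hD : (Ls p h).image e ⊆ box L := by
    intro v hv
    rw [mem_imageV, mem_Ls] at hv
    rw [mem_box]
    simp only at hv
    omega
  have hST : (Ts p h).image e ⊆ TB L := by
    intro v hv
    rw [mem_imageV, mem_Ts] at hv
    rw [mem_TB]
    simp only at hv
    omega
  set g : Vtx → Bool := fun v => decide (v.2 = 2 * (h : ℤ) + 2) && ψ (e (v.1, 2 * (h : ℤ) + 1))
    with hg
  rw [Zd_split_box J (TB L) (box L) _ hD, Zd_split_box J (TB L) (box L) _ hD, ← Sm_mul]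
  apply Sm_le
  intro σ _
  -- facts about a triangle of the strip
  have hfact : ∀ t ∈ Ts p h, g t = false ∧ g (tb t) = false ∧ g (tc t) = ψ (e t) ∧
      rowT h t = false ∧ rowT h (tb t) = false ∧ rowT h (tc t) = cut x m (e t) := by
    intro t ht
    have hmem : e t ∈ TB L := hST (Finset.mem_image_of_mem _ ht)
    rw [mem_Ts] at ht
    have n1 : ¬ t.2 = 2 * (h : ℤ) + 2 := by omega
    refine ⟨?_, ?_, ?_, ?_, ?_, ?_⟩
    · simp only [hg, n1, decide_false, Bool.false_and]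
    · simp only [hg, tb, n1, decide_false, Bool.false_and]
    · by_cases h0 : t.2 = 2 * (h : ℤ) + 1
      · have n2 : t.2 + 1 = 2 * (h : ℤ) + 2 := by omega
        simp only [hg, tc, n2, decide_true, Bool.true_and]
        congr 2
        ext <;> simp [h0]
      · have n2 : ¬ t.2 + 1 = 2 * (h : ℤ) + 2 := by omega
        simp only [hg, tc, n2, decide_false, Bool.false_and]
        symm
        apply hψ _ hmem
        · simp only [he, eV]; omega
        · simp only [he, eV]; omega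
    · simp only [rowT, n1, decide_false]
    · simp only [rowT, tb, n1, decide_false]
    · unfold rowT cut
      rw [decide_eq_decide]
      simp only [he, eV, tc]
      omega
  have e1 : Zd J ((Ts p h).image e) ((Ls p h).image e) σ ψ = Zs J p h (flip g (σ ∘ e)) := by
    rw [Zd_embed J p h _ (eV_inj _ _) ψ σ g]
    intro σ'
    rw [En_imageV]
    unfold En
    apply Finset.sum_congr rfl
    intro t ht
    obtain ⟨f1, f2, f3, _, _, _⟩ := hfact t ht
    simp only [flip, f1, f2, f3, nofZ, Bool.false_xor, sp_xor, sp_false, one_mul, Function.comp]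
    rw [← he, tri_symm]
  have e2 : Zd J ((Ts p h).image e) ((Ls p h).image e) σ (flip (cut x m) ψ)
      = Zs J p h (flip (rowT h) (flip g (σ ∘ e))) := by
    have hgg : flip (rowT h) (flip g (σ ∘ e)) = flip (flip (rowT h) g) (σ ∘ e) := by
      funext v; simp [flip]
    rw [hgg, Zd_embed J p h _ (eV_inj _ _) (flip (cut x m) ψ) σ (flip (rowT h) g)]
    intro σ'
    rw [En_imageV]
    unfold En
    apply Finset.sum_congr rfl
    intro t ht
    obtain ⟨f1, f2, f3, f4, f5, f6⟩ := hfact t ht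
    simp only [flip, f1, f2, f3, f4, f5, f6, nofZ, Bool.false_xor, sp_xor, sp_false, one_mul,
      Function.comp]
    rw [← he, tri_symm]
  have key := Zd_compare J (TB L) _ ((Ls p h).image e)
    ((Qs p h).image e) hST ψ (flip (cut x m) ψ) σ σ κ ?_ ?_ ?_ hκ0
  · refine key.trans ?_
    have := exp_card_le J p h e
    have hpos : 0 ≤ Zd J (TB L) ((Ls p h).image e) σ ψ := (Zd_pos _ _ _ _ _).le
    exact mul_le_mul_of_nonneg_right (mul_le_mul_of_nonneg_left this hκ0) hpos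
  · intro t ht h1 h2
    rw [mem_TB] at ht
    rw [mem_imageV, mem_Ts] at h1
    rw [mem_imageV, mem_Qs] at h2
    rw [mem_imageV, mem_imageV, mem_imageV, mem_Ls, mem_Ls, mem_Ls]
    simp only [tb, tc] at h1 h2 ⊢
    omega
  · intro t ht h1 h2
    rw [mem_TB] at ht
    rw [mem_imageV, mem_Ts] at h1
    rw [mem_imageV, mem_Qs] at h2
    refine ⟨rfl, ?_, rfl⟩
    have : cut x m t = false := by
      unfold cut
      rw [decide_eq_false_iff_not]
      simp only at h1 h2
      omega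
    simp [flip, this]
  · rw [e1, e2, Zs_top]
    exact hs _

/-- the flip of an arc of the bottom boundary -/
def bR (L : ℕ) (x₁ x₂ : ℤ) : Vtx → Bool :=
  fun v => decide (v.2 < -(L : ℤ) ∧ x₁ < v.1 ∧ v.1 ≤ x₂)

/-- a horizontal cut at the bottom of the box -/
lemma horiz (J : ℝ) (L p h : ℕ) (x₁ x₂ : ℤ) (hp : (p : ℤ) + 1 = x₂ - x₁)
    (hx1 : -(L : ℤ) - 1 ≤ x₁) (hx2 : x₂ ≤ L) (hh : 2 * (h : ℤ) ≤ 2 * L) (ξ : Vtx → Bool)
    (κ : ℝ) (hκ0 : 0 ≤ κ)
    (hs : ∀ ω : Vtx → Bool, Zs J p h (flip row0 ω) ≤ κ * Zs J p h ω) :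
    Zd J (TB L) (box L) (flip (bR L x₁ x₂) ξ) nofZ
      ≤ κ * exp (|J| * (24 * ((h : ℝ) + 1))) * Zd J (TB L) (box L) ξ nofZ := by
  set e : Vtx → Vtx := eH (x₁ + 1) (-(L : ℤ) - 1) with he
  have hD : (Ls p h).image e ⊆ box L := by
    intro v hv
    rw [mem_imageH, mem_Ls] at hv
    rw [mem_box]
    simp only at hv
    omega
  have hST : (Ts p h).image e ⊆ TB L := by
    intro v hv
    rw [mem_imageH, mem_Ts] at hv
    rw [mem_TB]
    simp only at hv
    omega
  rw [Zd_split_box J (TB L) (box L) _ hD, Zd_split_box J (TB L) (box L) _ hD, ← Sm_flip,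
    ← Sm_mul]
  apply Sm_le
  intro σ _
  have e1 : ∀ σ : Vtx → Bool, Zd J ((Ts p h).image e) ((Ls p h).image e) σ nofZ
      = Zs J p h (σ ∘ e) := by
    intro σ
    rw [Zd_embed J p h _ (eH_inj _ _) nofZ σ nofZ]
    · congr 1; funext v; simp [flip, nofZ, he]
    · intro σ'
      rw [En_imageH]
      congr 1
      funext v; simp [flip, nofZ]
  have e2 : Zs J p h (flip (bR L x₁ x₂) σ ∘ e) = Zs J p h (flip row0 (σ ∘ e)) := by
    unfold Zs
    have hk : ∀ v : Vtx, 0 ≤ v.1 → v.1 ≤ p → 0 ≤ v.2 →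
        (flip (bR L x₁ x₂) σ ∘ e) v = flip row0 (σ ∘ e) v := by
      intro v a1 a2 a3
      have : bR L x₁ x₂ (e v) = row0 v := by
        unfold bR row0
        rw [decide_eq_decide]
        simp only [he, eH]
        omega
      simp only [flip, Function.comp, this]
    apply Zd_congr
    intro t ht
    rw [mem_Ts] at ht
    refine ⟨fun _ => hk t (by omega) (by omega) (by omega),
      fun _ => hk (tb t) ?_ ?_ ?_, fun _ => hk (tc t) ?_ ?_ ?_⟩ <;> simp only [tb, tc] <;> omega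
  have key := Zd_compare J (TB L) _ ((Ls p h).image e)
    ((Qs p h).image e) hST nofZ nofZ σ (flip (bR L x₁ x₂) σ) κ ?_ ?_ ?_ hκ0
  · refine key.trans ?_
    have := exp_card_le J p h e
    have hpos : 0 ≤ Zd J (TB L) ((Ls p h).image e) σ nofZ := (Zd_pos _ _ _ _ _).le
    exact mul_le_mul_of_nonneg_right (mul_le_mul_of_nonneg_left this hκ0) hpos
  · intro t ht h1 h2
    rw [mem_TB] at ht
    rw [mem_imageH, mem_Ts] at h1
    rw [mem_imageH, mem_Qs] at h2
    rw [mem_imageH, mem_imageH, mem_imageH, mem_Ls, mem_Ls, mem_Ls]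
    simp only [tb, tc] at h1 h2 ⊢
    omega
  · intro t ht h1 h2
    rw [mem_TB] at ht
    rw [mem_imageH, mem_Ts] at h1
    rw [mem_imageH, mem_Qs] at h2
    have n1 : bR L x₁ x₂ t = false := by
      unfold bR
      rw [decide_eq_false_iff_not]
      simp only at h1 h2
      omega
    have n2 : bR L x₁ x₂ (tb t) = false := by
      unfold bR tb
      rw [decide_eq_false_iff_not]
      simp only at h1 h2 ⊢
      omega
    have n3 : bR L x₁ x₂ (tc t) = false := by
      unfold bR tc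
      rw [decide_eq_false_iff_not]
      simp only at h1 h2 ⊢
      omega
    simp [flip, n1, n2, n3]
  · rw [e1, e1, e2]
    exact hs _

end Pool.Agent.AFIsing
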