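import Pool.Agent.AFIsing.Planar

/-!
Module F of MP_a5ec60_pr: energy contraction in the box.
-/
open Real

namespace Pool.Agent.AFIsing

section contract

variable (J : ℝ) (L : ℕ) (ξ : Vtx → Bool)

/-- the array `γ` -/
noncomputable def arrG (v : Vtx) : ℝ :=
  Fd J (TB L) (box L) (pbd L v.1 ξ) (pfl v.1 v.2) v

/-- the array `β` -/
noncomputable def arrB (v : Vtx) : ℝ :=
  Fd J (TB L) (box L) (pbd L (v.1 - 1) ξ) (pfl (v.1 - 1) v.2) v

/-- the array `α` -/
noncomputable def arrA (v : Vtx) : ℝ :=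
  Fd J (TB L) (box L) (pbd L (v.1 - 1) ξ) (pfl (v.1 - 1) (v.2 + 1)) v

/-- differences at the vertex `v` -/
noncomputable def dA (v : Vtx) : ℝ := arrG J L ξ v + arrA J L ξ v
noncomputable def dB (v : Vtx) : ℝ := arrB J L ξ v - arrA J L ξ v
noncomputable def dC (v : Vtx) : ℝ := arrG J L ξ v - arrB J L ξ v
/-- sums at the vertex `v` -/
noncomputable def sA (v : Vtx) : ℝ := arrG J L ξ v - arrA J L ξ v
noncomputable def sB (v : Vtx) : ℝ := arrB J L ξ v + arrA J L ξ v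
noncomputable def sC (v : Vtx) : ℝ := arrG J L ξ v + arrB J L ξ v

/-- shifts -/
def shx (v : Vtx) : Vtx := (v.1 + 1, v.2)
def shy (v : Vtx) : Vtx := (v.1, v.2 + 1)

/-- the energy of the box of radius `k` -/
noncomputable def EE (k : ℕ) : ℝ :=
  ∑ t ∈ box k, (dA J L ξ t ^ 2 + dB J L ξ (shx t) ^ 2 + dC J L ξ (shy t) ^ 2)

lemma pbd_flip (x j : ℤ) (hx : |x| ≤ L) (hj : |j| ≤ L) :
    ∀ v ∉ box L, pbd L x ξ v = flip (col x j) (pbd L (x - 1) ξ) v := by
  intro v hv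
  rw [mem_box] at hv
  rw [abs_le] at hx hj
  unfold pbd flip col
  by_cases h1 : v.1 = x
  · have h2 : v.2 < -(L : ℤ) ∨ (L : ℤ) < v.2 := by
      by_contra hcon
      push Not at hcon
      exact hv ⟨⟨by omega, by omega⟩, hcon.1, hcon.2⟩
    rcases h2 with h2 | h2
    · have e1 : v.2 ≤ j := by omega
      simp only [h2, e1, h1, decide_true, true_and, Bool.true_and]
      cases decide (x ≤ 0) <;> cases ξ v <;> simp
    · have e1 : ¬ v.2 ≤ j := by omega
      have e2 : ¬ v.2 < -(L : ℤ) := by omega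
      simp only [e1, e2, and_false, decide_false, Bool.false_and]
      simp
  · have e1 : (v.1 ≤ x) ↔ (v.1 ≤ x - 1) := by omega
    simp only [h1, e1, false_and, decide_false]
    simp

lemma tri_rel (x j : ℤ) (hx : |x| ≤ L) (hj : |j| ≤ L) :
    dA J L ξ (x, j) ^ 2 + dB J L ξ (shx (x, j)) ^ 2 + dC J L ξ (shy (x, j)) ^ 2 ≤
      3 * yy J ^ 2 * (sA J L ξ (x, j) ^ 2 + sB J L ξ (shx (x, j)) ^ 2 +
        sC J L ξ (shy (x, j)) ^ 2) := by
  have hmem : ((x, j) : Vtx) ∈ TB L := by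
    rw [mem_TB]
    rw [abs_le] at hx hj
    refine ⟨⟨?_, ?_⟩, ?_, ?_⟩ <;> simp only <;> omega
  have hrel := relations J (TB L) (box L) x j hmem (pbd L x ξ) (pbd L (x - 1) ξ) (cut 0 0)
    one_ne_zero (pbd_flip L ξ x j hx hj) _ _ _ _ _ _ _ rfl rfl rfl rfl rfl rfl rfl
  have hx1 : x + 1 - 1 = x := by ring
  have e1 : Fd J (TB L) (box L) (pbd L x ξ) (flip (cut x j) (cut 0 0)) (x, j) =
      arrG J L ξ (x, j) := rfl
  have e2 : Fd J (TB L) (box L) (pbd L x ξ) (flip (cut x j) (cut 0 0)) (x + 1, j) =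
      arrB J L ξ (x + 1, j) := by simp only [arrB, hx1]; rfl
  have e3 : Fd J (TB L) (box L) (pbd L x ξ) (flip (cut x (j + 1)) (cut 0 0)) (x + 1, j) =
      arrA J L ξ (x + 1, j) := by simp only [arrA, hx1]; rfl
  have e4 : Fd J (TB L) (box L) (pbd L x ξ) (flip (cut x (j + 1)) (cut 0 0)) (x, j + 1) =
      arrG J L ξ (x, j + 1) := rfl
  have e5 : Fd J (TB L) (box L) (pbd L (x - 1) ξ) (flip (cut (x - 1) (j + 1)) (cut 0 0)) (x, j) =
      arrA J L ξ (x, j) := rfl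
  have e6 : Fd J (TB L) (box L) (pbd L (x - 1) ξ) (flip (cut (x - 1) (j + 1)) (cut 0 0)) (x, j + 1) =
      arrB J L ξ (x, j + 1) := rfl
  rw [e1, e2, e3, e4, e5, e6] at hrel
  obtain ⟨r1, r2, r3⟩ := hrel
  set b := sp (cut (0 : ℤ) 0 (x, j)) with hb
  have hbb : b * b = 1 := sp_sq _
  have hbb2 : b ^ 2 = 1 := by rw [sq]; exact hbb
  simp only [dA, dB, dC, sA, sB, sC, shx, shy]
  set y := yy J
  set g0 := arrG J L ξ (x, j)
  set a0 := arrA J L ξ (x, j)
  set b1 := arrB J L ξ (x + 1, j)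
  set a1 := arrA J L ξ (x + 1, j)
  set g2 := arrG J L ξ (x, j + 1)
  set b2 := arrB J L ξ (x, j + 1)
  have h2 : (b1 - a1) ^ 2 = (y * ((g0 - a0) + (g2 + b2))) ^ 2 := by
    have : (b1 - a1) ^ 2 = (b * (b1 - a1)) ^ 2 := by rw [mul_pow, hbb2, one_mul]
    rw [this, r2]; ring
  rw [r1, h2, r3]
  have key : 3 * y ^ 2 * ((g0 - a0) ^ 2 + (b1 + a1) ^ 2 + (g2 + b2) ^ 2) -
      ((-y * (b * (b1 + a1) + (g2 + b2))) ^ 2 + (y * ((g0 - a0) + (g2 + b2))) ^ 2 +
        (-y * ((g0 - a0) - b * (b1 + a1))) ^ 2) =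
      y ^ 2 * ((g0 - a0) + b * (b1 + a1) - (g2 + b2)) ^ 2 := by
    linear_combination (-3 * y ^ 2 * (b1 + a1) ^ 2) * hbb2
  have : 0 ≤ y ^ 2 * ((g0 - a0) + b * (b1 + a1) - (g2 + b2)) ^ 2 :=
    mul_nonneg (sq_nonneg _) (sq_nonneg _)
  linarith

lemma sum_shift_le (A B : Finset Vtx) (f : Vtx → ℝ) (hf : ∀ v, 0 ≤ f v) (s : Vtx → Vtx)
    (hs : Function.Injective s) (h : ∀ a ∈ A, s a ∈ B) : ∑ a ∈ A, f (s a) ≤ ∑ b ∈ B, f b := by
  rw [← Finset.sum_image (f := f) (fun a _ b _ h => hs h)]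
  refine Finset.sum_le_sum_of_subset_of_nonneg ?_ (fun v _ _ => hf v)
  intro v hv
  obtain ⟨a, ha, rfl⟩ := Finset.mem_image.mp hv
  exact h a ha

lemma shx_inj : Function.Injective shx := by
  intro a b h
  simp only [shx, Prod.mk.injEq, add_left_inj] at h
  exact Prod.ext h.1 h.2

lemma shy_inj : Function.Injective shy := by
  intro a b h
  simp only [shy, Prod.mk.injEq, add_left_inj] at h
  exact Prod.ext h.1 h.2

lemma EE_step (k : ℕ) (hk : k ≤ L) : EE J L ξ k ≤ 9 * yy J ^ 2 * EE J L ξ (k + 1) := by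
  let Vs : Finset Vtx := Finset.Icc (-(k : ℤ)) (k + 1) ×ˢ Finset.Icc (-(k : ℤ)) (k + 1)
  have hVs : ∀ v : Vtx, v ∈ Vs ↔ (-(k : ℤ) ≤ v.1 ∧ v.1 ≤ k + 1) ∧ (-(k : ℤ) ≤ v.2 ∧ v.2 ≤ k + 1) := by
    intro v
    simp [Vs]
  have h1 : EE J L ξ k ≤ 3 * yy J ^ 2 * ∑ t ∈ box k, (sA J L ξ t ^ 2 + sB J L ξ (shx t) ^ 2 +
      sC J L ξ (shy t) ^ 2) := by
    rw [EE, Finset.mul_sum]
    refine Finset.sum_le_sum fun t ht => ?_
    rw [mem_box] at ht
    exact tri_rel J L ξ t.1 t.2 (abs_le.mpr (by omega)) (abs_le.mpr (by omega))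
  have h2 : ∑ t ∈ box k, (sA J L ξ t ^ 2 + sB J L ξ (shx t) ^ 2 + sC J L ξ (shy t) ^ 2) ≤
      ∑ v ∈ Vs, (sA J L ξ v ^ 2 + sB J L ξ v ^ 2 + sC J L ξ v ^ 2) := by
    rw [Finset.sum_add_distrib, Finset.sum_add_distrib, Finset.sum_add_distrib,
      Finset.sum_add_distrib]
    refine add_le_add (add_le_add ?_ ?_) ?_
    · refine sum_shift_le (box k) Vs (fun v => sA J L ξ v ^ 2) (fun v => sq_nonneg _) id
        Function.injective_id fun a ha => ?_
      rw [mem_box] at ha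
      rw [hVs]
      simp only [id]
      omega
    · refine sum_shift_le (box k) Vs (fun v => sB J L ξ v ^ 2) (fun v => sq_nonneg _) shx
        shx_inj fun a ha => ?_
      rw [mem_box] at ha
      rw [hVs]
      simp only [shx]
      omega
    · refine sum_shift_le (box k) Vs (fun v => sC J L ξ v ^ 2) (fun v => sq_nonneg _) shy
        shy_inj fun a ha => ?_
      rw [mem_box] at ha
      rw [hVs]
      simp only [shy]
      omega
  have h3 : ∑ v ∈ Vs, (sA J L ξ v ^ 2 + sB J L ξ v ^ 2 + sC J L ξ v ^ 2) ≤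
      3 * ∑ v ∈ Vs, (dA J L ξ v ^ 2 + dB J L ξ v ^ 2 + dC J L ξ v ^ 2) := by
    rw [Finset.mul_sum]
    refine Finset.sum_le_sum fun v _ => ?_
    simp only [dA, dB, dC, sA, sB, sC]
    nlinarith [sq_nonneg (arrG J L ξ v + arrA J L ξ v - arrB J L ξ v)]
  have h4 : ∑ v ∈ Vs, (dA J L ξ v ^ 2 + dB J L ξ v ^ 2 + dC J L ξ v ^ 2) ≤ EE J L ξ (k + 1) := by
    rw [EE, Finset.sum_add_distrib, Finset.sum_add_distrib, Finset.sum_add_distrib,
      Finset.sum_add_distrib]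
    refine add_le_add (add_le_add ?_ ?_) ?_
    · refine sum_shift_le Vs (box (k + 1)) (fun v => dA J L ξ v ^ 2) (fun v => sq_nonneg _) id
        Function.injective_id fun a ha => ?_
      rw [hVs] at ha
      rw [mem_box]
      simp only [id]
      push_cast
      omega
    · have := sum_shift_le Vs (box (k + 1)) (fun v => dB J L ξ (shx v) ^ 2)
        (fun v => sq_nonneg _) (fun v => (v.1 - 1, v.2)) (fun a b h => by
          simp only [Prod.mk.injEq, sub_left_inj] at h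
          exact Prod.ext h.1 h.2) (fun a ha => by
          rw [hVs] at ha
          rw [mem_box]
          push_cast
          omega)
      simpa [shx] using this
    · have := sum_shift_le Vs (box (k + 1)) (fun v => dC J L ξ (shy v) ^ 2)
        (fun v => sq_nonneg _) (fun v => (v.1, v.2 - 1)) (fun a b h => by
          simp only [Prod.mk.injEq, sub_left_inj] at h
          exact Prod.ext h.1 h.2) (fun a ha => by
          rw [hVs] at ha
          rw [mem_box]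
          push_cast
          omega)
      simpa [shy] using this
  have hy : 0 ≤ yy J ^ 2 := sq_nonneg _
  calc EE J L ξ k ≤ 3 * yy J ^ 2 * ∑ t ∈ box k, (sA J L ξ t ^ 2 + sB J L ξ (shx t) ^ 2 +
        sC J L ξ (shy t) ^ 2) := h1
    _ ≤ 3 * yy J ^ 2 * (3 * EE J L ξ (k + 1)) := by
        refine mul_le_mul_of_nonneg_left ?_ (mul_nonneg (by norm_num) hy)
        linarith
    _ = 9 * yy J ^ 2 * EE J L ξ (k + 1) := by ring

lemma EE_iter (k : ℕ) (hk : k ≤ L) : EE J L ξ 1 ≤ (9 * yy J ^ 2) ^ k * EE J L ξ (k + 1) := by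
  induction k with
  | zero => simp
  | succ k ih =>
    calc EE J L ξ 1 ≤ (9 * yy J ^ 2) ^ k * EE J L ξ (k + 1) := ih (by omega)
      _ ≤ (9 * yy J ^ 2) ^ k * (9 * yy J ^ 2 * EE J L ξ (k + 1 + 1)) :=
          mul_le_mul_of_nonneg_left (EE_step J L ξ (k + 1) hk)
            (pow_nonneg (mul_nonneg (by norm_num) (sq_nonneg _)) _)
      _ = _ := by ring

lemma EE_center : arrG J L ξ (0, 0) ^ 2 ≤ 3 / 4 * EE J L ξ 1 := by
  have h1 : dA J L ξ (0, 0) ^ 2 + dB J L ξ (0, 0) ^ 2 + dC J L ξ (0, 0) ^ 2 ≤ EE J L ξ 1 := by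
    rw [EE, Finset.sum_add_distrib, Finset.sum_add_distrib]
    refine add_le_add (add_le_add ?_ ?_) ?_
    · exact Finset.single_le_sum (f := fun t => dA J L ξ t ^ 2) (fun t _ => sq_nonneg _)
        (a := ((0, 0) : Vtx)) (by rw [mem_box]; norm_num)
    · have := Finset.single_le_sum (f := fun t => dB J L ξ (shx t) ^ 2) (s := box 1)
        (fun t _ => sq_nonneg _) (a := ((-1, 0) : Vtx)) (by rw [mem_box]; norm_num)
      simpa [shx] using this
    · have := Finset.single_le_sum (f := fun t => dC J L ξ (shy t) ^ 2) (s := box 1)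
        (fun t _ => sq_nonneg _) (a := ((0, -1) : Vtx)) (by rw [mem_box]; norm_num)
      simpa [shy] using this
  have h2 : arrG J L ξ (0, 0) ^ 2 ≤
      3 / 4 * (dA J L ξ (0, 0) ^ 2 + dB J L ξ (0, 0) ^ 2 + dC J L ξ (0, 0) ^ 2) := by
    simp only [dA, dB, dC]
    set g := arrG J L ξ (0, 0)
    set a := arrA J L ξ (0, 0)
    set b := arrB J L ξ (0, 0)
    nlinarith [sq_nonneg ((g + a) - (b - a)), sq_nonneg ((b - a) - (g - b)),
      sq_nonneg ((g + a) - (g - b))]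
  linarith

end contract

theorem contraction (J : ℝ) (L k : ℕ) (hk : k + 1 ≤ L) (ξ : Vtx → Bool) (B : ℝ)
    (hB : ∀ x m : ℤ, |x| ≤ k + 2 → |m| ≤ k + 2 →
      Zd J (TB L) (box L) (pbd L x ξ) (pfl x m) ≤ B) :
    (Fd J (TB L) (box L) ξ nofZ (0, 0)) ^ 2
      ≤ 9 * (2 * k + 3) ^ 2 * (9 * yy J ^ 2) ^ k * B ^ 2 := by
  have h0 : Fd J (TB L) (box L) ξ nofZ (0, 0) = arrG J L ξ (0, 0) := by
    unfold arrG
    congr 1
    · funext v
      simp [pbd]
    · funext v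
      simp [nofZ, pfl, flip]
  have hsq : ∀ u w : ℝ, |u| ≤ B → |w| ≤ B → (u + w) ^ 2 ≤ 4 * B ^ 2 ∧ (u - w) ^ 2 ≤ 4 * B ^ 2 := by
    intro u w hu hw
    rw [abs_le] at hu hw
    constructor <;> nlinarith
  have hE : EE J L ξ (k + 1) ≤ 12 * (2 * k + 3) ^ 2 * B ^ 2 := by
    have hcard : ((box (k + 1)).card : ℝ) = (2 * k + 3) ^ 2 := by
      simp only [box, Finset.card_product, Int.card_Icc]
      push_cast
      have : (((k : ℤ) + 1 + 1 - (-((k : ℤ) + 1))).toNat : ℝ) = 2 * k + 3 := by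
        have h1 : ((k : ℤ) + 1 + 1 - (-((k : ℤ) + 1))).toNat = 2 * k + 3 := by omega
        rw [h1]; push_cast; ring
      rw [this]; ring
    have hG : ∀ v : Vtx, |v.1| ≤ k + 2 → |v.2| ≤ k + 2 → |arrG J L ξ v| ≤ B := by
      intro v h1 h2
      exact (abs_Fd_le _ _ _ _ _ _).trans (hB v.1 v.2 h1 h2)
    have hBB : ∀ v : Vtx, |v.1 - 1| ≤ k + 2 → |v.2| ≤ k + 2 → |arrB J L ξ v| ≤ B := by
      intro v h1 h2
      exact (abs_Fd_le _ _ _ _ _ _).trans (hB (v.1 - 1) v.2 h1 h2)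
    have hA : ∀ v : Vtx, |v.1 - 1| ≤ k + 2 → |v.2 + 1| ≤ k + 2 → |arrA J L ξ v| ≤ B := by
      intro v h1 h2
      exact (abs_Fd_le _ _ _ _ _ _).trans (hB (v.1 - 1) (v.2 + 1) h1 h2)
    calc EE J L ξ (k + 1) ≤ ∑ t ∈ box (k + 1), 12 * B ^ 2 := by
          refine Finset.sum_le_sum fun t ht => ?_
          rw [mem_box] at ht
          push_cast at ht
          have t1 := (hsq _ _ (hG t (abs_le.mpr (by omega)) (abs_le.mpr (by omega)))
            (hA t (abs_le.mpr (by omega)) (abs_le.mpr (by omega)))).1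
          have t2 := (hsq _ _ (hBB (shx t) (abs_le.mpr (by simp only [shx]; omega))
            (abs_le.mpr (by simp only [shx]; omega)))
            (hA (shx t) (abs_le.mpr (by simp only [shx]; omega))
              (abs_le.mpr (by simp only [shx]; omega)))).2
          have t3 := (hsq _ _ (hG (shy t) (abs_le.mpr (by simp only [shy]; omega))
            (abs_le.mpr (by simp only [shy]; omega)))
            (hBB (shy t) (abs_le.mpr (by simp only [shy]; omega))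
              (abs_le.mpr (by simp only [shy]; omega)))).2
          unfold dA dB dC
          linarith
      _ = 12 * (2 * k + 3) ^ 2 * B ^ 2 := by
          rw [Finset.sum_const, nsmul_eq_mul, hcard]; ring
  have h1 := EE_center J L ξ
  have h2 := EE_iter J L ξ k (by omega)
  have hy : 0 ≤ (9 * yy J ^ 2) ^ k := pow_nonneg (mul_nonneg (by norm_num) (sq_nonneg _)) _
  rw [h0]
  calc arrG J L ξ (0, 0) ^ 2 ≤ 3 / 4 * EE J L ξ 1 := h1
    _ ≤ 3 / 4 * ((9 * yy J ^ 2) ^ k * (12 * (2 * k + 3) ^ 2 * B ^ 2)) := by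
        have := mul_le_mul_of_nonneg_left hE hy
        linarith
    _ = 9 * (2 * k + 3) ^ 2 * (9 * yy J ^ 2) ^ k * B ^ 2 := by ring

end Pool.Agent.AFIsing
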