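import Mathlib

/-!
Module C1 (the symbol `K`) of MP_a5ec60_pr.

With `t = cot (θ / 2)` the symbol is an odd function `kf` of `t`, the solution of
`a k ^ 2 t - (A t ^ 2 - B) k - b t = 0` with `t * k > 0`, where `a = 1 - 3 y`, `b = 1 + y`,
`A = (1 - y) (1 + 3 y) / (1 + y)`, `B = (1 - y) ^ 2 / (1 + y)`.
-/
open Real

namespace Pool.Agent.AFIsing

/-- `t` times the symbol, as a function of `t = cot (θ / 2)` -/
noncomputable def pf (a b A B t : ℝ) : ℝ :=
  (A * t ^ 2 - B + sqrt ((A * t ^ 2 - B) ^ 2 + 4 * a * b * t ^ 2)) / (2 * a)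

/-- the symbol as a function of `t = cot (θ / 2)` -/
noncomputable def kf (a b A B t : ℝ) : ℝ := pf a b A B t / t

lemma pf_pos {a b A B t : ℝ} (ha : 0 < a) (hb : 0 < b) (ht : t ≠ 0) : 0 < pf a b A B t := by
  unfold pf
  have h1 : 0 < 4 * a * b * t ^ 2 := by positivity
  have h2 : |A * t ^ 2 - B| < sqrt ((A * t ^ 2 - B) ^ 2 + 4 * a * b * t ^ 2) := by
    rw [← sqrt_sq_eq_abs]
    exact sqrt_lt_sqrt (sq_nonneg _) (by linarith)
  have h3 := neg_abs_le (A * t ^ 2 - B)
  apply div_pos _ (by linarith)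
  linarith

lemma pf_eq {a b A B t : ℝ} (ha : 0 < a) (hb : 0 < b) :
    a * pf a b A B t ^ 2 - (A * t ^ 2 - B) * pf a b A B t - b * t ^ 2 = 0 := by
  have h1 : 0 ≤ (A * t ^ 2 - B) ^ 2 + 4 * a * b * t ^ 2 := by positivity
  have h2 := sq_sqrt h1
  unfold pf
  set S := sqrt ((A * t ^ 2 - B) ^ 2 + 4 * a * b * t ^ 2) with hS
  field_simp
  nlinarith [h2]

lemma pf_le {a b A B t : ℝ} (ha : 0 < a) (hb : 0 < b) (hA : 0 < A) (hB : 0 < B)
    (hAB : a * b ≤ A * B) (ht : t ≠ 0) : pf a b A B t ≤ A / a * t ^ 2 := by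
  have hp := pf_pos (A := A) (B := B) ha hb ht
  have he := pf_eq (A := A) (B := B) (t := t) ha hb
  have ht2 : 0 < t ^ 2 := by positivity
  set P := pf a b A B t
  by_contra hlt
  push Not at hlt
  have h1 : A * t ^ 2 < a * P := by
    have : A / a * t ^ 2 * a < P * a := mul_lt_mul_of_pos_right hlt ha
    have h' : A / a * t ^ 2 * a = A * t ^ 2 := by field_simp
    linarith
  have h2 : b * t ^ 2 < B * P := by
    have h3 : a * b * t ^ 2 ≤ A * B * t ^ 2 := mul_le_mul_of_nonneg_right hAB ht2.le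
    have h4 : A * t ^ 2 * B < a * P * B := mul_lt_mul_of_pos_right h1 hB
    have h5 : a * (b * t ^ 2) < a * (B * P) := by nlinarith
    exact lt_of_mul_lt_mul_left h5 ha.le
  nlinarith [mul_pos hp (sub_pos.mpr h1)]

lemma le_pf {a b A B t : ℝ} (ha : 0 < a) (hb : 0 < b) (hA : 0 < A) (hB : 0 < B)
    (hAB : a * b ≤ A * B) (ht : t ≠ 0) : b / B * t ^ 2 ≤ pf a b A B t := by
  have hp := pf_pos (A := A) (B := B) ha hb ht
  have he := pf_eq (A := A) (B := B) (t := t) ha hb
  have ht2 : 0 < t ^ 2 := by positivity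
  set P := pf a b A B t
  by_contra hlt
  push Not at hlt
  have h1 : B * P < b * t ^ 2 := by
    have : P * B < b / B * t ^ 2 * B := mul_lt_mul_of_pos_right hlt hB
    have h' : b / B * t ^ 2 * B = b * t ^ 2 := by field_simp
    linarith
  have h2 : a * P < A * t ^ 2 := by
    have h3 : a * b * t ^ 2 ≤ A * B * t ^ 2 := mul_le_mul_of_nonneg_right hAB ht2.le
    have h4 : B * P * a < b * t ^ 2 * a := mul_lt_mul_of_pos_right h1 ha
    have h5 : B * (a * P) < B * (A * t ^ 2) := by nlinarith
    exact lt_of_mul_lt_mul_left h5 hB.le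
  nlinarith [mul_pos hp (sub_pos.mpr h2)]

lemma kf_neg (a b A B t : ℝ) : kf a b A B (-t) = - kf a b A B t := by
  unfold kf pf
  rw [neg_sq, div_neg]

lemma kf_zero (a b A B : ℝ) : kf a b A B 0 = 0 := by
  unfold kf
  simp

lemma kf_pos {a b A B t : ℝ} (ha : 0 < a) (hb : 0 < b) (ht : 0 < t) : 0 < kf a b A B t :=
  div_pos (pf_pos ha hb ht.ne') ht

lemma kf_eq {a b A B t : ℝ} (ha : 0 < a) (hb : 0 < b) (ht : t ≠ 0) :
    a * kf a b A B t ^ 2 * t - (A * t ^ 2 - B) * kf a b A B t - b * t = 0 := by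
  have he := pf_eq (A := A) (B := B) (t := t) ha hb
  unfold kf
  set P := pf a b A B t
  have h : a * (P / t) ^ 2 * t - (A * t ^ 2 - B) * (P / t) - b * t
      = (a * P ^ 2 - (A * t ^ 2 - B) * P - b * t ^ 2) / t := by
    field_simp
  rw [h, he, zero_div]

lemma kf_le {a b A B t : ℝ} (ha : 0 < a) (hb : 0 < b) (hA : 0 < A) (hB : 0 < B)
    (hAB : a * b ≤ A * B) (ht : 0 < t) : kf a b A B t ≤ A / a * t := by
  have h := pf_le ha hb hA hB hAB ht.ne'
  unfold kf
  rw [div_le_iff₀ ht]
  calc pf a b A B t ≤ A / a * t ^ 2 := h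
    _ = A / a * t * t := by ring

lemma le_kf {a b A B t : ℝ} (ha : 0 < a) (hb : 0 < b) (hA : 0 < A) (hB : 0 < B)
    (hAB : a * b ≤ A * B) (ht : 0 < t) : b / B * t ≤ kf a b A B t := by
  have h := le_pf ha hb hA hB hAB ht.ne'
  unfold kf
  rw [le_div_iff₀ ht]
  calc b / B * t * t = b / B * t ^ 2 := by ring
    _ ≤ pf a b A B t := h

lemma kf_mono_pos {a b A B t u : ℝ} (ha : 0 < a) (hb : 0 < b) (hA : 0 < A) (hB : 0 < B)
    (hAB : a * b ≤ A * B) (ht : 0 < t) (htu : t < u) :
    b / B * (u - t) ≤ kf a b A B u - kf a b A B t := by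
  have hu : 0 < u := ht.trans htu
  have e1 := kf_eq (A := A) (B := B) ha hb ht.ne'
  have e2 := kf_eq (A := A) (B := B) ha hb hu.ne'
  have l1 := le_kf ha hb hA hB hAB ht
  have l2 := le_kf ha hb hA hB hAB hu
  have p1 := kf_pos (A := A) (B := B) ha hb ht
  have p2 := kf_pos (A := A) (B := B) ha hb hu
  set k := kf a b A B t
  set m := kf a b A B u
  have hd1 : a * k - A * t + B / t - b / k = 0 := by
    have : a * k - A * t + B / t - b / k
        = (a * k ^ 2 * t - (A * t ^ 2 - B) * k - b * t) / (k * t) := by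
      field_simp
      ring
    rw [this, e1, zero_div]
  have hd2 : a * m - A * u + B / u - b / m = 0 := by
    have : a * m - A * u + B / u - b / m
        = (a * m ^ 2 * u - (A * u ^ 2 - B) * m - b * u) / (m * u) := by
      field_simp
      ring
    rw [this, e2, zero_div]
  have hkey : (m - k) * (a + b / (m * k)) = (u - t) * (A + B / (u * t)) := by
    have h1 : (m - k) * (a + b / (m * k)) = (a * m - b / m) - (a * k - b / k) := by
      field_simp
      ring
    have h2 : (u - t) * (A + B / (u * t)) = (A * u - B / u) - (A * t - B / t) := by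
      field_simp
      ring
    rw [h1, h2]
    linarith
  have hr : b / B ≤ A / a := by
    rw [div_le_div_iff₀ hB ha]
    linarith
  have hr0 : 0 < b / B := by positivity
  have hmk : (b / B) ^ 2 * (u * t) ≤ m * k := by
    have := mul_le_mul l2 l1 (by positivity) p2.le
    calc (b / B) ^ 2 * (u * t) = b / B * u * (b / B * t) := by ring
      _ ≤ m * k := this
  have hsuff : b / B * (a + b / (m * k)) ≤ A + B / (u * t) := by
    have h1 : b / B * a ≤ A := by
      have := mul_le_mul_of_nonneg_right hr ha.le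
      have h' : A / a * a = A := by field_simp
      linarith
    have h2 : b / B * (b / (m * k)) ≤ B / (u * t) := by
      have h3 : b / B * (b / (m * k)) = (b / B * b) / (m * k) := by ring
      rw [h3, div_le_div_iff₀ (by positivity) (by positivity)]
      have h4 := mul_le_mul_of_nonneg_left hmk hB.le
      calc b / B * b * (u * t) = B * ((b / B) ^ 2 * (u * t)) := by
            field_simp
        _ ≤ B * (m * k) := h4
    have : b / B * (a + b / (m * k)) = b / B * a + b / B * (b / (m * k)) := by ring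
    linarith
  have hden : 0 < a + b / (m * k) := by positivity
  have : b / B * (u - t) * (a + b / (m * k)) ≤ (m - k) * (a + b / (m * k)) := by
    rw [hkey]
    have := mul_le_mul_of_nonneg_left hsuff (sub_pos.mpr htu).le
    calc b / B * (u - t) * (a + b / (m * k)) = (u - t) * (b / B * (a + b / (m * k))) := by ring
      _ ≤ _ := this
  exact le_of_mul_le_mul_right this hden

lemma kf_mono {a b A B t u : ℝ} (ha : 0 < a) (hb : 0 < b) (hA : 0 < A) (hB : 0 < B)
    (hAB : a * b ≤ A * B) (htu : t < u) :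
    b / B * (u - t) ≤ kf a b A B u - kf a b A B t := by
  have hnonneg : ∀ s : ℝ, 0 ≤ s → b / B * s ≤ kf a b A B s := by
    intro s hs
    rcases hs.eq_or_lt with h | h
    · rw [← h, kf_zero, mul_zero]
    · exact le_kf ha hb hA hB hAB h
  rcases le_or_gt t 0 with ht | ht
  · rcases le_or_gt 0 u with hu | hu
    · have h1 := hnonneg u hu
      have h2 := hnonneg (-t) (by linarith)
      rw [kf_neg] at h2
      have : b / B * (u - t) = b / B * u + b / B * (-t) := by ring
      linarith
    · have h := kf_mono_pos (A := A) (B := B) (t := -u) (u := -t) ha hb hA hB hAB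
        (by linarith) (by linarith)
      rw [kf_neg, kf_neg] at h
      have h' : -t - -u = u - t := by ring
      rw [h'] at h
      linarith
  · exact kf_mono_pos ha hb hA hB hAB ht htu

lemma cot_sub {θ θ' : ℝ} (h0 : 0 < θ) (h1 : θ < θ') (h2 : θ' < 2 * π) :
    (θ' - θ) / 2 ≤ cos (θ / 2) / sin (θ / 2) - cos (θ' / 2) / sin (θ' / 2) := by
  have key : cos (θ' / 2) / sin (θ' / 2) - cos (θ / 2) / sin (θ / 2)
      ≤ (-(1 / 2)) * (θ' - θ) := by
    have hD : Convex ℝ (Set.Ioo (0 : ℝ) (2 * π)) := convex_Ioo _ _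
    have hs : ∀ x ∈ Set.Ioo (0 : ℝ) (2 * π), 0 < sin (x / 2) := fun x hx =>
      sin_pos_of_pos_of_lt_pi (by linarith [hx.1]) (by linarith [hx.2])
    have hder : ∀ x ∈ Set.Ioo (0 : ℝ) (2 * π),
        HasDerivAt (fun x : ℝ => cos (x / 2) / sin (x / 2))
          ((-sin (x / 2) * (1 / 2) * sin (x / 2) - cos (x / 2) * (cos (x / 2) * (1 / 2)))
            / sin (x / 2) ^ 2) x := by
      intro x hx
      have h := (hs x hx).ne'
      have hx2 : HasDerivAt (fun x : ℝ => x / 2) (1 / 2) x := (hasDerivAt_id x).div_const 2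
      exact (hx2.cos).div (hx2.sin) h
    refine hD.image_sub_le_mul_sub_of_deriv_le (f := fun x : ℝ => cos (x / 2) / sin (x / 2))
      (fun x hx => (hder x hx).continuousAt.continuousWithinAt) ?_ ?_ θ ⟨h0, h1.trans h2⟩ θ'
      ⟨h0.trans h1, h2⟩ h1.le
    · intro x hx
      rw [interior_Ioo] at hx
      exact (hder x hx).differentiableAt.differentiableWithinAt
    · intro x hx
      rw [interior_Ioo] at hx
      rw [(hder x hx).deriv]
      have h := hs x hx
      rw [div_le_iff₀ (by positivity)]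
      have hsc := sin_sq_add_cos_sq (x / 2)
      have hle : sin (x / 2) ^ 2 ≤ 1 := by nlinarith [sq_nonneg (cos (x / 2))]
      nlinarith
  linarith

theorem kfun_exists (y : ℝ) (hy0 : 0 < y) (hy1 : y < 1 / 3) :
    ∃ (K : ℝ → ℝ) (c C ρ : ℝ), 0 < c ∧ 0 < C ∧ 1 < ρ ∧
      (∀ θ : ℝ, 0 < θ → θ < 2 * π → K (2 * π - θ) = - K θ) ∧
      (∀ θ θ' : ℝ, 0 < θ → θ < θ' → θ' < 2 * π → c * (θ' - θ) ≤ K θ - K θ') ∧
      (∀ θ : ℝ, 0 < θ → θ < 2 * π → |K θ| * min θ (2 * π - θ) ≤ C) ∧
      (∀ θ : ℝ, 0 < θ → θ < 2 * π → θ ≠ π →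
        K θ ≠ 0 ∧
        (1 + y) * cos (θ / 2) * sin (θ / 2) * (1 - 3 * y) * K θ ^ 2
          + ((1 - y) ^ 2 * sin (θ / 2) ^ 2 + 4 * y ^ 2 * cos (θ / 2) ^ 2
              - (1 + y) ^ 2 * cos (θ / 2) ^ 2) * K θ
          - (1 + y) ^ 2 * cos (θ / 2) * sin (θ / 2) = 0 ∧
        ρ ≤ |(1 + y) * (cos (θ / 2) + sin (θ / 2) / K θ) / (2 * y)|) := by
  obtain ⟨a, ha'⟩ : ∃ a : ℝ, a = 1 - 3 * y := ⟨_, rfl⟩
  obtain ⟨b, hb'⟩ : ∃ b : ℝ, b = 1 + y := ⟨_, rfl⟩
  obtain ⟨A, hA'⟩ : ∃ A : ℝ, A = (1 - y) * (1 + 3 * y) / (1 + y) := ⟨_, rfl⟩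
  obtain ⟨B, hB'⟩ : ∃ B : ℝ, B = (1 - y) ^ 2 / (1 + y) := ⟨_, rfl⟩
  have hy1' : (0 : ℝ) < 1 - y := by linarith
  have hy2' : (0 : ℝ) < 1 + y := by linarith
  have ha : 0 < a := by rw [ha']; linarith
  have hb : 0 < b := by rw [hb']; linarith
  have hA : 0 < A := by rw [hA']; positivity
  have hB : 0 < B := by rw [hB']; positivity
  have hAB : a * b ≤ A * B := by
    rw [hA', hB', ha', hb']
    have e : (1 - y) * (1 + 3 * y) / (1 + y) * ((1 - y) ^ 2 / (1 + y))
        = ((1 - y) * (1 + 3 * y) * (1 - y) ^ 2) / (1 + y) ^ 2 := by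
      field_simp
    rw [e, le_div_iff₀ (by positivity)]
    have : (1 - y) * (1 + 3 * y) * (1 - y) ^ 2 - (1 - 3 * y) * (1 + y) * (1 + y) ^ 2
        = 16 * y ^ 3 := by ring
    have h16 : 0 < 16 * y ^ 3 := by positivity
    linarith
  have hodd : ∀ θ : ℝ, cos ((2 * π - θ) / 2) / sin ((2 * π - θ) / 2)
      = -(cos (θ / 2) / sin (θ / 2)) := by
    intro θ
    have e : (2 * π - θ) / 2 = π - θ / 2 := by ring
    rw [e, cos_pi_sub, sin_pi_sub, neg_div]
  have hsin : ∀ θ : ℝ, 0 < θ → θ < 2 * π → 0 < sin (θ / 2) := fun θ h1 h2 =>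
    sin_pos_of_pos_of_lt_pi (by linarith) (by linarith)
  set K : ℝ → ℝ := fun θ => kf a b A B (cos (θ / 2) / sin (θ / 2)) with hK
  refine ⟨K, b / B / 2, A / a * π, sqrt (B / y), by positivity, by positivity, ?_, ?_, ?_, ?_, ?_⟩
  · rw [Real.lt_sqrt (by norm_num)]
    rw [hB', div_div, one_pow, lt_div_iff₀ (by positivity)]
    nlinarith
  · intro θ h1 h2
    simp only [hK]
    rw [hodd, kf_neg]
  · intro θ θ' h1 h2 h3
    have hc := cot_sub h1 h2 h3
    have hlt : cos (θ' / 2) / sin (θ' / 2) < cos (θ / 2) / sin (θ / 2) := by linarith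
    have hm := kf_mono ha hb hA hB hAB hlt
    have hpos : 0 < b / B := by positivity
    calc b / B / 2 * (θ' - θ) = b / B * ((θ' - θ) / 2) := by ring
      _ ≤ b / B * (cos (θ / 2) / sin (θ / 2) - cos (θ' / 2) / sin (θ' / 2)) :=
          mul_le_mul_of_nonneg_left hc hpos.le
      _ ≤ _ := hm
  · -- the bound
    have habs : ∀ t : ℝ, |kf a b A B t| ≤ A / a * |t| := by
      intro t
      rcases lt_trichotomy t 0 with ht | ht | ht
      · have h := kf_le ha hb hA hB hAB (t := -t) (by linarith)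
        have hp := kf_pos (A := A) (B := B) ha hb (t := -t) (by linarith)
        rw [← abs_neg (kf a b A B t), ← kf_neg, abs_of_pos hp, abs_of_neg ht]
        exact h
      · rw [ht, kf_zero]; simp
      · have h := kf_le ha hb hA hB hAB ht
        have hp := kf_pos (A := A) (B := B) ha hb ht
        rw [abs_of_pos hp, abs_of_pos ht]
        exact h
    intro θ h1 h2
    have hs := hsin θ h1 h2
    have hmin : min θ (2 * π - θ) ≤ π * sin (θ / 2) := by
      rcases le_total θ π with h | h
      · have := Real.mul_le_sin (x := θ / 2) (by linarith) (by linarith)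
        have h3 : π * (2 / π * (θ / 2)) ≤ π * sin (θ / 2) :=
          mul_le_mul_of_nonneg_left this pi_pos.le
        have h4 : π * (2 / π * (θ / 2)) = θ := by
          field_simp
        exact (min_le_left _ _).trans (by linarith)
      · have := Real.mul_le_sin (x := π - θ / 2) (by linarith) (by linarith)
        rw [sin_pi_sub] at this
        have h3 : π * (2 / π * (π - θ / 2)) ≤ π * sin (θ / 2) :=
          mul_le_mul_of_nonneg_left this pi_pos.le
        have h4 : π * (2 / π * (π - θ / 2)) = 2 * π - θ := by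
          field_simp
        exact (min_le_right _ _).trans (by linarith)
    have hmin0 : 0 ≤ min θ (2 * π - θ) := le_min h1.le (by linarith)
    have ht : |cos (θ / 2) / sin (θ / 2)| ≤ 1 / sin (θ / 2) := by
      rw [abs_div, abs_of_pos hs]
      exact div_le_div_of_nonneg_right (abs_cos_le_one _) hs.le
    have hAa : 0 ≤ A / a := by positivity
    calc |K θ| * min θ (2 * π - θ)
        ≤ (A / a * (1 / sin (θ / 2))) * (π * sin (θ / 2)) :=
          mul_le_mul ((habs _).trans (mul_le_mul_of_nonneg_left ht hAa)) hmin hmin0 (by positivity)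
      _ = A / a * π := by field_simp
  · intro θ h1 h2 h3
    have hs := hsin θ h1 h2
    have hc0 : cos (θ / 2) ≠ 0 := by
      rcases lt_or_gt_of_ne h3 with h | h
      · exact (cos_pos_of_mem_Ioo ⟨by linarith, by linarith⟩).ne'
      · exact (cos_neg_of_pi_div_two_lt_of_lt (by linarith) (by linarith)).ne
    have hsc := sin_sq_add_cos_sq (θ / 2)
    -- general statement for `cos > 0`
    have main : ∀ c s : ℝ, 0 < s → 0 < c → s ^ 2 + c ^ 2 = 1 →
        sqrt (B / y) ≤ (1 + y) * (c + s / kf a b A B (c / s)) / (2 * y) := by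
      intro c s hs0 hcp hcs
      have htp : 0 < c / s := by positivity
      have hk := kf_pos (A := A) (B := B) ha hb htp
      have he := kf_eq (A := A) (B := B) ha hb htp.ne'
      set k := kf a b A B (c / s)
      -- lam and nu
      obtain ⟨lam, hlam⟩ : ∃ l : ℝ, l = (1 + y) * (c + s / k) / (2 * y) := ⟨_, rfl⟩
      obtain ⟨nu, hnu⟩ : ∃ l : ℝ, l = ((1 + y) * c - s * (1 - 3 * y) * k) / (2 * y) := ⟨_, rfl⟩
      have hsum : lam + nu = 2 * c + B / (2 * y * c) := by
        have hX : a * k - b / k = A * (c / s) - B * (s / c) := by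
          have : a * k - b / k - (A * (c / s) - B * (s / c))
              = (a * k ^ 2 * (c / s) - (A * (c / s) ^ 2 - B) * k - b * (c / s)) / (k * (c / s)) := by
            field_simp
            ring
          rw [he, zero_div] at this
          linarith
        have h5 : lam + nu = (2 * (1 + y) * c - s * (a * k - b / k)) / (2 * y) := by
          rw [hlam, hnu, ha', hb']
          field_simp
          ring
        rw [h5, hX]
        have h6 : s * (A * (c / s) - B * (s / c)) = A * c - B * (1 - c ^ 2) / c := by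
          have : s ^ 2 = 1 - c ^ 2 := by linarith
          rw [← this]
          field_simp
        rw [h6]
        have hABs : A + B = 2 * (1 - y) := by
          rw [hA', hB']
          field_simp
          ring
        have h7 : 2 * (1 + y) * c - (A * c - B * (1 - c ^ 2) / c)
            = (2 * (1 + y) - (A + B)) * c + B / c := by
          field_simp
          ring
        rw [h7, hABs]
        field_simp
        ring
      have hdiff : 0 < lam - nu := by
        have : lam - nu = ((1 + y) * (s / k) + s * a * k) / (2 * y) := by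
          rw [hlam, hnu, ha']
          field_simp
          ring
        rw [this]
        positivity
      have htau : sqrt (B / y) ≤ (lam + nu) / 2 := by
        rw [hsum]
        apply Real.sqrt_le_iff.mpr
        refine ⟨by positivity, ?_⟩
        have h8 : ((2 * c + B / (2 * y * c)) / 2) ^ 2
            = (c - B / (4 * y * c)) ^ 2 + B / y := by
          field_simp
          ring
        rw [h8]
        nlinarith [sq_nonneg (c - B / (4 * y * c))]
      rw [← hlam]
      linarith
    have htn : cos (θ / 2) / sin (θ / 2) ≠ 0 := div_ne_zero hc0 hs.ne'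
    refine ⟨?_, ?_, ?_⟩
    · simp only [hK]
      exact div_ne_zero (pf_pos ha hb htn).ne' htn
    · have he := kf_eq (A := A) (B := B) ha hb htn
      have hKθ : K θ = kf a b A B (cos (θ / 2) / sin (θ / 2)) := rfl
      rw [← hKθ] at he
      set c := cos (θ / 2)
      set s := sin (θ / 2)
      have h9 : (1 + y) * c * s * (1 - 3 * y) * K θ ^ 2
          + ((1 - y) ^ 2 * s ^ 2 + 4 * y ^ 2 * c ^ 2 - (1 + y) ^ 2 * c ^ 2) * K θ
          - (1 + y) ^ 2 * c * s
          = (1 + y) * s ^ 2 *
            (a * K θ ^ 2 * (c / s) - (A * (c / s) ^ 2 - B) * K θ - b * (c / s)) := by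
        rw [ha', hb', hA', hB']
        field_simp
        ring
      rw [h9, he, mul_zero]
    · rcases lt_or_gt_of_ne hc0 with hneg | hpos
      · have hm := main (-cos (θ / 2)) (sin (θ / 2)) hs (by linarith) (by rw [neg_sq]; exact hsc)
        rw [neg_div, kf_neg, div_neg] at hm
        have hKθ : K θ = kf a b A B (cos (θ / 2) / sin (θ / 2)) := rfl
        rw [← hKθ] at hm
        refine hm.trans ?_
        rw [← abs_neg]
        refine le_trans (le_of_eq ?_) (le_abs_self _)
        ring
      · exact (main (cos (θ / 2)) (sin (θ / 2)) hs hpos hsc).trans (le_abs_self _)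

end Pool.Agent.AFIsing
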