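import Pool.Agent.AFIsing.Gap
import Pool.Agent.AFIsing.Kfun

/-!
Module C3 (linear algebra on the cylinder) of MP_a5ec60_pr.
-/
open Real

namespace Pool.Agent.AFIsing

/-- the `ℓ²` norm over `range M` -/
noncomputable def nn (M : ℕ) (f : ℕ → ℂ) : ℝ := √(∑ x ∈ Finset.range M, ‖f x‖ ^ 2)

theorem nn_nonneg (M : ℕ) (f : ℕ → ℂ) : 0 ≤ nn M f := Real.sqrt_nonneg _

theorem nn_eq (M : ℕ) (f : ℕ → ℂ) :
    nn M f = ‖(WithLp.toLp 2 (fun i : Fin M => f i) : EuclideanSpace ℂ (Fin M))‖ := by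
  rw [EuclideanSpace.norm_eq]
  unfold nn
  rw [Finset.sum_range]

theorem nn_add (M : ℕ) (f g : ℕ → ℂ) : nn M (fun x => f x + g x) ≤ nn M f + nn M g := by
  rw [nn_eq, nn_eq, nn_eq]
  exact norm_add_le (WithLp.toLp 2 (fun i : Fin M => f i) : EuclideanSpace ℂ (Fin M))
    (WithLp.toLp 2 (fun i : Fin M => g i) : EuclideanSpace ℂ (Fin M))

theorem nn_mono (M : ℕ) (F G : ℕ → ℂ) (C : ℝ) (hC : 0 ≤ C) (h : ∀ k < M, ‖F k‖ ≤ C * ‖G k‖) :
    nn M F ≤ C * nn M G := by
  unfold nn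
  rw [← Real.sqrt_sq hC, ← Real.sqrt_mul (sq_nonneg _)]
  apply Real.sqrt_le_sqrt
  rw [Finset.mul_sum]
  refine Finset.sum_le_sum fun k hk => ?_
  have h1 := h k (Finset.mem_range.1 hk)
  calc ‖F k‖ ^ 2 ≤ (C * ‖G k‖) ^ 2 := pow_le_pow_left₀ (norm_nonneg _) h1 2
    _ = C ^ 2 * ‖G k‖ ^ 2 := by ring

theorem nn_congr (M : ℕ) (F G : ℕ → ℂ) (h : ∀ k < M, F k = G k) : nn M F = nn M G := by
  unfold nn
  congr 1
  refine Finset.sum_congr rfl fun k hk => ?_
  rw [h k (Finset.mem_range.1 hk)]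

theorem norm_le_nn (M : ℕ) (f : ℕ → ℂ) (x : ℕ) (hx : x < M) : ‖f x‖ ≤ nn M f := by
  unfold nn
  apply Real.le_sqrt_of_sq_le
  exact Finset.single_le_sum (f := fun x => ‖f x‖ ^ 2) (fun _ _ => by positivity)
    (Finset.mem_range.2 hx)

/-- the discrete Fourier transform at half-integer momenta -/
noncomputable def hat (M : ℕ) (f : ℕ → ℂ) (k : ℕ) : ℂ :=
  ∑ x ∈ Finset.range M, Complex.exp (-(Complex.I * (th M k : ℂ) * (x : ℂ))) * f x

/-- the operator with matrix `Hm` -/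
noncomputable def op (K : ℝ → ℝ) (M : ℕ) (f : ℕ → ℂ) (x : ℕ) : ℂ :=
  ∑ x' ∈ Finset.range M, Hm K M x x' * f x'

theorem hat_add (M : ℕ) (f g : ℕ → ℂ) (k : ℕ) :
    hat M (fun x => f x + g x) k = hat M f k + hat M g k := by
  unfold hat
  rw [← Finset.sum_add_distrib]
  exact Finset.sum_congr rfl fun x _ => by ring

theorem hat_sub (M : ℕ) (f g : ℕ → ℂ) (k : ℕ) :
    hat M (fun x => f x - g x) k = hat M f k - hat M g k := by
  unfold hat
  rw [← Finset.sum_sub_distrib]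
  exact Finset.sum_congr rfl fun x _ => by ring

theorem hat_smul (M : ℕ) (c : ℂ) (f : ℕ → ℂ) (k : ℕ) :
    hat M (fun x => c * f x) k = c * hat M f k := by
  unfold hat
  rw [Finset.mul_sum]
  exact Finset.sum_congr rfl fun x _ => by ring

theorem hat_congr (M : ℕ) (f g : ℕ → ℂ) (k : ℕ) (h : ∀ x < M, f x = g x) :
    hat M f k = hat M g k := by
  unfold hat
  exact Finset.sum_congr rfl fun x hx => by rw [h x (Finset.mem_range.1 hx)]

theorem hat_shift (M : ℕ) (hM : 0 < M) (f : ℕ → ℂ) (k : ℕ) (hf : f M = - f 0) :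
    hat M (fun x => f (x + 1)) k = Complex.exp (Complex.I * (th M k : ℂ)) * hat M f k := by
  unfold hat
  have hM0 : (M : ℂ) ≠ 0 := by exact_mod_cast hM.ne'
  have hexp : Complex.exp (-(Complex.I * (th M k : ℂ) * (M : ℂ))) = -1 := by
    have : -(Complex.I * (th M k : ℂ) * (M : ℂ))
        = ((-(k : ℤ) - 1 : ℤ) : ℂ) * (2 * Real.pi * Complex.I) + Real.pi * Complex.I := by
      unfold th
      push_cast
      field_simp
      ring
    rw [this, Complex.exp_add, Complex.exp_int_mul_two_pi_mul_I, Complex.exp_pi_mul_I]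
    ring
  have h1 : ∀ x : ℕ, Complex.exp (-(Complex.I * (th M k : ℂ) * (x : ℂ))) * f (x + 1)
      = Complex.exp (Complex.I * (th M k : ℂ)) *
        (Complex.exp (-(Complex.I * (th M k : ℂ) * ((x + 1 : ℕ) : ℂ))) * f (x + 1)) := by
    intro x
    rw [← mul_assoc, ← Complex.exp_add]
    congr 2
    push_cast
    ring
  rw [Finset.sum_congr rfl fun x _ => h1 x, ← Finset.mul_sum]
  congr 1
  have h2 := Finset.sum_range_succ' (fun x : ℕ =>
    Complex.exp (-(Complex.I * (th M k : ℂ) * (x : ℂ))) * f x) M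
  have h3 := Finset.sum_range_succ (fun x : ℕ =>
    Complex.exp (-(Complex.I * (th M k : ℂ) * (x : ℂ))) * f x) M
  rw [h3, hexp, hf] at h2
  have h4 : Complex.exp (-(Complex.I * (th M k : ℂ) * ((0 : ℕ) : ℂ))) = 1 := by simp
  rw [h4] at h2
  linear_combination -h2

theorem nn_hat (M : ℕ) (hM : 0 < M) (f : ℕ → ℂ) : nn M (hat M f) = √M * nn M f := by
  have h := parseval (Finset.range M) M hM (le_refl _) (fun x => f x)
  unfold nsq at h
  rw [Finset.sum_coe_sort (Finset.range M) (fun x => ‖f x‖ ^ 2)] at h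
  unfold nn
  rw [← Real.sqrt_mul (by positivity), ← h]
  congr 1
  refine Finset.sum_congr rfl fun k _ => ?_
  rw [Lf_apply, Finset.sum_coe_sort (Finset.range M)
    (fun x => Complex.exp (-(Complex.I * (th M k : ℂ) * (x : ℂ))) * f x)]
  rfl

theorem orth (M : ℕ) (hM : 0 < M) (k l : ℕ) (hk : k < M) (hl : l < M) :
    ∑ x ∈ Finset.range M, Complex.exp (Complex.I * ((th M l : ℂ) - (th M k : ℂ)) * (x : ℂ))
      = if l = k then (M : ℂ) else 0 := by
  have hM0 : (M : ℂ) ≠ 0 := by exact_mod_cast hM.ne'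
  split_ifs with h
  · subst h
    simp
  · have h0 := geom_zero M hM ((l : ℤ) - (k : ℤ)) (by omega) (by rw [abs_lt]; omega)
    have h1 : ∀ x : ℕ, Complex.exp (Complex.I * (th M x : ℂ) * (((l : ℤ) - (k : ℤ) : ℤ) : ℂ))
        = Complex.exp (Complex.I * (Real.pi * ((l : ℂ) - k) / M)) *
          Complex.exp (Complex.I * ((th M l : ℂ) - (th M k : ℂ)) * (x : ℂ)) := by
      intro x
      rw [← Complex.exp_add]
      congr 1
      unfold th
      push_cast
      field_simp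
      ring
    rw [Finset.sum_congr rfl fun x _ => h1 x, ← Finset.mul_sum] at h0
    exact (mul_eq_zero.1 h0).resolve_left (Complex.exp_ne_zero _)

theorem hat_op (K : ℝ → ℝ) (M : ℕ) (hM : 0 < M) (f : ℕ → ℂ) (k : ℕ) (hk : k < M) :
    hat M (op K M f) k = (K (th M k) : ℂ) * hat M f k := by
  have hM0 : (M : ℂ) ≠ 0 := by exact_mod_cast hM.ne'
  have h1 : ∀ x : ℕ, Complex.exp (-(Complex.I * (th M k : ℂ) * (x : ℂ))) * op K M f x
      = ∑ l ∈ Finset.range M, ((1 / (M : ℂ)) * (K (th M l) : ℂ) * hat M f l) *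
        Complex.exp (Complex.I * ((th M l : ℂ) - (th M k : ℂ)) * (x : ℂ)) := by
    intro x
    unfold op Hm hat
    rw [Finset.mul_sum]
    simp_rw [Finset.mul_sum, Finset.sum_mul, Finset.mul_sum]
    rw [Finset.sum_comm]
    refine Finset.sum_congr rfl fun l _ => Finset.sum_congr rfl fun x' _ => ?_
    have h2 : Complex.exp (Complex.I * (th M l : ℂ) * ((x : ℂ) - (x' : ℂ)))
        = Complex.exp (Complex.I * (th M l : ℂ) * (x : ℂ)) *
          Complex.exp (-(Complex.I * (th M l : ℂ) * (x' : ℂ))) := by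
      rw [← Complex.exp_add]; congr 1; ring
    have h3 : Complex.exp (Complex.I * ((th M l : ℂ) - (th M k : ℂ)) * (x : ℂ))
        = Complex.exp (Complex.I * (th M l : ℂ) * (x : ℂ)) *
          Complex.exp (-(Complex.I * (th M k : ℂ) * (x : ℂ))) := by
      rw [← Complex.exp_add]; congr 1; ring
    rw [h2, h3]
    ring
  unfold hat
  rw [Finset.sum_congr rfl fun x _ => h1 x, Finset.sum_comm]
  rw [Finset.sum_congr rfl fun l hl => by
    rw [← Finset.mul_sum, orth M hM k l hk (Finset.mem_range.1 hl)]]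
  rw [Finset.sum_eq_single k]
  · rw [if_pos rfl]
    unfold hat
    field_simp
  · intro l _ hlk
    rw [if_neg hlk, mul_zero]
  · intro h
    exact absurd (Finset.mem_range.2 hk) h

theorem nn_op (K : ℝ → ℝ) (M : ℕ) (hM : 0 < M) (κ : ℝ) (hκ : 0 ≤ κ)
    (hK : ∀ k < M, |K (th M k)| ≤ κ) (f : ℕ → ℂ) : nn M (op K M f) ≤ κ * nn M f := by
  have h1 : nn M (hat M (op K M f)) ≤ κ * nn M (hat M f) := by
    apply nn_mono _ _ _ _ hκ
    intro k hk
    rw [hat_op K M hM f k hk, norm_mul]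
    refine mul_le_mul_of_nonneg_right ?_ (norm_nonneg _)
    rw [Complex.norm_real, Real.norm_eq_abs]
    exact hK k hk
  rw [nn_hat M hM, nn_hat M hM] at h1
  have hM0 : 0 < √(M : ℝ) := Real.sqrt_pos.2 (by exact_mod_cast hM)
  have h2 : √(M : ℝ) * nn M (op K M f) ≤ √(M : ℝ) * (κ * nn M f) := by
    calc _ ≤ _ := h1
      _ = _ := by ring
  exact le_of_mul_le_mul_left h2 hM0

theorem th_pos (M k : ℕ) (hM : 0 < M) : 0 < th M k := by
  unfold th
  have : (0 : ℝ) < M := by exact_mod_cast hM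
  positivity

theorem th_lt (M k : ℕ) (hk : k < M) : th M k < 2 * π := by
  unfold th
  have hM : (0 : ℝ) < M := by exact_mod_cast (by omega : 0 < M)
  rw [div_lt_iff₀ hM]
  have : (k : ℝ) + 1 ≤ M := by exact_mod_cast hk
  nlinarith [Real.pi_pos]

theorem th_ne (M k : ℕ) (hk : k < M) (hM : Even M) : th M k ≠ π := by
  unfold th
  have hM0 : (M : ℝ) ≠ 0 := by
    have : 0 < M := by omega
    positivity
  intro h
  rw [div_eq_iff hM0] at h
  have h1 : (2 * (k : ℝ) + 1) = M := by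
    have := Real.pi_pos.ne'
    have h2 : π * (2 * (k : ℝ) + 1) = π * M := by linarith
    exact mul_left_cancel₀ this h2
  have h2 : 2 * k + 1 = M := by exact_mod_cast h1
  obtain ⟨r, hr⟩ := hM
  omega

theorem min_th (M k : ℕ) (hk : k < M) : π / M ≤ min (th M k) (2 * π - th M k) := by
  unfold th
  have hM : (0 : ℝ) < M := by exact_mod_cast (by omega : 0 < M)
  have hpi := Real.pi_pos
  have hk' : (k : ℝ) + 1 ≤ M := by exact_mod_cast hk
  apply le_min
  · apply div_le_div_of_nonneg_right _ hM.le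
    have : (0 : ℝ) ≤ k := by positivity
    nlinarith
  · rw [le_sub_iff_add_le, ← add_div, div_le_iff₀ hM]
    nlinarith

theorem gapN (K : ℝ → ℝ) (c : ℝ) (hc : 0 < c)
    (hodd : ∀ θ : ℝ, 0 < θ → θ < 2 * Real.pi → K (2 * Real.pi - θ) = - K θ)
    (hmono : ∀ θ θ' : ℝ, 0 < θ → θ < θ' → θ' < 2 * Real.pi → c * (θ' - θ) ≤ K θ - K θ')
    (M : ℕ) (hM : 2 ≤ M) (hMe : Even M)
    (A : Finset ℕ) (hA : A ⊆ Finset.range M) (hAe : Even A.card) (v g : ℕ → ℂ)
    (hv : ∀ x < M, x ∉ A → v x = 0) (hg : ∀ x ∈ A, op K M v x = g x) :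
    nn M v ≤ M / (c * π) * nn M g := by
  have h := gap K c hc hodd hmono M hM hMe A hA hAe v
  have hM0 : (0 : ℝ) < M := by positivity
  have hpi := Real.pi_pos
  have h1 : ∑ x ∈ A, ‖v x‖ ^ 2 = ∑ x ∈ Finset.range M, ‖v x‖ ^ 2 := by
    apply Finset.sum_subset hA
    intro x hx hxA
    rw [hv x (Finset.mem_range.1 hx) hxA]
    simp
  have h2 : ∀ x ∈ A, ∑ x' ∈ A, Hm K M x x' * v x' = g x := by
    intro x hx
    rw [← hg x hx]
    unfold op
    apply Finset.sum_subset hA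
    intro x' hx' hxA
    rw [hv x' (Finset.mem_range.1 hx') hxA, mul_zero]
  have h2' : ∑ x ∈ A, ‖∑ x' ∈ A, Hm K M x x' * v x'‖ ^ 2 = ∑ x ∈ A, ‖g x‖ ^ 2 :=
    Finset.sum_congr rfl fun x hx => by rw [h2 x hx]
  rw [h2', h1] at h
  have h3 : ∑ x ∈ A, ‖g x‖ ^ 2 ≤ ∑ x ∈ Finset.range M, ‖g x‖ ^ 2 :=
    Finset.sum_le_sum_of_subset_of_nonneg hA (fun _ _ _ => by positivity)
  have h4 : (0 : ℝ) ≤ M / (c * π) := by positivity
  unfold nn
  rw [← Real.sqrt_sq h4, ← Real.sqrt_mul (sq_nonneg _)]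
  apply Real.sqrt_le_sqrt
  have h5 : ∑ x ∈ Finset.range M, ‖v x‖ ^ 2
      = (M / (c * π)) ^ 2 * ((c * π / M) ^ 2 * ∑ x ∈ Finset.range M, ‖v x‖ ^ 2) := by
    field_simp
  rw [h5]
  exact mul_le_mul_of_nonneg_left (h.trans h3) (sq_nonneg _)

/-- the algebra of one step -/
theorem step_alg (y c s K W : ℝ) (h g b a g' b' : ℂ) (hy : y ≠ 0) (hy1 : 1 + y ≠ 0) (hc : c ≠ 0)
    (hK : K ≠ 0) (hcs : c ^ 2 + s ^ 2 = 1) (hh : h = c + Complex.I * s) (hW : W = 1 - 3 * y)
    (hQ : (1 + y) * c * s * (1 - 3 * y) * K ^ 2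
          + ((1 - y) ^ 2 * s ^ 2 + 4 * y ^ 2 * c ^ 2 - (1 + y) ^ 2 * c ^ 2) * K
          - (1 + y) ^ 2 * c * s = 0)
    (R1 : g + a = -(y : ℂ) * (h ^ 2 * b + h ^ 2 * a + (g' + b')))
    (R2 : h ^ 2 * b - h ^ 2 * a = -(y : ℂ) * (g - a + (g' + b')))
    (R3 : g' - b' = -(y : ℂ) * (g - a - (h ^ 2 * b + h ^ 2 * a))) :
    ((g' - h ^ 2 * b') - Complex.I * K * (g' + h ^ 2 * b')
      = -h * (((1 + y) * (c + s / K) / (2 * y) : ℝ) : ℂ)
        * ((g - h ^ 2 * b) - Complex.I * K * (g + h ^ 2 * b))) ∧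
    ((g' + h ^ 2 * b') - Complex.I * ((W / (1 + y) : ℝ) : ℂ) * K * (g' - h ^ 2 * b')
      = -h * ((((1 + y) * c - s * (1 - 3 * y) * K) / (2 * y) : ℝ) : ℂ)
        * ((g + h ^ 2 * b) - Complex.I * ((W / (1 + y) : ℝ) : ℂ) * K * (g - h ^ 2 * b))) ∧
    ((1 + y) * (c + s / K) / (2 * y)) * (((1 + y) * c - s * (1 - 3 * y) * K) / (2 * y)) = 1 := by
  have hI : Complex.I ^ 2 = -1 := Complex.I_sq
  have hcsC : (c : ℂ) ^ 2 + (s : ℂ) ^ 2 = 1 := by exact_mod_cast hcs
  have hQC : (1 + (y : ℂ)) * c * s * (1 - 3 * y) * K ^ 2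
          + ((1 - y) ^ 2 * s ^ 2 + 4 * y ^ 2 * c ^ 2 - (1 + y) ^ 2 * c ^ 2) * K
          - (1 + y) ^ 2 * c * s = 0 := by exact_mod_cast hQ
  have hyC : (y : ℂ) ≠ 0 := by exact_mod_cast hy
  have hy1C : (1 + (y : ℂ)) ≠ 0 := by exact_mod_cast hy1
  have hcC : (c : ℂ) ≠ 0 := by exact_mod_cast hc
  have hKC : (K : ℂ) ≠ 0 := by exact_mod_cast hK
  have e1 : 1 + h ^ 2 = 2 * c * h := by
    rw [hh]
    linear_combination (-1) * hcsC + ((s : ℂ) ^ 2) * hI - (0 : ℂ) * hI
  have e2 : 1 - h ^ 2 = -2 * Complex.I * s * h := by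
    rw [hh]
    linear_combination (-1) * hcsC + ((s : ℂ) ^ 2) * hI
  have ea : 2 * c * h * a * (1 + y) = -(1 - (y : ℂ)) * (g - h ^ 2 * b) := by
    rw [← e1]
    linear_combination R1 - R2
  have em0 : 2 * (y : ℂ) * (g' + b') = -(1 + y) * (g + h ^ 2 * b) - (1 - y) * (1 - h ^ 2) * a := by
    linear_combination R1 + R2
  have em : 2 * (y : ℂ) * (1 + y) * c * (g' + b') = -(1 + y) ^ 2 * c * (g + h ^ 2 * b)
      - Complex.I * s * (1 - y) ^ 2 * (g - h ^ 2 * b) := by
    linear_combination (1 + (y : ℂ)) * c * em0 - (1 - (y : ℂ)) * a * (1 + y) * c * e2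
      + (1 - (y : ℂ)) * Complex.I * s * ea
  have ep : (1 + (y : ℂ)) * (g' - b') = - 2 * y * (g - h ^ 2 * b) := by
    linear_combination (1 + (y : ℂ)) * R3 + (y : ℂ) * (1 + y) * a * e1 + y * ea
  have eu : g' + h ^ 2 * b' = h * (c * (g' + b') - Complex.I * s * (g' - b')) := by
    linear_combination ((g' + b') / 2) * e1 + ((g' - b') / 2) * e2
  have ed : g' - h ^ 2 * b' = h * (-Complex.I * s * (g' + b') + c * (g' - b')) := by
    linear_combination ((g' + b') / 2) * e2 + ((g' - b') / 2) * e1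
  obtain ⟨lam, hlam⟩ : ∃ l : ℝ, l = (1 + y) * (c + s / K) / (2 * y) := ⟨_, rfl⟩
  obtain ⟨nu, hnu⟩ : ∃ l : ℝ, l = ((1 + y) * c - s * (1 - 3 * y) * K) / (2 * y) := ⟨_, rfl⟩
  obtain ⟨w, hw⟩ : ∃ l : ℝ, l = W / (1 + y) := ⟨_, rfl⟩
  rw [← hlam, ← hnu, ← hw]
  have hlam1 : 2 * y * K * lam = (1 + y) * (c * K + s) := by
    rw [hlam]; field_simp
  have hnu1 : 2 * y * nu = (1 + y) * c - s * (1 - 3 * y) * K := by
    rw [hnu]; field_simp
  have hw1 : (1 + y) * w = 1 - 3 * y := by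
    rw [hw, hW]; field_simp
  have hlamC : 2 * (y : ℂ) * K * lam = (1 + y) * (c * K + s) := by exact_mod_cast hlam1
  have hnuC : 2 * (y : ℂ) * nu = (1 + y) * c - s * (1 - 3 * y) * K := by exact_mod_cast hnu1
  have hwC : (1 + (y : ℂ)) * w = 1 - 3 * y := by exact_mod_cast hw1
  refine ⟨?_, ?_, ?_⟩
  · rw [eu, ed]
    generalize g' + b' = m at *
    generalize g' - b' = p at *
    generalize g + h ^ 2 * b = u at *
    generalize g - h ^ 2 * b = d at *
    have hne : 2 * (y : ℂ) * (1 + y) * c * K ≠ 0 := by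
      simp [hyC, hy1C, hcC, hKC]
    apply mul_left_cancel₀ hne
    linear_combination (h * (-Complex.I) * (s + K * c) * K) * em
      + (h * 2 * y * c * K * (c - K * s)) * ep + (-h * d) * hQC
      + (2 * (y : ℂ) * (1 + y) * c * K * h * K * s * p
          + h * (s + K * c) * K * s * (1 - y) ^ 2 * d) * hI
      + (h * (d - Complex.I * K * u) * (1 + y) * c) * hlamC
  · rw [eu, ed]
    generalize g' + b' = m at *
    generalize g' - b' = p at *
    generalize g + h ^ 2 * b = u at *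
    generalize g - h ^ 2 * b = d at *
    have hne : 2 * (y : ℂ) * (1 + y) ^ 2 * c ≠ 0 := by
      simp [hyC, hy1C, hcC]
    apply mul_left_cancel₀ hne
    linear_combination (h * ((1 + y) * c - (1 - 3 * y) * K * s)) * em
      + (-2 * y * c * Complex.I * h * ((1 + y) * s + (1 - 3 * y) * K * c)) * ep
      + (Complex.I * h * d * (1 - 3 * y)) * hQC
      + (2 * (y : ℂ) * (1 + y) * c * h * (1 - 3 * y) * K * s * m) * hI
      + (h * (1 + y) * c * ((1 + y) * u - Complex.I * (1 - 3 * y) * K * d)) * hnuC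
      + (2 * y * (1 + y) * c * (-Complex.I * K * h * (-Complex.I * s * m + c * p))
          - h * nu * 2 * y * (1 + y) * c * Complex.I * K * d) * hwC
  · have hne : 2 * y * K * (2 * y) ≠ 0 := by simp [hy, hK]
    apply mul_left_cancel₀ hne
    linear_combination (2 * y * nu) * hlam1 + ((1 + y) * (c * K + s)) * hnu1 - hQ
      + 4 * y ^ 2 * K * hcs

/-- `u = γ + T β` -/
noncomputable def Uf (ga be : ℕ → ℕ → ℝ) (j x : ℕ) : ℂ := (ga x j : ℂ) + (be (x + 1) j : ℂ)

/-- `d = γ - T β` -/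
noncomputable def Df (ga be : ℕ → ℕ → ℝ) (j x : ℕ) : ℂ := (ga x j : ℂ) - (be (x + 1) j : ℂ)

/-- the growing combination -/
noncomputable def Ef (K : ℝ → ℝ) (M : ℕ) (ga be : ℕ → ℕ → ℝ) (j x : ℕ) : ℂ :=
  Df ga be j x - Complex.I * op K M (Uf ga be j) x

/-- the decaying combination -/
noncomputable def Ff (K : ℝ → ℝ) (M : ℕ) (w : ℝ) (ga be : ℕ → ℕ → ℝ) (j x : ℕ) : ℂ :=
  Uf ga be j x - Complex.I * (w : ℂ) * op K M (Df ga be j) x

theorem rows (y : ℝ) (hy0 : 0 < y) (K : ℝ → ℝ) (ρ : ℝ) (hρ : 1 < ρ)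
    (hK : ∀ θ : ℝ, 0 < θ → θ < 2 * π → θ ≠ π →
        K θ ≠ 0 ∧
        (1 + y) * cos (θ / 2) * sin (θ / 2) * (1 - 3 * y) * K θ ^ 2
          + ((1 - y) ^ 2 * sin (θ / 2) ^ 2 + 4 * y ^ 2 * cos (θ / 2) ^ 2
              - (1 + y) ^ 2 * cos (θ / 2) ^ 2) * K θ
          - (1 + y) ^ 2 * cos (θ / 2) * sin (θ / 2) = 0 ∧
        ρ ≤ |(1 + y) * (cos (θ / 2) + sin (θ / 2) / K θ) / (2 * y)|)
    (M n : ℕ) (hMe : Even M) (hM : 0 < M) (al be ga : ℕ → ℕ → ℝ)
    (hR : ∀ x < M, ∀ j < n,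
          ga x j + al x j = - y * ((be (x + 1) j + al (x + 1) j)
            + (ga x (j + 1) + be x (j + 1))) ∧
          be (x + 1) j - al (x + 1) j = - y * ((ga x j - al x j)
            + (ga x (j + 1) + be x (j + 1))) ∧
          ga x (j + 1) - be x (j + 1) = - y * ((ga x j - al x j)
            - (be (x + 1) j + al (x + 1) j)))
    (hb : ∀ j ≤ n, be M j = - be 0 j) (ha : ∀ j ≤ n, al M j = - al 0 j) :
    ρ ^ n * nn M (Ef K M ga be 0) ≤ nn M (Ef K M ga be n) ∧
    ρ ^ n * nn M (Ff K M ((1 - 3 * y) / (1 + y)) ga be n)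
      ≤ nn M (Ff K M ((1 - 3 * y) / (1 + y)) ga be 0) := by
  have hρ0 : 0 < ρ := by linarith
  set w : ℝ := (1 - 3 * y) / (1 + y) with hw
  have key : ∀ k < M, ∀ j < n,
      ρ * ‖hat M (Ef K M ga be j) k‖ ≤ ‖hat M (Ef K M ga be (j + 1)) k‖ ∧
      ρ * ‖hat M (Ff K M w ga be (j + 1)) k‖ ≤ ‖hat M (Ff K M w ga be j) k‖ := by
    intro k hk j hj
    obtain ⟨hK0, hQ, hlam⟩ := hK (th M k) (th_pos M k hM) (th_lt M k hk) (th_ne M k hk hMe)
    have hc : cos (th M k / 2) ≠ 0 := by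
      intro h0
      have h1 : sin (th M k) = 0 := by
        have h3 : th M k = 2 * (th M k / 2) := by ring
        rw [h3, sin_two_mul, h0, mul_zero]
      rw [sin_eq_zero_iff] at h1
      obtain ⟨m, hm⟩ := h1
      have h4 := th_pos M k hM
      have h5 := th_lt M k hk
      have h6 := th_ne M k hk hMe
      rw [← hm] at h4 h5 h6
      have h7 : (0 : ℝ) < m := by
        by_contra h
        push Not at h
        nlinarith [Real.pi_pos]
      have h8 : (m : ℝ) < 2 := by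
        by_contra h
        push Not at h
        nlinarith [Real.pi_pos]
      have h9 : (0 : ℤ) < m := by exact_mod_cast h7
      have h10 : m < (2 : ℤ) := by exact_mod_cast h8
      have h11 : m = 1 := by omega
      rw [h11] at h6
      simp at h6
    have hcs : cos (th M k / 2) ^ 2 + sin (th M k / 2) ^ 2 = 1 := by
      rw [add_comm]; exact sin_sq_add_cos_sq _
    have hh : Complex.exp (((th M k / 2 : ℝ) : ℂ) * Complex.I)
        = ((cos (th M k / 2) : ℝ) : ℂ) + Complex.I * ((sin (th M k / 2) : ℝ) : ℂ) := by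
      rw [Complex.exp_mul_I, Complex.ofReal_cos, Complex.ofReal_sin]
      ring
    have hhn : ‖Complex.exp (((th M k / 2 : ℝ) : ℂ) * Complex.I)‖ = 1 :=
      Complex.norm_exp_ofReal_mul_I _
    have hz : Complex.exp (Complex.I * (th M k : ℂ))
        = Complex.exp (((th M k / 2 : ℝ) : ℂ) * Complex.I) ^ 2 := by
      rw [← Complex.exp_nat_mul]
      congr 1
      push_cast
      ring
    set h : ℂ := Complex.exp (((th M k / 2 : ℝ) : ℂ) * Complex.I) with hhdef
    -- the hats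
    have hbs : ∀ i ≤ n, hat M (fun x => ((be (x + 1) i : ℝ) : ℂ)) k
        = h ^ 2 * hat M (fun x => ((be x i : ℝ) : ℂ)) k := by
      intro i hi
      rw [← hz]
      exact hat_shift M hM (fun x => ((be x i : ℝ) : ℂ)) k (by
        show ((be M i : ℝ) : ℂ) = - ((be 0 i : ℝ) : ℂ)
        rw [hb i hi]; push_cast; ring)
    have has : ∀ i ≤ n, hat M (fun x => ((al (x + 1) i : ℝ) : ℂ)) k
        = h ^ 2 * hat M (fun x => ((al x i : ℝ) : ℂ)) k := by
      intro i hi
      rw [← hz]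
      exact hat_shift M hM (fun x => ((al x i : ℝ) : ℂ)) k (by
        show ((al M i : ℝ) : ℂ) = - ((al 0 i : ℝ) : ℂ)
        rw [ha i hi]; push_cast; ring)
    have hU : ∀ i ≤ n, hat M (Uf ga be i) k = hat M (fun x => ((ga x i : ℝ) : ℂ)) k
        + h ^ 2 * hat M (fun x => ((be x i : ℝ) : ℂ)) k := by
      intro i hi
      rw [← hbs i hi, ← hat_add]
      rfl
    have hD : ∀ i ≤ n, hat M (Df ga be i) k = hat M (fun x => ((ga x i : ℝ) : ℂ)) k
        - h ^ 2 * hat M (fun x => ((be x i : ℝ) : ℂ)) k := by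
      intro i hi
      rw [← hbs i hi, ← hat_sub]
      rfl
    have hE : ∀ i ≤ n, hat M (Ef K M ga be i) k
        = (hat M (fun x => ((ga x i : ℝ) : ℂ)) k
            - h ^ 2 * hat M (fun x => ((be x i : ℝ) : ℂ)) k)
          - Complex.I * K (th M k) * (hat M (fun x => ((ga x i : ℝ) : ℂ)) k
            + h ^ 2 * hat M (fun x => ((be x i : ℝ) : ℂ)) k) := by
      intro i hi
      have e1 : hat M (Ef K M ga be i) k = hat M (Df ga be i) k
          - Complex.I * hat M (op K M (Uf ga be i)) k := by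
        rw [← hat_smul, ← hat_sub]
        rfl
      rw [e1, hat_op K M hM _ k hk, hU i hi, hD i hi]
      ring
    have hF : ∀ i ≤ n, hat M (Ff K M w ga be i) k
        = (hat M (fun x => ((ga x i : ℝ) : ℂ)) k
            + h ^ 2 * hat M (fun x => ((be x i : ℝ) : ℂ)) k)
          - Complex.I * (w : ℂ) * K (th M k) * (hat M (fun x => ((ga x i : ℝ) : ℂ)) k
            - h ^ 2 * hat M (fun x => ((be x i : ℝ) : ℂ)) k) := by
      intro i hi
      have e1 : hat M (Ff K M w ga be i) k = hat M (Uf ga be i) k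
          - Complex.I * (w : ℂ) * hat M (op K M (Df ga be i)) k := by
        rw [← hat_smul, ← hat_sub]
        rfl
      rw [e1, hat_op K M hM _ k hk, hU i hi, hD i hi]
      ring
    -- the relations
    have r1 : hat M (fun x => ((ga x j : ℝ) : ℂ)) k + hat M (fun x => ((al x j : ℝ) : ℂ)) k
        = -(y : ℂ) * (h ^ 2 * hat M (fun x => ((be x j : ℝ) : ℂ)) k
          + h ^ 2 * hat M (fun x => ((al x j : ℝ) : ℂ)) k
          + (hat M (fun x => ((ga x (j + 1) : ℝ) : ℂ)) k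
            + hat M (fun x => ((be x (j + 1) : ℝ) : ℂ)) k)) := by
      rw [← hbs j hj.le, ← has j hj.le, ← hat_add, ← hat_add, ← hat_add, ← hat_add, ← hat_smul]
      apply hat_congr
      intro x hx
      have := (hR x hx j hj).1
      exact_mod_cast congrArg (fun r : ℝ => (r : ℂ)) this
    have r2 : h ^ 2 * hat M (fun x => ((be x j : ℝ) : ℂ)) k
          - h ^ 2 * hat M (fun x => ((al x j : ℝ) : ℂ)) k
        = -(y : ℂ) * (hat M (fun x => ((ga x j : ℝ) : ℂ)) k
          - hat M (fun x => ((al x j : ℝ) : ℂ)) k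
          + (hat M (fun x => ((ga x (j + 1) : ℝ) : ℂ)) k
            + hat M (fun x => ((be x (j + 1) : ℝ) : ℂ)) k)) := by
      rw [← hbs j hj.le, ← has j hj.le, ← hat_sub, ← hat_sub, ← hat_add, ← hat_add, ← hat_smul]
      apply hat_congr
      intro x hx
      have := (hR x hx j hj).2.1
      exact_mod_cast congrArg (fun r : ℝ => (r : ℂ)) this
    have r3 : hat M (fun x => ((ga x (j + 1) : ℝ) : ℂ)) k
            - hat M (fun x => ((be x (j + 1) : ℝ) : ℂ)) k
        = -(y : ℂ) * (hat M (fun x => ((ga x j : ℝ) : ℂ)) k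
          - hat M (fun x => ((al x j : ℝ) : ℂ)) k
          - (h ^ 2 * hat M (fun x => ((be x j : ℝ) : ℂ)) k
          + h ^ 2 * hat M (fun x => ((al x j : ℝ) : ℂ)) k)) := by
      rw [← hbs j hj.le, ← has j hj.le, ← hat_sub, ← hat_sub, ← hat_add, ← hat_sub, ← hat_smul]
      apply hat_congr
      intro x hx
      have := (hR x hx j hj).2.2
      exact_mod_cast congrArg (fun r : ℝ => (r : ℂ)) this
    obtain ⟨s1, s2, s3⟩ := step_alg y (cos (th M k / 2)) (sin (th M k / 2)) (K (th M k))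
      (1 - 3 * y) h _ _ _ _ _ hy0.ne' (by linarith) hc hK0 hcs hh rfl hQ r1 r2 r3
    set lam := (1 + y) * (cos (th M k / 2) + sin (th M k / 2) / K (th M k)) / (2 * y) with hlamd
    set nu := ((1 + y) * cos (th M k / 2) - sin (th M k / 2) * (1 - 3 * y) * K (th M k)) / (2 * y)
      with hnud
    rw [hE j hj.le, hE (j + 1) hj, hF j hj.le, hF (j + 1) hj, s1, s2]
    rw [norm_mul, norm_mul, norm_neg, hhn, one_mul, norm_mul, norm_mul, norm_neg, hhn, one_mul,
      Complex.norm_real, Complex.norm_real, Real.norm_eq_abs, Real.norm_eq_abs]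
    constructor
    · exact mul_le_mul_of_nonneg_right hlam (norm_nonneg _)
    · rw [← mul_assoc]
      have h1 : ρ * |nu| ≤ 1 := by
        calc ρ * |nu| ≤ |lam| * |nu| := mul_le_mul_of_nonneg_right hlam (abs_nonneg _)
          _ = |lam * nu| := (abs_mul _ _).symm
          _ = 1 := by rw [s3, abs_one]
      calc _ ≤ 1 * _ := mul_le_mul_of_nonneg_right h1 (norm_nonneg _)
        _ = _ := one_mul _
  have itE : ∀ k < M, ∀ j ≤ n, ρ ^ j * ‖hat M (Ef K M ga be 0) k‖
      ≤ ‖hat M (Ef K M ga be j) k‖ := by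
    intro k hk j
    induction j with
    | zero => intro _; simp
    | succ j ih =>
      intro hj
      have h1 := ih (by omega)
      have h2 := (key k hk j (by omega)).1
      calc ρ ^ (j + 1) * ‖hat M (Ef K M ga be 0) k‖
          = ρ * (ρ ^ j * ‖hat M (Ef K M ga be 0) k‖) := by ring
        _ ≤ ρ * ‖hat M (Ef K M ga be j) k‖ := mul_le_mul_of_nonneg_left h1 hρ0.le
        _ ≤ _ := h2
  have itF : ∀ k < M, ∀ j ≤ n, ρ ^ j * ‖hat M (Ff K M w ga be j) k‖
      ≤ ‖hat M (Ff K M w ga be 0) k‖ := by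
    intro k hk j
    induction j with
    | zero => intro _; simp
    | succ j ih =>
      intro hj
      have h1 := ih (by omega)
      have h2 := (key k hk j (by omega)).2
      calc ρ ^ (j + 1) * ‖hat M (Ff K M w ga be (j + 1)) k‖
          = ρ ^ j * (ρ * ‖hat M (Ff K M w ga be (j + 1)) k‖) := by ring
        _ ≤ ρ ^ j * ‖hat M (Ff K M w ga be j) k‖ :=
            mul_le_mul_of_nonneg_left h2 (by positivity)
        _ ≤ _ := h1
  have hsq : 0 < √(M : ℝ) := Real.sqrt_pos.2 (by exact_mod_cast hM)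
  have gen : ∀ f g : ℕ → ℂ, (∀ k < M, ρ ^ n * ‖hat M f k‖ ≤ ‖hat M g k‖) →
      ρ ^ n * nn M f ≤ nn M g := by
    intro f g hfg
    have h1 : nn M (hat M f) ≤ (ρ ^ n)⁻¹ * nn M (hat M g) := by
      apply nn_mono _ _ _ _ (by positivity)
      intro k hk
      rw [inv_mul_eq_div, le_div_iff₀ (by positivity), mul_comm]
      exact hfg k hk
    rw [nn_hat M hM, nn_hat M hM] at h1
    have h2 : √(M : ℝ) * nn M f ≤ √(M : ℝ) * ((ρ ^ n)⁻¹ * nn M g) := by
      calc _ ≤ _ := h1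
        _ = _ := by ring
    have h3 := le_of_mul_le_mul_left h2 hsq
    rw [inv_mul_eq_div, le_div_iff₀ (by positivity), mul_comm] at h3
    exact h3
  exact ⟨gen _ _ fun k hk => itE k hk n le_rfl, gen _ _ fun k hk => itF k hk n le_rfl⟩

theorem even_card (M : ℕ) (s : ℕ → ℝ) (hs : ∀ x, s x = 1 ∨ s x = -1)
    (hp : ∏ x ∈ Finset.range M, s x = 1) :
    Even ((Finset.range M).filter fun x => s x = -1).card := by
  have h1 : ∏ x ∈ Finset.range M, s x
      = ∏ x ∈ Finset.range M, if s x = -1 then (-1 : ℝ) else 1 := by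
    refine Finset.prod_congr rfl fun x _ => ?_
    split_ifs with h
    · exact h
    · exact (hs x).resolve_right h
  rw [h1, Finset.prod_ite, Finset.prod_const, Finset.prod_const_one, mul_one] at hp
  rwa [neg_one_pow_eq_one_iff_even (by norm_num)] at hp

theorem nn_le_add (M : ℕ) (F f g : ℕ → ℂ) (a b : ℝ) (ha : 0 ≤ a) (hb : 0 ≤ b)
    (h : ∀ x < M, ‖F x‖ ≤ a * ‖f x‖ + b * ‖g x‖) : nn M F ≤ a * nn M f + b * nn M g := by
  have h1 : nn M F ≤ 1 * nn M (fun x => ((a * ‖f x‖ : ℝ) : ℂ) + ((b * ‖g x‖ : ℝ) : ℂ)) := by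
    apply nn_mono _ _ _ _ zero_le_one
    intro x hx
    rw [one_mul, ← Complex.ofReal_add, Complex.norm_real, Real.norm_eq_abs]
    exact (h x hx).trans (le_abs_self _)
  have h2 := nn_add M (fun x => ((a * ‖f x‖ : ℝ) : ℂ)) (fun x => ((b * ‖g x‖ : ℝ) : ℂ))
  have h3 : nn M (fun x => ((a * ‖f x‖ : ℝ) : ℂ)) ≤ a * nn M f := by
    apply nn_mono _ _ _ _ ha
    intro x _
    rw [Complex.norm_real, Real.norm_eq_abs, abs_of_nonneg (by positivity)]
  have h4 : nn M (fun x => ((b * ‖g x‖ : ℝ) : ℂ)) ≤ b * nn M g := by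
    apply nn_mono _ _ _ _ hb
    intro x _
    rw [Complex.norm_real, Real.norm_eq_abs, abs_of_nonneg (by positivity)]
  linarith

theorem op_add (K : ℝ → ℝ) (M : ℕ) (f g : ℕ → ℂ) (x : ℕ) :
    op K M (fun x => f x + g x) x = op K M f x + op K M g x := by
  unfold op
  rw [← Finset.sum_add_distrib]
  exact Finset.sum_congr rfl fun x _ => by ring

theorem final_ineq (R κ γ w T En E0 F0 U0 D0 Un Dn a r : ℝ) (hκ0 : 0 ≤ κ)
    (hT : 0 ≤ T) (hE0 : 0 ≤ E0) (hU0 : 0 ≤ U0)
    (hD0 : 0 ≤ D0) (hDn : 0 ≤ Dn) (ha : 0 ≤ a) (hR : 1 ≤ R)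
    (hκ : κ ≤ R) (hγ : γ ≤ R) (hγw : γ * (1 / w) ≤ R) (hw : w ≤ 1)
    (h1 : Dn ≤ γ * ((1 / w) * T)) (h2 : Un ≤ T + w * κ * Dn) (h3 : En ≤ Dn + κ * Un)
    (h4 : F0 ≤ U0 + w * κ * D0) (h5 : r * T ≤ F0) (h6 : r * E0 ≤ En)
    (h7 : U0 ≤ γ * (a + E0 + κ * a) + a) (h8 : D0 ≤ E0 + κ * U0) (h9 : 36 * R ^ 7 ≤ r) :
    U0 + D0 ≤ 9 * R ^ 3 * a := by
  have hR0 : 0 ≤ R := by linarith
  have hR2 : 1 ≤ R ^ 2 := one_le_pow₀ hR
  have hR7 : 1 ≤ R ^ 7 := one_le_pow₀ hR
  have hr1 : 1 ≤ r := by linarith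
  have hwκ : w * κ ≤ R := by nlinarith
  have d1 : Dn ≤ R * T := by
    calc Dn ≤ γ * (1 / w) * T := by linarith
      _ ≤ R * T := mul_le_mul_of_nonneg_right hγw hT
  have d2 : Un ≤ 2 * R ^ 2 * T := by
    have e1 : w * κ * Dn ≤ R * (R * T) := mul_le_mul hwκ d1 hDn hR0
    have e2 : T ≤ R ^ 2 * T := le_mul_of_one_le_left hT hR2
    nlinarith
  have d3 : En ≤ 3 * R ^ 3 * T := by
    have e1 : κ * Un ≤ R * (2 * R ^ 2 * T) := by
      by_cases hUn : 0 ≤ Un
      · exact mul_le_mul hκ d2 hUn hR0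
      · push Not at hUn
        have : κ * Un ≤ 0 := mul_nonpos_of_nonneg_of_nonpos hκ0 hUn.le
        have : 0 ≤ R * (2 * R ^ 2 * T) := by positivity
        linarith
    have e2 : R * T ≤ R ^ 3 * T := by
      apply mul_le_mul_of_nonneg_right _ hT
      calc R = R * 1 := by ring
        _ ≤ R * R ^ 2 := mul_le_mul_of_nonneg_left hR2 hR0
        _ = R ^ 3 := by ring
    nlinarith
  have d7 : U0 ≤ 3 * R ^ 2 * a + R * E0 := by
    have e1 : γ * (a + E0 + κ * a) ≤ R * (R * a + E0 + R * a) := by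
      have e3 : a + E0 + κ * a ≤ R * a + E0 + R * a := by nlinarith
      have e4 : 0 ≤ a + E0 + κ * a := by positivity
      exact mul_le_mul hγ e3 e4 hR0
    have e2 : a ≤ R ^ 2 * a := le_mul_of_one_le_left ha hR2
    nlinarith
  have d8 : D0 ≤ E0 + R * U0 := by
    have := mul_le_mul_of_nonneg_right hκ hU0
    linarith
  have d4 : F0 ≤ 6 * R ^ 4 * a + 3 * R ^ 3 * E0 := by
    have e1 : w * κ * D0 ≤ R * (E0 + R * U0) := mul_le_mul hwκ d8 hD0 hR0
    have e2 : U0 ≤ R ^ 2 * U0 := le_mul_of_one_le_left hU0 hR2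
    have e3 : 2 * R ^ 2 * U0 ≤ 2 * R ^ 2 * (3 * R ^ 2 * a + R * E0) :=
      mul_le_mul_of_nonneg_left d7 (by positivity)
    have e4 : R * E0 ≤ R ^ 3 * E0 := by
      apply mul_le_mul_of_nonneg_right _ hE0
      calc R = R * 1 := by ring
        _ ≤ R * R ^ 2 := mul_le_mul_of_nonneg_left hR2 hR0
        _ = R ^ 3 := by ring
    nlinarith
  have d5 : r * (r * E0) ≤ 18 * R ^ 7 * a + 9 * R ^ 7 * E0 := by
    calc r * (r * E0) ≤ r * En := mul_le_mul_of_nonneg_left h6 (by linarith)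
      _ ≤ r * (3 * R ^ 3 * T) := mul_le_mul_of_nonneg_left d3 (by linarith)
      _ = 3 * R ^ 3 * (r * T) := by ring
      _ ≤ 3 * R ^ 3 * F0 := mul_le_mul_of_nonneg_left h5 (by positivity)
      _ ≤ 3 * R ^ 3 * (6 * R ^ 4 * a + 3 * R ^ 3 * E0) :=
          mul_le_mul_of_nonneg_left d4 (by positivity)
      _ = 18 * R ^ 7 * a + 9 * (R ^ 6 * E0) := by ring
      _ ≤ 18 * R ^ 7 * a + 9 * (R ^ 7 * E0) := by
          have : R ^ 6 * E0 ≤ R ^ 7 * E0 :=
            mul_le_mul_of_nonneg_right (pow_le_pow_right₀ hR (by norm_num)) hE0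
          linarith
      _ = _ := by ring
  have d6 : 36 * R ^ 7 * E0 ≤ r * (r * E0) := by
    calc 36 * R ^ 7 * E0 ≤ r * E0 := mul_le_mul_of_nonneg_right h9 hE0
      _ ≤ r * (r * E0) := le_mul_of_one_le_left (by positivity) hr1
  have d9 : E0 ≤ a := by
    have e1 : R ^ 7 * (27 * E0) ≤ R ^ 7 * (18 * a) := by linarith
    have e2 := le_of_mul_le_mul_left e1 (by positivity)
    linarith
  have d10 : U0 ≤ 4 * R ^ 2 * a := by
    have e1 : R * E0 ≤ R ^ 2 * a := by
      calc R * E0 ≤ R * a := mul_le_mul_of_nonneg_left d9 hR0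
        _ ≤ R * (R * a) := le_mul_of_one_le_left (by positivity) hR
        _ = R ^ 2 * a := by ring
    linarith
  have d11 : R * U0 ≤ 4 * R ^ 3 * a := by
    calc R * U0 ≤ R * (4 * R ^ 2 * a) := mul_le_mul_of_nonneg_left d10 hR0
      _ = _ := by ring
  have d12 : U0 ≤ R * U0 := le_mul_of_one_le_left hU0 hR
  have d13 : a ≤ R ^ 3 * a := le_mul_of_one_le_left ha (one_le_pow₀ hR)
  linarith

theorem cyl_bound (y : ℝ) (hy0 : 0 < y) (hy1 : y < 1 / 3) :
    ∃ (C : ℝ) (K : ℕ) (ρ : ℝ), 0 < C ∧ 1 < ρ ∧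
      ∀ M n : ℕ, Even M → 2 ≤ M → 1 ≤ n → C * (M : ℝ) ^ K ≤ ρ ^ n →
      ∀ (al be ga : ℕ → ℕ → ℝ) (s t : ℕ → ℝ) (a : ℝ),
        (∀ x, s x = 1 ∨ s x = -1) → (∀ x, t x = 1 ∨ t x = -1) →
        ∏ x ∈ Finset.range M, s x = 1 → ∏ x ∈ Finset.range M, t x = 1 →
        (∀ x < M, ∀ j < n,
          ga x j + al x j = - y * ((be (x + 1) j + al (x + 1) j)
            + (ga x (j + 1) + be x (j + 1))) ∧
          be (x + 1) j - al (x + 1) j = - y * ((ga x j - al x j)
            + (ga x (j + 1) + be x (j + 1))) ∧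
          ga x (j + 1) - be x (j + 1) = - y * ((ga x j - al x j)
            - (be (x + 1) j + al (x + 1) j))) →
        (∀ j ≤ n, be M j = - be 0 j) → (∀ j ≤ n, al M j = - al 0 j) →
        (∀ x < M, ga x 0 = - s x * be (x + 1) 0 + (if x = 0 then a else 0)) →
        (∀ x < M, ga x n = t x * be (x + 1) n) →
        ∀ x < M, |ga x 0| ≤ C * (M : ℝ) ^ K * |a| := by
  obtain ⟨K, c, CK, ρ, hc, hCK, hρ, hodd, hmono, hbound, hK⟩ := kfun_exists y hy0 hy1
  have hpi := Real.pi_pos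
  obtain ⟨w, hw⟩ : ∃ w : ℝ, w = (1 - 3 * y) / (1 + y) := ⟨_, rfl⟩
  have hw0 : 0 < w := by rw [hw]; apply div_pos <;> linarith
  have hw1 : w ≤ 1 := by rw [hw, div_le_one (by linarith)]; linarith
  obtain ⟨Λ, hΛ⟩ : ∃ Λ : ℝ, Λ = 1 + CK / π + 1 / (c * π) + 1 / (c * π) * (1 / w) := ⟨_, rfl⟩
  have p1 : 0 < CK / π := by positivity
  have p2 : 0 < 1 / (c * π) := by positivity
  have p3 : 0 < 1 / (c * π) * (1 / w) := by positivity
  have hΛ1 : 1 ≤ Λ := by rw [hΛ]; linarith
  refine ⟨36 * Λ ^ 7, 7, ρ, by positivity, hρ, ?_⟩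
  intro M n hMe hM hn hbig al be ga s t a hs ht hps hpt hR hb ha hbot htop x0 hx0
  have hM1 : (1 : ℝ) ≤ M := by exact_mod_cast (by omega : 1 ≤ M)
  have hMpos : 0 < M := by omega
  set R : ℝ := Λ * M with hRdef
  have hR1 : 1 ≤ R := by rw [hRdef]; nlinarith
  set κ : ℝ := CK / π * M with hκdef
  set γ : ℝ := M / (c * π) with hγdef
  have hκ0 : 0 ≤ κ := by positivity
  have hγ0 : 0 ≤ γ := by positivity
  have hκR : κ ≤ R := by
    apply mul_le_mul_of_nonneg_right _ (by linarith)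
    rw [hΛ]; linarith
  have hγR : γ ≤ R := by
    have : γ = 1 / (c * π) * M := by rw [hγdef]; ring
    rw [this]
    apply mul_le_mul_of_nonneg_right _ (by linarith)
    rw [hΛ]; linarith
  have hγwR : γ * (1 / w) ≤ R := by
    have : γ * (1 / w) = 1 / (c * π) * (1 / w) * M := by rw [hγdef]; ring
    rw [this]
    apply mul_le_mul_of_nonneg_right _ (by linarith)
    rw [hΛ]; linarith
  have hKk : ∀ k < M, |K (th M k)| ≤ κ := by
    intro k hk
    have h1 := hbound (th M k) (th_pos M k hMpos) (th_lt M k hk)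
    have h2 := min_th M k hk
    have h3 : |K (th M k)| * (π / M) ≤ CK :=
      (mul_le_mul_of_nonneg_left h2 (abs_nonneg _)).trans h1
    have h4 : 0 < π / (M : ℝ) := by positivity
    rw [← le_div_iff₀ h4] at h3
    refine h3.trans (le_of_eq ?_)
    rw [hκdef]
    field_simp
  obtain ⟨g5, g6⟩ := rows y hy0 K ρ hρ hK M n hMe hMpos al be ga hR hb ha
  rw [← hw] at g6
  -- top
  have hA'e := even_card M t ht hpt
  have h1 : nn M (Df ga be n) ≤ γ * ((1 / w) * nn M (Ff K M w ga be n)) := by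
    have e1 := gapN K c hc hodd hmono M hM hMe _ (Finset.filter_subset _ _) hA'e (Df ga be n)
      (fun x => (Complex.I / (w : ℂ)) * Ff K M w ga be n x) (by
        intro x hx hxA
        have hne : t x ≠ -1 := by
          intro h
          exact hxA (Finset.mem_filter.2 ⟨Finset.mem_range.2 hx, h⟩)
        have h1 := (ht x).resolve_right hne
        have h2 := htop x hx
        unfold Df
        rw [h2, h1, one_mul, sub_self]) (by
        intro x hxA
        have hx := Finset.mem_range.1 (Finset.mem_filter.1 hxA).1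
        have h1 := (Finset.mem_filter.1 hxA).2
        have h2 := htop x hx
        have h3 : Uf ga be n x = 0 := by
          unfold Uf
          rw [h2, h1]
          push_cast
          ring
        have hwC : (w : ℂ) ≠ 0 := by exact_mod_cast hw0.ne'
        show op K M (Df ga be n) x = Complex.I / (w : ℂ) *
          (Uf ga be n x - Complex.I * (w : ℂ) * op K M (Df ga be n) x)
        rw [h3]
        field_simp
        linear_combination ((w : ℂ) * op K M (Df ga be n) x) * Complex.I_sq)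
    refine e1.trans (mul_le_mul_of_nonneg_left ?_ hγ0)
    apply nn_mono _ _ _ _ (by positivity)
    intro x _
    rw [norm_mul, norm_div, Complex.norm_I, Complex.norm_real, Real.norm_eq_abs,
      abs_of_pos hw0]
  have h2 : nn M (Uf ga be n) ≤ nn M (Ff K M w ga be n) + w * κ * nn M (Df ga be n) := by
    have e1 := nn_le_add M (Uf ga be n) (Ff K M w ga be n) (op K M (Df ga be n)) 1 w
      zero_le_one hw0.le (by
        intro x _
        have e2 : Uf ga be n x = Ff K M w ga be n x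
            + Complex.I * (w : ℂ) * op K M (Df ga be n) x := by
          unfold Ff; ring
        rw [e2]
        refine (norm_add_le _ _).trans (le_of_eq ?_)
        rw [norm_mul, norm_mul, Complex.norm_I, Complex.norm_real, Real.norm_eq_abs,
          abs_of_pos hw0, one_mul, one_mul])
    have e3 := nn_op K M hMpos κ hκ0 hKk (Df ga be n)
    have e4 := mul_le_mul_of_nonneg_left e3 hw0.le
    linarith
  have h3 : nn M (Ef K M ga be n) ≤ nn M (Df ga be n) + κ * nn M (Uf ga be n) := by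
    have e1 := nn_le_add M (Ef K M ga be n) (Df ga be n) (op K M (Uf ga be n)) 1 1
      zero_le_one zero_le_one (by
        intro x _
        unfold Ef
        refine (norm_sub_le _ _).trans (le_of_eq ?_)
        rw [norm_mul, Complex.norm_I, one_mul, one_mul])
    have e3 := nn_op K M hMpos κ hκ0 hKk (Uf ga be n)
    linarith
  have h4 : nn M (Ff K M w ga be 0) ≤ nn M (Uf ga be 0) + w * κ * nn M (Df ga be 0) := by
    have e1 := nn_le_add M (Ff K M w ga be 0) (Uf ga be 0) (op K M (Df ga be 0)) 1 w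
      zero_le_one hw0.le (by
        intro x _
        unfold Ff
        refine (norm_sub_le _ _).trans (le_of_eq ?_)
        rw [norm_mul, norm_mul, Complex.norm_I, Complex.norm_real, Real.norm_eq_abs,
          abs_of_pos hw0, one_mul, one_mul])
    have e3 := nn_op K M hMpos κ hκ0 hKk (Df ga be 0)
    have e4 := mul_le_mul_of_nonneg_left e3 hw0.le
    linarith
  have h8 : nn M (Df ga be 0) ≤ nn M (Ef K M ga be 0) + κ * nn M (Uf ga be 0) := by
    have e1 := nn_le_add M (Df ga be 0) (Ef K M ga be 0) (op K M (Uf ga be 0)) 1 1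
      zero_le_one zero_le_one (by
        intro x _
        have e2 : Df ga be 0 x = Ef K M ga be 0 x + Complex.I * op K M (Uf ga be 0) x := by
          unfold Ef; ring
        rw [e2]
        refine (norm_add_le _ _).trans (le_of_eq ?_)
        rw [norm_mul, Complex.norm_I]
        ring)
    have e3 := nn_op K M hMpos κ hκ0 hKk (Uf ga be 0)
    linarith
  -- bottom
  have hAe := even_card M s hs hps
  set src : ℕ → ℂ := fun x => ((if x = 0 then a else 0 : ℝ) : ℂ) with hsrc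
  have hsrcn : nn M src ≤ |a| := by
    unfold nn
    rw [Finset.sum_eq_single 0]
    · simp only [hsrc, if_true, Complex.norm_real, Real.norm_eq_abs]
      rw [Real.sqrt_sq (abs_nonneg _)]
    · intro x _ hx
      simp [hsrc, hx]
    · intro h
      exact absurd (Finset.mem_range.2 hMpos) h
  set UA : ℕ → ℂ := fun x => if s x = -1 then Uf ga be 0 x else 0 with hUA
  set SO : ℕ → ℂ := fun x => if s x = -1 then 0 else Uf ga be 0 x with hSO
  have hsplit : ∀ x, Uf ga be 0 x = UA x + SO x := by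
    intro x
    simp only [hUA, hSO]
    split_ifs <;> simp
  have hSOn : nn M SO ≤ |a| := by
    have e1 : nn M SO ≤ 1 * nn M src := by
      apply nn_mono _ _ _ _ zero_le_one
      intro x hx
      rw [one_mul]
      simp only [hSO]
      split_ifs with h
      · simp
      · have h1 := (hs x).resolve_right h
        have h2 := hbot x hx
        have h3 : Uf ga be 0 x = src x := by
          have h4 : ga x 0 + be (x + 1) 0 = if x = 0 then a else 0 := by rw [h2, h1]; ring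
          unfold Uf
          rw [← Complex.ofReal_add, h4]
        rw [h3]
    linarith
  have hopU : ∀ x, op K M (Uf ga be 0) x = op K M UA x + op K M SO x := by
    intro x
    rw [← op_add]
    congr 1
    funext x
    exact hsplit x
  have h7a : nn M UA ≤ γ * nn M (fun x => -Complex.I * (src x - Ef K M ga be 0 x)
      - op K M SO x) := by
    apply gapN K c hc hodd hmono M hM hMe _ (Finset.filter_subset _ _) hAe
    · intro x hx hxA
      have hne : s x ≠ -1 := by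
        intro h
        exact hxA (Finset.mem_filter.2 ⟨Finset.mem_range.2 hx, h⟩)
      simp only [hUA, if_neg hne]
    · intro x hxA
      have hx := Finset.mem_range.1 (Finset.mem_filter.1 hxA).1
      have h1 := (Finset.mem_filter.1 hxA).2
      have h2 := hbot x hx
      have h3 : Df ga be 0 x = src x := by
        have h4 : ga x 0 - be (x + 1) 0 = if x = 0 then a else 0 := by rw [h2, h1]; ring
        unfold Df
        rw [← Complex.ofReal_sub, h4]
      have h4 : Ef K M ga be 0 x = src x - Complex.I * (op K M UA x + op K M SO x) := by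
        unfold Ef
        rw [h3, hopU]
      rw [h4]
      linear_combination (op K M UA x + op K M SO x) * Complex.I_sq
  have h7b : nn M (fun x => -Complex.I * (src x - Ef K M ga be 0 x) - op K M SO x)
      ≤ |a| + nn M (Ef K M ga be 0) + κ * |a| := by
    have e1 := nn_le_add M (fun x => -Complex.I * (src x - Ef K M ga be 0 x) - op K M SO x)
      (fun x => src x - Ef K M ga be 0 x) (op K M SO) 1 1 zero_le_one zero_le_one (by
        intro x _
        refine (norm_sub_le _ _).trans (le_of_eq ?_)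
        rw [norm_mul, norm_neg, Complex.norm_I]
        ring)
    have e2 := nn_le_add M (fun x => src x - Ef K M ga be 0 x) src (Ef K M ga be 0) 1 1
      zero_le_one zero_le_one (by
        intro x _
        rw [one_mul, one_mul]
        exact norm_sub_le _ _)
    have e3 := nn_op K M hMpos κ hκ0 hKk SO
    have e4 := mul_le_mul_of_nonneg_left hSOn hκ0
    linarith
  have h7 : nn M (Uf ga be 0) ≤ γ * (|a| + nn M (Ef K M ga be 0) + κ * |a|) + |a| := by
    have e1 := nn_le_add M (Uf ga be 0) UA SO 1 1 zero_le_one zero_le_one (by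
      intro x _
      rw [one_mul, one_mul, hsplit x]
      exact norm_add_le _ _)
    have e2 := h7a.trans (mul_le_mul_of_nonneg_left h7b hγ0)
    linarith
  have h9 : 36 * R ^ 7 ≤ ρ ^ n := by
    calc 36 * R ^ 7 = 36 * Λ ^ 7 * (M : ℝ) ^ 7 := by rw [hRdef]; ring
      _ ≤ _ := hbig
  have hfin := final_ineq R κ γ w _ _ _ _ _ _ _ _ |a| (ρ ^ n) hκ0
    (nn_nonneg _ _) (nn_nonneg _ _) (nn_nonneg _ _) (nn_nonneg _ _) (nn_nonneg _ _)
    (abs_nonneg _) hR1 hκR hγR hγwR hw1 h1 h2 h3 h4 g6 g5 h7 h8 h9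
  have f1 := norm_le_nn M (Uf ga be 0) x0 hx0
  have f2 := norm_le_nn M (Df ga be 0) x0 hx0
  have f3 : ((ga x0 0 : ℝ) : ℂ) = (1 / 2) * (Uf ga be 0 x0 + Df ga be 0 x0) := by
    unfold Uf Df; ring
  have f4 : |ga x0 0| ≤ 1 / 2 * (nn M (Uf ga be 0) + nn M (Df ga be 0)) := by
    rw [← Real.norm_eq_abs, ← Complex.norm_real, f3, norm_mul]
    have : ‖(1 / 2 : ℂ)‖ = 1 / 2 := by norm_num
    rw [this]
    apply mul_le_mul_of_nonneg_left _ (by norm_num)
    exact (norm_add_le _ _).trans (by linarith)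
  have f5 : R ^ 3 * |a| ≤ R ^ 7 * |a| :=
    mul_le_mul_of_nonneg_right (pow_le_pow_right₀ hR1 (by norm_num)) (abs_nonneg _)
  have f6 : 36 * Λ ^ 7 * (M : ℝ) ^ 7 * |a| = 36 * (R ^ 7 * |a|) := by rw [hRdef]; ring
  rw [f6]
  have f7 : 0 ≤ R ^ 7 * |a| := by positivity
  linarith

end Pool.Agent.AFIsing
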