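import Pool.Agent.AFIsing.Cylinder
import Pool.Agent.AFIsing.Linear

/-!
Boundary relations on the cylinder and the bound for the flip of an arc of the bottom row.
-/
open Real

namespace Pool.Agent.AFIsing

section cyl

variable {M : ℕ} [NeZero M] (J : ℝ) (n : ℕ) (ζ X : ZMod M → Bool)

lemma En_cut_zero (x : ZMod M) (σ : ZMod M × ℤ → Bool) :
    En (TT M n) (flip (cut x 0) nof) σ = En (TT M n) nof σ := by
  unfold En
  apply Finset.sum_congr rfl
  intro t ht
  rw [mem_TT] at ht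
  have h : ¬ t.2 < 0 := by omega
  simp [flip, cut, nof, h]

lemma Zd_fg_zero (x : ℕ) (ξ : ZMod M × ℤ → Bool) :
    Zd J (TT M n) (LL M n) ξ (fg x 0) = Zd J (TT M n) (LL M n) ξ nof := by
  unfold Zd fg
  simp only [En_cut_zero]

lemma not_mem_LL_zero (c : ZMod M) : (c, (0 : ℤ)) ∉ LL M n := by
  rw [mem_LL]; simp

lemma not_mem_LL_top (c : ZMod M) : (c, (n : ℤ)) ∉ LL M n := by
  rw [mem_LL]; simp

/-- value of the bottom arrays -/
lemma GG_bottom (c : ZMod M) (x : ℕ) :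
    GG J n ζ X (c, 0) x 0 = sp (xor (fl M x c) (ζ c)) * PP J n ζ X x := by
  unfold GG PP
  rw [Fd_fixed _ _ _ _ _ _ (not_mem_LL_zero n c), Fd_fixed _ _ _ _ _ _ (not_mem_LL_zero n c),
    Zd_fg_zero, Zd_fg_zero]
  simp only [bc, le_refl, if_true]
  ring

lemma ga_bottom (x : ℕ) :
    ga J n ζ X x 0 = sp (fl M x x) * sp (ζ x) * PP J n ζ X x := by
  unfold ga
  have := GG_bottom J n ζ X (x : ZMod M) (x + M)
  rw [fl_add, PP_add, sp_xor, sp_not] at this
  simp only [Nat.cast_zero]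
  rw [this]; ring

lemma be_bottom (x : ℕ) :
    be J n ζ X (x + 1) 0
      = sp (fl M x ((x + 1 : ℕ) : ZMod M)) * sp (ζ ((x + 1 : ℕ) : ZMod M)) * PP J n ζ X x := by
  unfold be
  have := GG_bottom J n ζ X ((x + 1 : ℕ) : ZMod M) (x + M)
  rw [fl_add, PP_add, sp_xor, sp_not] at this
  have e : x + 1 + M - 1 = x + M := by omega
  rw [e]
  simp only [Nat.cast_zero]
  rw [this]; ring

lemma bottom_rel (x : ℕ) (hx : x < M) :
    ga J n ζ X x 0 = - bs ζ x * be J n ζ X (x + 1) 0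
      + (if x = 0 then 2 * ga J n ζ X 0 0 else 0) := by
  have hf1 : fl M x ((x + 1 : ℕ) : ZMod M) = false := by
    rw [fl_eq hx.le (by omega) (by omega)]; simp
  have hb := be_bottom J n ζ X x
  rw [hf1, sp_false, one_mul] at hb
  have hz := sp_sq (ζ ((x + 1 : ℕ) : ZMod M))
  by_cases h0 : x = 0
  · subst h0
    have hg := ga_bottom J n ζ X 0
    have : fl M 0 ((0 : ℕ) : ZMod M) = false := rfl
    rw [this, sp_false, one_mul] at hg
    rw [hb, if_pos rfl, hg]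
    unfold bs
    linear_combination (sp (ζ ((0 : ℕ) : ZMod M)) * PP J n ζ X 0) * hz
  · have hg := ga_bottom J n ζ X x
    have : fl M x (x : ZMod M) = true := by
      rw [fl_eq hx.le (by omega) hx.le]; simp
    rw [this, sp_true] at hg
    rw [hb, if_neg h0, hg]
    unfold bs
    linear_combination (sp (ζ (x : ZMod M)) * PP J n ζ X x) * hz

lemma top_rel (hn : 1 ≤ n) (x : ℕ) :
    ga J n ζ X x n = bs X x * be J n ζ X (x + 1) n := by
  unfold ga be GG
  have e : x + 1 + M - 1 = x + M := by omega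
  rw [e]
  rw [Fd_fixed _ _ _ _ _ _ (not_mem_LL_top n _), Fd_fixed _ _ _ _ _ _ (not_mem_LL_top n _),
    Fd_fixed _ _ _ _ _ _ (not_mem_LL_top n _), Fd_fixed _ _ _ _ _ _ (not_mem_LL_top n _)]
  have h : ¬ ((n : ℤ) ≤ 0) := by omega
  simp only [bc, h, if_false, sp_not]
  unfold bs
  have hz := sp_sq (X ((x + 1 : ℕ) : ZMod M))
  set W1 := Zd J (TT M n) (LL M n) (bc ζ X (x + M)) (fg (x + M) ↑n)
  set W2 := Zd J (TT M n) (LL M n) (bc ζ (fun c => !(X c)) (x + M)) (fg (x + M) ↑n)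
  linear_combination (sp (X (x : ZMod M)) * (W1 - W2)) * hz

lemma abs_ga_bottom (x : ℕ) : |ga J n ζ X x 0| = PP J n ζ X x := by
  rw [ga_bottom, abs_mul, abs_mul, abs_sp, abs_sp, one_mul, one_mul,
    abs_of_pos (PP_pos J n ζ X x)]

end cyl

/-- Flipping an arc of the bottom row of a long enough cylinder costs at most a polynomial
factor, for all boundary conditions at the bottom and (up to a global sign) at the top. -/
theorem cyl_flip (J : ℝ) (hJ : J < 0) :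
    ∃ (C : ℝ) (K : ℕ) (ρ : ℝ), 0 < C ∧ 1 < ρ ∧
      ∀ (M : ℕ) [NeZero M] (n : ℕ), Even M → 2 ≤ M → 1 ≤ n → C * (M : ℝ) ^ K ≤ ρ ^ n →
      ∀ (ζ X : ZMod M → Bool), ∀ x < M, PP J n ζ X x ≤ C * (M : ℝ) ^ K * PP J n ζ X 0 := by
  obtain ⟨C, K, ρ, hC, hρ, h⟩ := cyl_bound (yy J) (yy_pos hJ) (yy_lt J)
  refine ⟨2 * C, K, ρ, by positivity, hρ, ?_⟩
  intro M _ n hMe hM hn hCM ζ X x hx
  have hCM' : C * (M : ℝ) ^ K ≤ ρ ^ n := by
    refine le_trans ?_ hCM
    have : 0 ≤ C * (M : ℝ) ^ K := by positivity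
    nlinarith
  have key := h M n hMe hM hn hCM' (al J n ζ X) (be J n ζ X) (ga J n ζ X) (bs ζ) (bs X)
    (2 * ga J n ζ X 0 0) (bs_cases ζ) (bs_cases X) (prod_bs ζ) (prod_bs X)
    (fun x _ j hj => rels J n ζ X hM x j hj)
    (fun j _ => be_antiper J n ζ X j) (fun j _ => al_antiper J n ζ X j)
    (fun x hx => bottom_rel J n ζ X x hx) (fun x _ => top_rel J n ζ X hn x) x hx
  rw [abs_ga_bottom, abs_mul, abs_ga_bottom, abs_of_pos (by norm_num : (0 : ℝ) < 2)] at key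
  linarith

end Pool.Agent.AFIsing
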