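import Pool.Agent.AFIsing.Lattice

/-!
The cylinder: `M` columns, rows `0..n`, bottom row fixed, top row fixed up to a global sign.
-/
open Real

namespace Pool.Agent.AFIsing

section cyl

variable {M : ℕ} [NeZero M]

/-- flips of the bottom row at the sites `1..x` (with multiplicity) -/
def fl (M : ℕ) : ℕ → ZMod M → Bool
  | 0, _ => false
  | (x + 1), c => xor (decide (c = ((x + 1 : ℕ) : ZMod M))) (fl M x c)

lemma cast_eq_iff {k l : ℕ} (hk1 : 1 ≤ k) (hk : k ≤ M) (hl1 : 1 ≤ l) (hl : l ≤ M) :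
    ((k : ZMod M) = (l : ZMod M)) ↔ k = l := by
  constructor
  · intro h
    rw [ZMod.natCast_eq_natCast_iff] at h
    rcases lt_trichotomy k l with h1 | h1 | h1
    · exfalso
      have h2 := (Nat.modEq_iff_dvd' h1.le).mp h
      have := Nat.le_of_dvd (by omega) h2
      omega
    · exact h1
    · exfalso
      have h2 := (Nat.modEq_iff_dvd' h1.le).mp h.symm
      have := Nat.le_of_dvd (by omega) h2
      omega
  · rintro rfl; rfl

lemma fl_eq {x k : ℕ} (hx : x ≤ M) (hk1 : 1 ≤ k) (hk : k ≤ M) :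
    fl M x (k : ZMod M) = decide (k ≤ x) := by
  induction x with
  | zero => simp [fl]; omega
  | succ x ih =>
    rw [fl, ih (by omega)]
    have : (((k : ℕ) : ZMod M) = ((x + 1 : ℕ) : ZMod M)) ↔ k = x + 1 :=
      cast_eq_iff hk1 hk (by omega) hx
    by_cases h : k = x + 1
    · subst h
      simp
    · have h' : ¬ (((k : ℕ) : ZMod M) = ((x + 1 : ℕ) : ZMod M)) := fun h2 => h (this.mp h2)
      simp only [h', decide_false, Bool.false_bne, decide_eq_decide, Bool.false_xor]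
      omega

lemma exists_rep (c : ZMod M) : ∃ k : ℕ, 1 ≤ k ∧ k ≤ M ∧ (k : ZMod M) = c := by
  have hM : 0 < M := Nat.pos_of_ne_zero (NeZero.ne M)
  by_cases h : c.val = 0
  · refine ⟨M, hM, le_refl _, ?_⟩
    rw [ZMod.natCast_self]
    rw [← ZMod.natCast_zmod_val c, h]; simp
  · refine ⟨c.val, by omega, (ZMod.val_lt c).le, ZMod.natCast_zmod_val c⟩

lemma fl_add (x : ℕ) (c : ZMod M) : fl M (x + M) c = !(fl M x c) := by
  induction x with
  | zero =>
    obtain ⟨k, hk1, hk, rfl⟩ := exists_rep c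
    rw [Nat.zero_add, fl_eq (le_refl M) hk1 hk]
    simp [fl, hk]
  | succ x ih =>
    rw [show x + 1 + M = (x + M) + 1 by ring, fl, ih, fl]
    have : (((x + M + 1 : ℕ)) : ZMod M) = ((x + 1 : ℕ) : ZMod M) := by
      push_cast; simp
    rw [this]
    cases decide (c = ((x + 1 : ℕ) : ZMod M)) <;> cases fl M x c <;> rfl

/-- boundary condition -/
def bc (ζ X : ZMod M → Bool) (x : ℕ) : ZMod M × ℤ → Bool :=
  fun v => if v.2 ≤ 0 then xor (fl M x v.1) (ζ v.1) else X v.1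

variable (J : ℝ) (n : ℕ) (ζ X : ZMod M → Bool)

/-- triangles -/
noncomputable def TT (M n : ℕ) [NeZero M] : Finset (ZMod M × ℤ) := Finset.univ ×ˢ Finset.Ico (0 : ℤ) n
/-- dynamic sites -/
noncomputable def LL (M n : ℕ) [NeZero M] : Finset (ZMod M × ℤ) := Finset.univ ×ˢ Finset.Ioo (0 : ℤ) n

lemma mem_TT (v : ZMod M × ℤ) : v ∈ TT M n ↔ 0 ≤ v.2 ∧ v.2 < n := by
  simp [TT]
lemma mem_LL (v : ZMod M × ℤ) : v ∈ LL M n ↔ 0 < v.2 ∧ v.2 < n := by
  simp [LL]

/-- no background flags -/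
def nof : ZMod M × ℤ → Bool := fun _ => false

/-- flags of the face `(x,m)` -/
def fg (x : ℕ) (m : ℤ) : ZMod M × ℤ → Bool := flip (cut (x : ZMod M) m) nof

/-- disorder sum, summed over the sign of the top row -/
noncomputable def GG (u : ZMod M × ℤ) (x : ℕ) (m : ℤ) : ℝ :=
  Fd J (TT M n) (LL M n) (bc ζ X x) (fg x m) u
    + Fd J (TT M n) (LL M n) (bc ζ (fun c => !(X c)) x) (fg x m) u

/-- partition function, summed over the sign of the top row -/
noncomputable def PP (x : ℕ) : ℝ :=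
  Zd J (TT M n) (LL M n) (bc ζ X x) nof
    + Zd J (TT M n) (LL M n) (bc ζ (fun c => !(X c)) x) nof

lemma PP_pos (x : ℕ) : 0 < PP J n ζ X x := add_pos (Zd_pos _ _ _ _ _) (Zd_pos _ _ _ _ _)

lemma En_globalflip (T : Finset (ZMod M × ℤ)) (φ σ : ZMod M × ℤ → Bool) :
    En T φ (flip (fun _ => true) σ) = En T φ σ := by
  unfold En
  apply Finset.sum_congr rfl
  intro t _
  simp only [flip, sp_xor, sp_true]
  unfold tri; ring

lemma bc_add (x : ℕ) : flip (fun _ => true) (bc ζ X (x + M)) = bc ζ (fun c => !(X c)) x := by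
  funext v
  unfold flip bc
  by_cases h : v.2 ≤ 0
  · simp only [h, if_true, fl_add]
    cases fl M x v.1 <;> cases ζ v.1 <;> rfl
  · simp [h]

lemma fg_add (x : ℕ) (m : ℤ) : (fg (x + M) m : ZMod M × ℤ → Bool) = fg x m := by
  unfold fg
  congr 2
  simp

lemma Fd_add (u : ZMod M × ℤ) (x : ℕ) (φ : ZMod M × ℤ → Bool) :
    Fd J (TT M n) (LL M n) (bc ζ X (x + M)) φ u
      = - Fd J (TT M n) (LL M n) (bc ζ (fun c => !(X c)) x) φ u := by
  unfold Fd
  rw [← bc_add, ← Sm_flip]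
  have : ∀ σ : ZMod M × ℤ → Bool,
      sp (flip (fun _ => true) σ u) * exp (J * En (TT M n) φ (flip (fun _ => true) σ))
        = (-1) * (sp (σ u) * exp (J * En (TT M n) φ σ)) := by
    intro σ
    rw [En_globalflip]
    simp only [flip, sp_xor, sp_true]; ring
  simp only [this]
  rw [Sm_mul]; ring

lemma GG_add (u : ZMod M × ℤ) (x : ℕ) (m : ℤ) :
    GG J n ζ X u (x + M) m = - GG J n ζ X u x m := by
  unfold GG
  rw [fg_add, Fd_add, Fd_add]
  simp only [Bool.not_not]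
  ring

lemma Zd_add (x : ℕ) (φ : ZMod M × ℤ → Bool) :
    Zd J (TT M n) (LL M n) (bc ζ X (x + M)) φ
      = Zd J (TT M n) (LL M n) (bc ζ (fun c => !(X c)) x) φ := by
  unfold Zd
  rw [← bc_add, ← Sm_flip]
  simp only [En_globalflip]

lemma PP_add (x : ℕ) : PP J n ζ X (x + M) = PP J n ζ X x := by
  unfold PP
  rw [Zd_add, Zd_add]
  simp only [Bool.not_not]
  ring

/-- spin at a fixed site -/
lemma Fd_fixed (T Λ : Finset (ZMod M × ℤ)) (ξ φ : ZMod M × ℤ → Bool) (u : ZMod M × ℤ)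
    (hu : u ∉ Λ) : Fd J T Λ ξ φ u = sp (ξ u) * Zd J T Λ ξ φ := by
  unfold Fd Zd
  rw [← Sm_mul]
  apply Sm_congr
  intro σ hσ
  rw [hσ u hu]

/-- the arrays -/
noncomputable def ga (x j : ℕ) : ℝ := - GG J n ζ X ((x : ZMod M), (j : ℤ)) (x + M) j
noncomputable def be (x j : ℕ) : ℝ := - GG J n ζ X ((x : ZMod M), (j : ℤ)) (x + M - 1) j
noncomputable def al (x j : ℕ) : ℝ := - GG J n ζ X ((x : ZMod M), (j : ℤ)) (x + M - 1) (j + 1)

/-- bond signs of a row -/
noncomputable def bs (ζ : ZMod M → Bool) (x : ℕ) : ℝ :=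
  sp (ζ (x : ZMod M)) * sp (ζ ((x + 1 : ℕ) : ZMod M))

lemma bs_cases (ζ : ZMod M → Bool) (x : ℕ) : bs ζ x = 1 ∨ bs ζ x = -1 := by
  unfold bs
  rcases sp_cases (ζ (x : ZMod M)) with h | h <;>
  rcases sp_cases (ζ ((x + 1 : ℕ) : ZMod M)) with h' | h' <;> rw [h, h'] <;> norm_num

lemma prod_bs (ζ : ZMod M → Bool) : ∏ x ∈ Finset.range M, bs ζ x = 1 := by
  unfold bs
  have h1 : ∀ m : ℕ, ∏ x ∈ Finset.range m, (sp (ζ (x : ZMod M)) * sp (ζ ((x + 1 : ℕ) : ZMod M)))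
      = sp (ζ ((0 : ℕ) : ZMod M)) * sp (ζ (m : ZMod M)) := by
    intro m
    induction m with
    | zero => simp [sp_sq]
    | succ m ih =>
      rw [Finset.prod_range_succ, ih]
      have := sp_sq (ζ (m : ZMod M))
      linear_combination (sp (ζ ((0 : ℕ) : ZMod M)) * sp (ζ ((m + 1 : ℕ) : ZMod M))) * this
  rw [h1]
  simp [sp_sq]

lemma be_antiper (j : ℕ) : be J n ζ X M j = - be J n ζ X 0 j := by
  have hM : 0 < M := Nat.pos_of_ne_zero (NeZero.ne M)
  unfold be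
  rw [show M + M - 1 = (M - 1) + M by omega, GG_add]
  simp

lemma al_antiper (j : ℕ) : al J n ζ X M j = - al J n ζ X 0 j := by
  have hM : 0 < M := Nat.pos_of_ne_zero (NeZero.ne M)
  unfold al
  rw [show M + M - 1 = (M - 1) + M by omega, GG_add]
  simp

lemma rels (hM : 2 ≤ M) (x j : ℕ) (hj : j < n) :
    ga J n ζ X x j + al J n ζ X x j = - yy J * ((be J n ζ X (x + 1) j + al J n ζ X (x + 1) j)
      + (ga J n ζ X x (j + 1) + be J n ζ X x (j + 1))) ∧
    be J n ζ X (x + 1) j - al J n ζ X (x + 1) j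
      = - yy J * ((ga J n ζ X x j - al J n ζ X x j)
      + (ga J n ζ X x (j + 1) + be J n ζ X x (j + 1))) ∧
    ga J n ζ X x (j + 1) - be J n ζ X x (j + 1)
      = - yy J * ((ga J n ζ X x j - al J n ζ X x j)
        - (be J n ζ X (x + 1) j + al J n ζ X (x + 1) j)) := by
  haveI : Fact (1 < M) := ⟨hM⟩
  have h1 : (1 : ZMod M) ≠ 0 := one_ne_zero
  have hmem : (((x + M : ℕ) : ZMod M), (j : ℤ)) ∈ TT M n := by
    rw [mem_TT]; constructor <;> simp [hj]
  have hbc : ∀ Y : ZMod M → Bool, ∀ v ∉ LL M n,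
      bc ζ Y (x + M) v = flip (col ((x + M : ℕ) : ZMod M) j) (bc ζ Y (x + M - 1)) v := by
    intro Y v hv
    obtain ⟨q, hq⟩ : ∃ q, x + M = q + 1 := ⟨x + M - 1, by omega⟩
    rw [hq]
    simp only [Nat.add_sub_cancel]
    rw [mem_LL] at hv
    unfold bc flip col
    by_cases h : v.2 ≤ 0
    · have h2 : v.2 ≤ j := by omega
      simp only [h, if_true, fl, h2, and_true, Bool.xor_assoc]
    · have h2 : ¬ v.2 ≤ j := by
        intro h3; apply hv; constructor <;> omega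
      simp [h, h2]
  have key := fun Y => relations J (TT M n) (LL M n) ((x + M : ℕ) : ZMod M) j hmem
    (bc ζ Y (x + M)) (bc ζ Y (x + M - 1)) nof h1 (hbc Y) _ _ _ _ _ _ _
    rfl rfl rfl rfl rfl rfl rfl
  have kX := key X
  have kX' := key (fun c => !(X c))
  have e1 : ((x + M - 1 : ℕ) : ZMod M) = ((x + M : ℕ) : ZMod M) - 1 := by
    rw [eq_sub_iff_add_eq]
    have : x + M - 1 + 1 = x + M := by omega
    rw [← this]; push_cast; simp
  have e2 : ((x + M : ℕ) : ZMod M) = (x : ZMod M) := by simp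
  have e3 : (((x + 1 : ℕ)) : ZMod M) = ((x + M : ℕ) : ZMod M) + 1 := by simp
  have hb : sp ((nof : ZMod M × ℤ → Bool) (((x + M : ℕ) : ZMod M), (j : ℤ))) = 1 := by
    simp [nof]
  rw [hb] at kX kX'
  have e4 : x + 1 + M - 1 = x + M := by omega
  have r1 : ga J n ζ X x j = - (Fd J (TT M n) (LL M n) (bc ζ X (x + M))
      (flip (cut ((x + M : ℕ) : ZMod M) j) nof) (((x + M : ℕ) : ZMod M), (j : ℤ))
      + Fd J (TT M n) (LL M n) (bc ζ (fun c => !(X c)) (x + M))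
      (flip (cut ((x + M : ℕ) : ZMod M) j) nof) (((x + M : ℕ) : ZMod M), (j : ℤ))) := by
    unfold ga GG fg; rw [e2]
  have r2 : al J n ζ X x j = - (Fd J (TT M n) (LL M n) (bc ζ X (x + M - 1))
      (flip (cut (((x + M : ℕ) : ZMod M) - 1) (j + 1)) nof) (((x + M : ℕ) : ZMod M), (j : ℤ))
      + Fd J (TT M n) (LL M n) (bc ζ (fun c => !(X c)) (x + M - 1))
      (flip (cut (((x + M : ℕ) : ZMod M) - 1) (j + 1)) nof)
        (((x + M : ℕ) : ZMod M), (j : ℤ))) := by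
    unfold al GG fg; rw [e1, e2]
  have r3 : be J n ζ X (x + 1) j = - (Fd J (TT M n) (LL M n) (bc ζ X (x + M))
      (flip (cut ((x + M : ℕ) : ZMod M) j) nof) (((x + M : ℕ) : ZMod M) + 1, (j : ℤ))
      + Fd J (TT M n) (LL M n) (bc ζ (fun c => !(X c)) (x + M))
      (flip (cut ((x + M : ℕ) : ZMod M) j) nof) (((x + M : ℕ) : ZMod M) + 1, (j : ℤ))) := by
    unfold be GG fg; rw [e4, e3]
  have r4 : al J n ζ X (x + 1) j = - (Fd J (TT M n) (LL M n) (bc ζ X (x + M))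
      (flip (cut ((x + M : ℕ) : ZMod M) (j + 1)) nof) (((x + M : ℕ) : ZMod M) + 1, (j : ℤ))
      + Fd J (TT M n) (LL M n) (bc ζ (fun c => !(X c)) (x + M))
      (flip (cut ((x + M : ℕ) : ZMod M) (j + 1)) nof)
        (((x + M : ℕ) : ZMod M) + 1, (j : ℤ))) := by
    unfold al GG fg; rw [e4, e3]
  have r5 : ga J n ζ X x (j + 1) = - (Fd J (TT M n) (LL M n) (bc ζ X (x + M))
      (flip (cut ((x + M : ℕ) : ZMod M) (j + 1)) nof) (((x + M : ℕ) : ZMod M), (j : ℤ) + 1)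
      + Fd J (TT M n) (LL M n) (bc ζ (fun c => !(X c)) (x + M))
      (flip (cut ((x + M : ℕ) : ZMod M) (j + 1)) nof)
        (((x + M : ℕ) : ZMod M), (j : ℤ) + 1)) := by
    unfold ga GG fg; rw [e2]; push_cast; rfl
  have r6 : be J n ζ X x (j + 1) = - (Fd J (TT M n) (LL M n) (bc ζ X (x + M - 1))
      (flip (cut (((x + M : ℕ) : ZMod M) - 1) (j + 1)) nof) (((x + M : ℕ) : ZMod M), (j : ℤ) + 1)
      + Fd J (TT M n) (LL M n) (bc ζ (fun c => !(X c)) (x + M - 1))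
      (flip (cut (((x + M : ℕ) : ZMod M) - 1) (j + 1)) nof)
        (((x + M : ℕ) : ZMod M), (j : ℤ) + 1)) := by
    unfold be GG fg; rw [e1, e2]; push_cast; rfl
  rw [r1, r2, r3, r4, r5, r6]
  obtain ⟨a1, a2, a3⟩ := kX
  obtain ⟨b1, b2, b3⟩ := kX'
  refine ⟨?_, ?_, ?_⟩
  · linear_combination (-1) * a1 + (-1) * b1
  · linear_combination (-1) * a2 + (-1) * b2
  · linear_combination (-1) * a3 + (-1) * b3

end cyl

end Pool.Agent.AFIsing
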