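import Pool.Agent.AFIsing.Lattice

/-!
Summation tools: splitting a sum, change of variables, congruence, comparison of energies.
-/
open Real

namespace Pool.Agent.AFIsing

section config

variable {V W : Type*} [DecidableEq V] [DecidableEq W]

lemma glue_glue {A B : Finset V} (hd : Disjoint A B) (τ : A → Bool) (τ' : B → Bool)
    (ξ : V → Bool) :
    glue B τ' (glue A τ ξ) = glue (A ∪ B)
      (fun v => if h : (v : V) ∈ A then τ ⟨v, h⟩ else
        if h' : (v : V) ∈ B then τ' ⟨v, h'⟩ else false) ξ := by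
  funext v
  by_cases hB : v ∈ B
  · have hA : v ∉ A := fun h => (Finset.disjoint_left.mp hd h hB)
    simp [glue, hB, hA]
  · by_cases hA : v ∈ A
    · simp [glue, hB, hA]
    · simp [glue, hB, hA]

/-- splitting a sum over configurations -/
lemma Sm_split (A B : Finset V) (hd : Disjoint A B) (ξ : V → Bool) (f : (V → Bool) → ℝ) :
    Sm (A ∪ B) ξ f = Sm A ξ (fun σ => Sm B σ f) := by
  unfold Sm
  rw [← Finset.sum_product']
  symm
  refine Finset.sum_bij' (fun p _ => fun v : (A ∪ B : Finset V) =>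
      if h : (v : V) ∈ A then p.1 ⟨v, h⟩ else
        if h' : (v : V) ∈ B then p.2 ⟨v, h'⟩ else false)
    (fun τ _ => (fun v : A => τ ⟨v, Finset.mem_union_left _ v.2⟩,
      fun v : B => τ ⟨v, Finset.mem_union_right _ v.2⟩)) ?_ ?_ ?_ ?_ ?_
  · intro p _; simp
  · intro p _; simp
  · rintro ⟨τ, τ'⟩ _
    ext v
    · simp
    · have : (v : V) ∉ A := fun h => (Finset.disjoint_left.mp hd h v.2)
      simp [this]
  · intro τ _
    funext v
    have := v.2
    rw [Finset.mem_union] at this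
    by_cases hA : (v : V) ∈ A
    · simp [hA]
    · have hB := this.resolve_left hA
      simp [hA, hB]
  · rintro ⟨τ, τ'⟩ _
    simp only
    rw [glue_glue hd]

/-- change of variables in a sum over configurations -/
lemma Sm_comp (Φ : W → V) (Λ' : Finset W) (B : Finset V) (hΦ : ∀ w, Φ w ∈ B ↔ w ∈ Λ')
    (hinj : ∀ w ∈ Λ', ∀ w' ∈ Λ', Φ w = Φ w' → w = w') (hsurj : ∀ v ∈ B, ∃ w ∈ Λ', Φ w = v)
    (ξ : V → Bool) (f : (W → Bool) → ℝ) :
    Sm B ξ (fun σ => f (σ ∘ Φ)) = Sm Λ' (ξ ∘ Φ) f := by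
  unfold Sm
  choose g hg1 hg2 using hsurj
  have hgΦ : ∀ w (hw : w ∈ Λ'), g (Φ w) ((hΦ w).mpr hw) = w := fun w hw =>
    hinj _ (hg1 _ ((hΦ w).mpr hw)) _ hw (hg2 _ ((hΦ w).mpr hw))
  refine Finset.sum_bij' (fun τ _ => fun w : Λ' => τ ⟨Φ w, (hΦ w).mpr w.2⟩)
    (fun τ _ => fun v : B => τ ⟨g v v.2, hg1 v v.2⟩) ?_ ?_ ?_ ?_ ?_
  · intro τ _; simp
  · intro τ _; simp
  · intro τ _
    funext v
    simp only
    congr 1
    exact Subtype.ext (hg2 v v.2)
  · intro τ _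
    funext w
    simp only
    congr 1
    exact Subtype.ext (hgΦ w w.2)
  · intro τ _
    simp only
    congr 1
    funext w
    by_cases hw : w ∈ Λ'
    · have : Φ w ∈ B := (hΦ w).mpr hw
      simp [glue, hw, this]
    · have : Φ w ∉ B := fun h => hw ((hΦ w).mp h)
      simp [glue, hw, this]

/-- comparison of two sums of exponentials -/
lemma Sm_exp_le (J : ℝ) (Λ : Finset V) (ξ : V → Bool) (E1 E2 : (V → Bool) → ℝ) (B : ℝ)
    (h : ∀ σ, (∀ v ∉ Λ, σ v = ξ v) → |E1 σ - E2 σ| ≤ B) :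
    Sm Λ ξ (fun σ => exp (J * E1 σ)) ≤ exp (|J| * B) * Sm Λ ξ (fun σ => exp (J * E2 σ)) := by
  rw [← Sm_mul]
  apply Sm_le
  intro σ hσ
  rw [← exp_add]
  apply exp_le_exp.mpr
  have h1 := h σ hσ
  have h2 : J * (E1 σ - E2 σ) ≤ |J| * B := by
    calc J * (E1 σ - E2 σ) ≤ |J * (E1 σ - E2 σ)| := le_abs_self _
      _ = |J| * |E1 σ - E2 σ| := abs_mul _ _
      _ ≤ |J| * B := by gcongr
  linarith [mul_sub J (E1 σ) (E2 σ)]

lemma tri_symm (a b c : ℝ) : tri a c b = tri a b c := by unfold tri; ring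

lemma abs_tri_le {a b c : ℝ} (ha : |a| = 1) (hb : |b| = 1) (hc : |c| = 1) :
    |tri a b c| ≤ 3 := by
  unfold tri
  calc |a * b + b * c + c * a| ≤ |a * b + b * c| + |c * a| := abs_add_le _ _
    _ ≤ |a * b| + |b * c| + |c * a| := by gcongr; exact abs_add_le _ _
    _ = 3 := by rw [abs_mul, abs_mul, abs_mul, ha, hb, hc]; norm_num

end config

section lattice

set_option linter.unusedSectionVars false

variable {X : Type*} [CommRing X] [DecidableEq X]

lemma abs_En_le (T : Finset (X × ℤ)) (φ σ : X × ℤ → Bool) : |En T φ σ| ≤ 3 * T.card := by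
  unfold En
  calc |∑ t ∈ T, tri (sp (σ t)) (sp (φ t) * sp (σ (tb t))) (sp (σ (tc t)))|
      ≤ ∑ t ∈ T, |tri (sp (σ t)) (sp (φ t) * sp (σ (tb t))) (sp (σ (tc t)))| :=
        Finset.abs_sum_le_sum_abs _ _
    _ ≤ ∑ t ∈ T, (3 : ℝ) := by
        apply Finset.sum_le_sum
        intro t _
        apply abs_tri_le (abs_sp _) _ (abs_sp _)
        rw [abs_mul, abs_sp, abs_sp, one_mul]
    _ = 3 * T.card := by rw [Finset.sum_const, nsmul_eq_mul, mul_comm]

lemma En_congr (T : Finset (X × ℤ)) (φ φ' σ σ' : X × ℤ → Bool)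
    (h : ∀ t ∈ T, σ t = σ' t ∧ sp (φ t) * sp (σ (tb t)) = sp (φ' t) * sp (σ' (tb t))
      ∧ σ (tc t) = σ' (tc t)) :
    En T φ σ = En T φ' σ' := by
  unfold En
  apply Finset.sum_congr rfl
  intro t ht
  obtain ⟨h1, h2, h3⟩ := h t ht
  rw [h1, h2, h3]

lemma En_union (S T : Finset (X × ℤ)) (hd : Disjoint S T) (φ σ : X × ℤ → Bool) :
    En (S ∪ T) φ σ = En S φ σ + En T φ σ := by
  unfold En
  rw [Finset.sum_union hd]

/-- the partition function depends only on the boundary spins of the triangles -/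
lemma Zd_congr (J : ℝ) (T Λ : Finset (X × ℤ)) (ξ ξ' φ : X × ℤ → Bool)
    (h : ∀ t ∈ T, (t ∉ Λ → ξ t = ξ' t) ∧ (tb t ∉ Λ → ξ (tb t) = ξ' (tb t))
      ∧ (tc t ∉ Λ → ξ (tc t) = ξ' (tc t))) :
    Zd J T Λ ξ φ = Zd J T Λ ξ' φ := by
  unfold Zd Sm
  apply Finset.sum_congr rfl
  intro τ _
  suffices hE : En T φ (glue Λ τ ξ) = En T φ (glue Λ τ ξ') by simp only [hE]
  refine En_congr T φ φ _ _ ?_
  intro t ht
  obtain ⟨h1, h2, h3⟩ := h t ht
  have g : ∀ v, (v ∉ Λ → ξ v = ξ' v) → glue Λ τ ξ v = glue Λ τ ξ' v := by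
    intro v hv
    by_cases h : v ∈ Λ
    · simp [glue, h]
    · simp [glue, h, hv h]
  rw [g t h1, g (tb t) h2, g (tc t) h3]
  exact ⟨rfl, rfl, rfl⟩

lemma Zd_split (J : ℝ) (T A B : Finset (X × ℤ)) (hd : Disjoint A B) (ξ φ : X × ℤ → Bool) :
    Zd J T (A ∪ B) ξ φ = Sm A ξ (fun σ => Zd J T B σ φ) := by
  unfold Zd
  exact Sm_split A B hd ξ _

end lattice

end Pool.Agent.AFIsing
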