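import Pool.Agent.AFIsing.Model
import Pool.Agent.AFIsing.Tools

/-!
Module G of MP_a5ec60_pr: from a finite-volume bound to every Gibbs measure.
-/
open MeasureTheory Real

namespace Pool.Agent.AFIsing

/-! ### geometry of the triangular lattice -/

lemma omega_re : (Complex.exp ((Real.pi / 3 : ℝ) * Complex.I)).re = 1 / 2 := by
  rw [Complex.exp_ofReal_mul_I_re, Real.cos_pi_div_three]

lemma omega_im : (Complex.exp ((Real.pi / 3 : ℝ) * Complex.I)).im = √3 / 2 := by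
  rw [Complex.exp_ofReal_mul_I_im, Real.sin_pi_div_three]

lemma dist_pos_sq (u v : Vtx) :
    dist (pos u) (pos v) ^ 2 = (((u.1 - v.1) ^ 2 + (u.1 - v.1) * (u.2 - v.2)
      + (u.2 - v.2) ^ 2 : ℤ) : ℝ) := by
  rw [Complex.dist_eq, Complex.sq_norm, Complex.normSq_apply]
  have hre : (pos u - pos v).re = ((u.1 : ℝ) - v.1) + ((u.2 : ℝ) - v.2) / 2 := by
    unfold pos
    simp only [Complex.sub_re, Complex.add_re, Complex.mul_re, Complex.intCast_re,
      Complex.intCast_im, omega_re, omega_im]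
    ring
  have him : (pos u - pos v).im = ((u.2 : ℝ) - v.2) * (√3 / 2) := by
    unfold pos
    simp only [Complex.sub_im, Complex.add_im, Complex.mul_im, Complex.intCast_re,
      Complex.intCast_im, omega_re, omega_im]
    ring
  rw [hre, him]
  push_cast
  have h3 : √3 * √3 = 3 := Real.mul_self_sqrt (by norm_num)
  linear_combination (((u.2 : ℝ) - v.2) ^ 2 / 4) * h3

lemma adj_iff_sq (u v : Vtx) :
    TriG.Adj u v ↔ (u.1 - v.1) ^ 2 + (u.1 - v.1) * (u.2 - v.2) + (u.2 - v.2) ^ 2 = 1 := by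
  have h := dist_pos_sq u v
  have h0 : 0 ≤ dist (pos u) (pos v) := dist_nonneg
  show dist (pos u) (pos v) = 1 ↔ _
  constructor
  · intro h1
    rw [h1] at h
    have : ((((u.1 - v.1) ^ 2 + (u.1 - v.1) * (u.2 - v.2) + (u.2 - v.2) ^ 2 : ℤ)) : ℝ)
        = ((1 : ℤ) : ℝ) := by rw [← h]; norm_num
    exact_mod_cast this
  · intro h1
    rw [h1] at h
    have h2 : dist (pos u) (pos v) ^ 2 = 1 := by rw [h]; norm_num
    nlinarith [h2, h0]

lemma sq_form_eq_one (a b : ℤ) (h : a ^ 2 + a * b + b ^ 2 = 1) :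
    (a = 1 ∧ b = 0) ∨ (a = -1 ∧ b = 0) ∨ (a = 0 ∧ b = 1) ∨ (a = 0 ∧ b = -1) ∨
      (a = 1 ∧ b = -1) ∨ (a = -1 ∧ b = 1) := by
  have ha1 : a ≤ 1 := by nlinarith [sq_nonneg (a + 2 * b), sq_nonneg (a - 1)]
  have ha2 : -1 ≤ a := by nlinarith [sq_nonneg (a + 2 * b), sq_nonneg (a + 1)]
  have hb1 : b ≤ 1 := by nlinarith [sq_nonneg (b + 2 * a), sq_nonneg (b - 1)]
  have hb2 : -1 ≤ b := by nlinarith [sq_nonneg (b + 2 * a), sq_nonneg (b + 1)]
  interval_cases a <;> interval_cases b <;> simp_all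

/-- the edges: three for each up-triangle -/
def ed (p : Vtx × Fin 3) : Sym2 Vtx :=
  match p.2 with
  | 0 => s(p.1, tb p.1)
  | 1 => s(tb p.1, tc p.1)
  | 2 => s(p.1, tc p.1)

lemma ed_injective : Function.Injective ed := by
  rintro ⟨⟨a, b⟩, i⟩ ⟨⟨c, d⟩, j⟩ h
  fin_cases i <;> fin_cases j <;> simp only [ed, tb, tc, Sym2.eq_iff, Prod.mk.injEq] at h ⊢ <;>
    first
    | (exfalso; omega)
    | (refine ⟨⟨?_, ?_⟩, trivial⟩ <;> omega)

lemma ed_range : Set.range ed = TriG.edgeSet := by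
  ext e
  induction e using Sym2.ind with
  | _ u v =>
    rw [SimpleGraph.mem_edgeSet, adj_iff_sq]
    obtain ⟨u1, u2⟩ := u
    obtain ⟨v1, v2⟩ := v
    constructor
    · rintro ⟨⟨⟨a, b⟩, i⟩, h⟩
      fin_cases i <;> simp only [ed, tb, tc, Sym2.eq_iff, Prod.mk.injEq] at h <;>
      · rcases h with ⟨⟨h1, h2⟩, ⟨h3, h4⟩⟩ | ⟨⟨h1, h2⟩, ⟨h3, h4⟩⟩ <;>
        · subst h1 h2 h3 h4
          simp only
          ring
    · intro h
      simp only at h
      rcases sq_form_eq_one _ _ h with h | h | h | h | h | h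
      · refine ⟨((v1, v2), 0), ?_⟩
        simp only [ed, tb, tc, Sym2.eq_iff, Prod.mk.injEq, and_true, true_and]; omega
      · refine ⟨((u1, u2), 0), ?_⟩
        simp only [ed, tb, tc, Sym2.eq_iff, Prod.mk.injEq, and_true, true_and]; omega
      · refine ⟨((v1, v2), 2), ?_⟩
        simp only [ed, tb, tc, Sym2.eq_iff, Prod.mk.injEq, and_true, true_and]; omega
      · refine ⟨((u1, u2), 2), ?_⟩
        simp only [ed, tb, tc, Sym2.eq_iff, Prod.mk.injEq, and_true, true_and]; omega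
      · refine ⟨((v1, u2), 1), ?_⟩
        simp only [ed, tb, tc, Sym2.eq_iff, Prod.mk.injEq, and_true, true_and]; omega
      · refine ⟨((u1, v2), 1), ?_⟩
        simp only [ed, tb, tc, Sym2.eq_iff, Prod.mk.injEq, and_true, true_and]; omega

open Classical in
/-- indicator that an edge is monochromatic -/
noncomputable def mi (σ : Vtx → Bool) (e : Sym2 Vtx) : ℝ :=
  if ∀ u ∈ e, ∀ v ∈ e, σ u = σ v then 1 else 0

open Classical in
/-- indicator that an edge meets `Λ` -/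
noncomputable def hi (Λ : Finset Vtx) (e : Sym2 Vtx) : ℝ :=
  if ∃ v ∈ Λ, v ∈ e then 1 else 0

lemma mi_mk (σ : Vtx → Bool) (u v : Vtx) : 2 * mi σ s(u, v) - 1 = sp (σ u) * sp (σ v) := by
  have h : (∀ a ∈ s(u, v), ∀ b ∈ s(u, v), σ a = σ b) ↔ σ u = σ v := by
    simp only [Sym2.mem_iff]
    constructor
    · intro h; exact h u (Or.inl rfl) v (Or.inr rfl)
    · rintro h a (rfl | rfl) b (rfl | rfl) <;> simp [h]
  unfold mi
  simp only [h]
  cases σ u <;> cases σ v <;> norm_num [sp]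

lemma mono_eq (Λ T : Finset Vtx)
    (hT : ∀ t : Vtx, (t ∈ Λ ∨ tb t ∈ Λ ∨ tc t ∈ Λ) → t ∈ T) (σ : Vtx → Bool) :
    (mono Λ σ : ℝ) = ∑ p ∈ T ×ˢ (Finset.univ : Finset (Fin 3)), hi Λ (ed p) * mi σ (ed p) := by
  classical
  have hset : {e : Sym2 Vtx | e ∈ TriG.edgeSet ∧ (∃ v ∈ Λ, v ∈ e) ∧
      ∀ u ∈ e, ∀ v ∈ e, σ u = σ v} = ed '' ↑((T ×ˢ (Finset.univ : Finset (Fin 3))).filter
        (fun p => (∃ v ∈ Λ, v ∈ ed p) ∧ ∀ u ∈ ed p, ∀ v ∈ ed p, σ u = σ v)) := by
    ext e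
    simp only [Set.mem_setOf_eq, Set.mem_image, Finset.coe_filter, Finset.mem_product,
      Finset.mem_univ, and_true]
    constructor
    · rintro ⟨he, h1, h2⟩
      rw [← ed_range] at he
      obtain ⟨p, rfl⟩ := he
      refine ⟨p, ⟨hT _ ?_, h1, h2⟩, rfl⟩
      obtain ⟨v, hv, hve⟩ := h1
      obtain ⟨t, i⟩ := p
      fin_cases i <;> simp only [ed, Sym2.mem_iff] at hve <;> rcases hve with rfl | rfl <;>
        simp [hv]
    · rintro ⟨p, ⟨_, h1, h2⟩, rfl⟩
      refine ⟨?_, h1, h2⟩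
      rw [← ed_range]
      exact ⟨p, rfl⟩
  unfold mono
  rw [hset, Set.ncard_image_of_injective _ ed_injective, Set.ncard_coe_finset,
    Finset.card_filter]
  push_cast
  apply Finset.sum_congr rfl
  intro p _
  unfold hi mi
  by_cases h1 : ∃ v ∈ Λ, v ∈ ed p <;>
    by_cases h2 : ∀ u ∈ ed p, ∀ v ∈ ed p, σ u = σ v <;> simp only [h1, h2] <;> simp

lemma En_eq (T : Finset Vtx) (σ : Vtx → Bool) :
    En T nofZ σ = ∑ p ∈ T ×ˢ (Finset.univ : Finset (Fin 3)), (2 * mi σ (ed p) - 1) := by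
  unfold En
  rw [Finset.sum_product]
  apply Finset.sum_congr rfl
  intro t _
  rw [Fin.sum_univ_three]
  simp only [ed]
  rw [mi_mk, mi_mk, mi_mk]
  simp only [nofZ, sp_false, one_mul]
  unfold tri
  ring

/-- the constant part of the energy -/
noncomputable def Kc (Λ T : Finset Vtx) (η : Vtx → Bool) : ℝ :=
  ∑ p ∈ T ×ˢ (Finset.univ : Finset (Fin 3)), (2 * ((1 - hi Λ (ed p)) * mi η (ed p)) - 1)

lemma En_eq_mono (Λ T : Finset Vtx)
    (hT : ∀ t : Vtx, (t ∈ Λ ∨ tb t ∈ Λ ∨ tc t ∈ Λ) → t ∈ T) (η : Vtx → Bool) (τ : Λ → Bool) :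
    En T nofZ (glue Λ τ η) = 2 * (mono Λ (glue Λ τ η) : ℝ) + Kc Λ T η := by
  rw [En_eq, mono_eq Λ T hT, Kc, Finset.mul_sum, ← Finset.sum_add_distrib]
  apply Finset.sum_congr rfl
  intro p _
  have key : (1 - hi Λ (ed p)) * mi (glue Λ τ η) (ed p) = (1 - hi Λ (ed p)) * mi η (ed p) := by
    unfold hi
    by_cases h : ∃ v ∈ Λ, v ∈ ed p
    · simp [h]
    · have h' : ∀ v ∈ ed p, v ∉ Λ := fun v hv hv' => h ⟨v, hv', hv⟩
      have : mi (glue Λ τ η) (ed p) = mi η (ed p) := by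
        unfold mi
        have : (∀ u ∈ ed p, ∀ v ∈ ed p, glue Λ τ η u = glue Λ τ η v) ↔
            (∀ u ∈ ed p, ∀ v ∈ ed p, η u = η v) := by
          constructor
          · intro H u hu v hv
            have := H u hu v hv
            rwa [glue_not_mem (h' u hu), glue_not_mem (h' v hv)] at this
          · intro H u hu v hv
            rw [glue_not_mem (h' u hu), glue_not_mem (h' v hv)]
            exact H u hu v hv
        split_ifs with a b b
        · rfl
        · exact absurd (this.mp a) b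
        · exact absurd (this.mpr b) a
        · rfl
      rw [this]
  linear_combination 2 * key

theorem fv_eq (β : ℝ) (Λ T : Finset Vtx)
    (hT : ∀ t : Vtx, (t ∈ Λ ∨ tb t ∈ Λ ∨ tc t ∈ Λ) → t ∈ T) (η : Vtx → Bool) (v : Vtx) :
    ∑ τ : Λ → Bool, sp (glue Λ τ η v) * fvp β Λ η τ
      = Fd (-β / 2) T Λ η nofZ v / Zd (-β / 2) T Λ η nofZ := by
  have hexp : ∀ τ : Λ → Bool, exp (-β / 2 * En T nofZ (glue Λ τ η))
      = exp (-β / 2 * Kc Λ T η) * exp (-β * mono Λ (glue Λ τ η)) := by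
    intro τ
    rw [En_eq_mono Λ T hT, ← exp_add]
    congr 1
    ring
  have hpos : 0 < ∑ τ' : Λ → Bool, exp (-β * mono Λ (glue Λ τ' η)) :=
    Finset.sum_pos (fun _ _ => exp_pos _) Finset.univ_nonempty
  have hc : 0 < exp (-β / 2 * Kc Λ T η) := exp_pos _
  unfold Fd Zd Sm
  simp only [hexp]
  have h1 : ∑ τ : Λ → Bool, sp (glue Λ τ η v) *
      (exp (-β / 2 * Kc Λ T η) * exp (-β * mono Λ (glue Λ τ η)))
      = exp (-β / 2 * Kc Λ T η) *
        ∑ τ : Λ → Bool, sp (glue Λ τ η v) * exp (-β * mono Λ (glue Λ τ η)) := by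
    rw [Finset.mul_sum]
    apply Finset.sum_congr rfl
    intro τ _
    ring
  rw [h1, ← Finset.mul_sum, mul_div_mul_left _ _ hc.ne', Finset.sum_div]
  apply Finset.sum_congr rfl
  intro τ _
  unfold fvp
  rw [mul_div_assoc]

/-! ### translations -/

lemma fv_eq_Sm (β : ℝ) (Λ : Finset Vtx) (η : Vtx → Bool) (v : Vtx) :
    ∑ τ : Λ → Bool, sp (glue Λ τ η v) * fvp β Λ η τ
      = Sm Λ η (fun σ => sp (σ v) * exp (-β * mono Λ σ)) / Sm Λ η (fun σ => exp (-β * mono Λ σ)) := by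
  unfold Sm fvp
  rw [Finset.sum_div]
  apply Finset.sum_congr rfl
  intro τ _
  rw [mul_div_assoc]

/-- the translate of the box to `x` -/
noncomputable def bx (x : Vtx) (L : ℕ) : Finset Vtx := (box L).image (fun w => w + x)

lemma mem_bx (x : Vtx) (L : ℕ) (w : Vtx) : w + x ∈ bx x L ↔ w ∈ box L := by
  unfold bx
  simp

lemma mono_bx (x : Vtx) (L : ℕ) (σ : Vtx → Bool) :
    mono (bx x L) σ = mono (box L) (σ ∘ fun w => w + x) := by
  have hinj : Function.Injective (fun w : Vtx => w + x) := add_left_injective x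
  unfold mono
  rw [← Set.ncard_image_of_injective {e : Sym2 Vtx | e ∈ TriG.edgeSet ∧ (∃ v ∈ box L, v ∈ e) ∧
      ∀ u ∈ e, ∀ v ∈ e, (σ ∘ fun w => w + x) u = (σ ∘ fun w => w + x) v}
      (Sym2.map.injective hinj)]
  congr 1
  ext e
  have hadj : ∀ u v : Vtx, TriG.Adj (u + x) (v + x) ↔ TriG.Adj u v := by
    intro u v
    rw [adj_iff_sq, adj_iff_sq]
    simp only [Prod.fst_add, Prod.snd_add, add_sub_add_right_eq_sub]
  constructor
  · induction e using Sym2.ind with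
    | _ u v =>
      rintro ⟨h1, h2, h3⟩
      refine ⟨s(u - x, v - x), ⟨?_, ?_, ?_⟩, ?_⟩
      · rw [SimpleGraph.mem_edgeSet] at h1 ⊢
        rw [← hadj]
        simpa using h1
      · obtain ⟨w, hw, hwe⟩ := h2
        refine ⟨w - x, ?_, ?_⟩
        · rw [← mem_bx x]; simpa using hw
        · rw [Sym2.mem_iff] at hwe ⊢
          rcases hwe with rfl | rfl
          · left; rfl
          · right; rfl
      · intro a ha b hb
        rw [Sym2.mem_iff] at ha hb
        have h := h3 (a + x) ?_ (b + x) ?_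
        · exact h
        · rw [Sym2.mem_iff]
          rcases ha with rfl | rfl <;> simp
        · rw [Sym2.mem_iff]
          rcases hb with rfl | rfl <;> simp
      · simp [Sym2.map_mk]
  · rintro ⟨e', ⟨h1, h2, h3⟩, rfl⟩
    induction e' using Sym2.ind with
    | _ u v =>
      rw [Sym2.map_mk]
      refine ⟨?_, ?_, ?_⟩
      · rw [SimpleGraph.mem_edgeSet] at h1 ⊢
        exact (hadj u v).mpr h1
      · obtain ⟨w, hw, hwe⟩ := h2
        refine ⟨w + x, (mem_bx x L w).mpr hw, ?_⟩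
        rw [Sym2.mem_iff] at hwe ⊢
        rcases hwe with rfl | rfl
        · left; rfl
        · right; rfl
      · intro a ha b hb
        rw [Sym2.mem_iff] at ha hb
        have key : σ (u + x) = σ (v + x) := h3 u (by simp) v (by simp)
        rcases ha with rfl | rfl <;> rcases hb with rfl | rfl <;> simp [key]

lemma fv_translate (β : ℝ) (x : Vtx) (L : ℕ) (η : Vtx → Bool) :
    ∑ τ : (bx x L) → Bool, sp (glue (bx x L) τ η x) * fvp β (bx x L) η τ
      = ∑ τ : (box L) → Bool, sp (glue (box L) τ (η ∘ fun w => w + x) (0, 0))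
          * fvp β (box L) (η ∘ fun w => w + x) τ := by
  rw [fv_eq_Sm, fv_eq_Sm]
  have hΦ : ∀ w, (fun w : Vtx => w + x) w ∈ bx x L ↔ w ∈ box L := fun w => mem_bx x L w
  have hinj : ∀ w ∈ box L, ∀ w' ∈ box L, (fun w : Vtx => w + x) w = (fun w : Vtx => w + x) w' →
      w = w' := fun w _ w' _ h => add_left_injective x h
  have hsurj : ∀ v ∈ bx x L, ∃ w ∈ box L, (fun w : Vtx => w + x) w = v := by
    intro v hv
    exact Finset.mem_image.mp hv
  have h1 := Sm_comp (fun w : Vtx => w + x) (box L) (bx x L) hΦ hinj hsurj η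
    (fun σ => sp (σ (0, 0)) * exp (-β * mono (box L) σ))
  have h2 := Sm_comp (fun w : Vtx => w + x) (box L) (bx x L) hΦ hinj hsurj η
    (fun σ => exp (-β * mono (box L) σ))
  rw [← h1, ← h2]
  have h0 : ((0, 0) : Vtx) + x = x := by
    ext <;> simp
  congr 1
  · congr 1
    funext σ
    rw [mono_bx]
    simp only [Function.comp_apply, h0]
  · congr 1
    funext σ
    rw [mono_bx]

/-! ### measure theory -/

lemma offSigma_le (Λ : Finset Vtx) :
    offSigma Λ ≤ (MeasurableSpace.pi : MeasurableSpace (Vtx → Bool)) := by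
  unfold offSigma
  refine iSup₂_le fun v _ => ?_
  exact (measurable_pi_apply v).comap_le

lemma measurable_off (Λ : Finset Vtx) (y : Vtx) (hy : y ∉ Λ) :
    Measurable[offSigma Λ] (fun σ : Vtx → Bool => σ y) := by
  rw [measurable_iff_comap_le]
  unfold offSigma
  exact le_iSup₂_of_le y hy le_rfl

lemma measurable_sp : Measurable sp := measurable_of_countable sp

lemma integrable_of_bdd {μ : Measure (Vtx → Bool)} [IsProbabilityMeasure μ]
    (f : (Vtx → Bool) → ℝ) (hf : Measurable f) (hb : ∀ σ, |f σ| ≤ 1) : Integrable f μ := by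
  refine Integrable.of_bound hf.aestronglyMeasurable 1 ?_
  exact Filter.Eventually.of_forall fun σ => by simpa [Real.norm_eq_abs] using hb σ

lemma measurable_spin (x : Vtx) : Measurable (fun σ : Vtx → Bool => sp (σ x)) :=
  measurable_sp.comp (measurable_pi_apply x)

lemma measurableSet_cyl (Λ : Finset Vtx) (τ : Λ → Bool) :
    MeasurableSet {σ : Vtx → Bool | ∀ v : Λ, σ v = τ v} := by
  have : {σ : Vtx → Bool | ∀ v : Λ, σ v = τ v} = ⋂ v : Λ, (fun σ : Vtx → Bool => σ v) ⁻¹' {τ v} := by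
    ext σ; simp
  rw [this]
  exact MeasurableSet.iInter fun v => measurable_pi_apply (v : Vtx) (measurableSet_singleton _)

lemma condExp_spin (β : ℝ) (μ : Measure (Vtx → Bool)) (hμ : IsGibbs β μ) (Λ : Finset Vtx)
    (x : Vtx) (hx : x ∈ Λ) :
    μ[fun σ => sp (σ x) | offSigma Λ] =ᵐ[μ]
      fun σ => ∑ τ : Λ → Bool, sp (glue Λ τ σ x) * fvp β Λ σ τ := by
  classical
  haveI := hμ.prob
  set ind : (Λ → Bool) → (Vtx → Bool) → ℝ := fun τ =>
    Set.indicator {σ : Vtx → Bool | ∀ v : Λ, σ v = τ v} (fun _ => (1 : ℝ)) with hind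
  have hdec : (fun σ : Vtx → Bool => sp (σ x))
      = ∑ τ ∈ (Finset.univ : Finset (Λ → Bool)), (sp (τ ⟨x, hx⟩)) • ind τ := by
    funext σ
    rw [Finset.sum_apply, Finset.sum_eq_single (fun v : Λ => σ v)]
    · simp [hind]
    · intro τ _ hτ
      have : σ ∉ {σ : Vtx → Bool | ∀ v : Λ, σ v = τ v} := by
        intro h
        apply hτ
        funext v
        exact (h v).symm
      rw [Pi.smul_apply, hind]
      simp only
      rw [Set.indicator_of_notMem this, smul_zero]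
    · simp
  have hint : ∀ τ, Integrable (ind τ) μ := by
    intro τ
    apply integrable_of_bdd
    · exact measurable_const.indicator (measurableSet_cyl Λ τ)
    · intro σ
      simp only [hind]
      by_cases h : σ ∈ {σ : Vtx → Bool | ∀ v : Λ, σ v = τ v}
      · rw [Set.indicator_of_mem h]; simp
      · rw [Set.indicator_of_notMem h]; simp
  rw [hdec]
  refine (condExp_finsetSum (fun τ _ => (hint τ).smul _) _).trans ?_
  have h1 : ∀ τ : Λ → Bool, μ[(sp (τ ⟨x, hx⟩)) • ind τ | offSigma Λ] =ᵐ[μ]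
      fun σ => sp (glue Λ τ σ x) * fvp β Λ σ τ := by
    intro τ
    refine (condExp_smul _ _ _).trans ?_
    filter_upwards [hμ.dlr Λ τ] with σ hσ
    rw [Pi.smul_apply, smul_eq_mul, glue_mem hx]
    congr 1
  have h2 : ∀ᵐ σ ∂μ, ∀ τ : Λ → Bool, (μ[(sp (τ ⟨x, hx⟩)) • ind τ | offSigma Λ]) σ
      = sp (glue Λ τ σ x) * fvp β Λ σ τ := ae_all_iff.mpr h1
  filter_upwards [h2] with σ hσ
  rw [Finset.sum_apply]
  exact Finset.sum_congr rfl fun τ _ => hσ τ

/-- the spin at `x` times a bounded function of the outside of `Λ` -/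
lemma abs_integral_spin_mul_le (β : ℝ) (μ : Measure (Vtx → Bool)) (hμ : IsGibbs β μ)
    (Λ : Finset Vtx) (x : Vtx) (hx : x ∈ Λ) (B : ℝ)
    (hB : ∀ η : Vtx → Bool, |∑ τ : Λ → Bool, sp (glue Λ τ η x) * fvp β Λ η τ| ≤ B)
    (g : (Vtx → Bool) → ℝ) (hg : Measurable[offSigma Λ] g) (hg1 : ∀ σ, |g σ| ≤ 1) :
    |∫ σ, sp (σ x) * g σ ∂μ| ≤ B := by
  haveI := hμ.prob
  have hm := offSigma_le Λ
  have hg' : Measurable g := hg.mono hm le_rfl
  have hB0 : 0 ≤ B := (abs_nonneg _).trans (hB (fun _ => false))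
  have hspin : Integrable (fun σ : Vtx → Bool => sp (σ x)) μ :=
    integrable_of_bdd _ (measurable_spin x) (fun σ => (abs_sp _).le)
  have hprod : Integrable ((fun σ : Vtx → Bool => sp (σ x)) * g) μ := by
    apply integrable_of_bdd
    · exact (measurable_spin x).mul hg'
    · intro σ
      rw [Pi.mul_apply, abs_mul, abs_sp, one_mul]
      exact hg1 σ
  have h1 : ∫ σ, sp (σ x) * g σ ∂μ = ∫ σ, (μ[(fun σ : Vtx → Bool => sp (σ x)) * g | offSigma Λ]) σ ∂μ := by
    rw [integral_condExp hm]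
    rfl
  have h2 : μ[(fun σ : Vtx → Bool => sp (σ x)) * g | offSigma Λ] =ᵐ[μ]
      μ[fun σ : Vtx → Bool => sp (σ x) | offSigma Λ] * g :=
    condExp_mul_of_stronglyMeasurable_right hg.stronglyMeasurable hprod hspin
  have h3 : ∀ᵐ σ ∂μ, ‖(μ[(fun σ : Vtx → Bool => sp (σ x)) * g | offSigma Λ]) σ‖ ≤ B := by
    filter_upwards [h2, condExp_spin β μ hμ Λ x hx] with σ hσ1 hσ2
    rw [hσ1, Pi.mul_apply, hσ2, norm_mul, Real.norm_eq_abs, Real.norm_eq_abs]
    calc _ ≤ B * 1 := by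
          gcongr
          · exact hB σ
          · exact hg1 σ
      _ = B := mul_one B
  rw [h1, ← Real.norm_eq_abs]
  have h4 := norm_integral_le_of_norm_le_const h3
  simpa using h4

lemma dist_le_max (x y : Vtx) :
    dist (pos x) (pos y) ≤ 2 * ((max |x.1 - y.1| |x.2 - y.2| : ℤ) : ℝ) := by
  set a := x.1 - y.1 with ha
  set b := x.2 - y.2 with hb
  set M := max |a| |b| with hM
  have h1 : |a| ≤ M := le_max_left _ _
  have h2 : |b| ≤ M := le_max_right _ _
  have hM0 : 0 ≤ M := (abs_nonneg a).trans h1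
  have ha2 : a ^ 2 ≤ M ^ 2 := sq_le_sq' (by linarith [neg_abs_le a]) (by linarith [le_abs_self a])
  have hb2 : b ^ 2 ≤ M ^ 2 := sq_le_sq' (by linarith [neg_abs_le b]) (by linarith [le_abs_self b])
  have h3 : a ^ 2 + a * b + b ^ 2 ≤ (2 * M) ^ 2 := by nlinarith [sq_nonneg (a - b)]
  have h4 : dist (pos x) (pos y) ^ 2 ≤ (2 * (M : ℝ)) ^ 2 := by
    rw [dist_pos_sq]
    exact_mod_cast h3
  have hM0' : (0 : ℝ) ≤ 2 * (M : ℝ) := by positivity
  exact (abs_le_of_sq_le_sq' h4 hM0').2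

lemma abs_integral_le_one {μ : Measure (Vtx → Bool)} [IsProbabilityMeasure μ]
    (f : (Vtx → Bool) → ℝ) (hb : ∀ σ, |f σ| ≤ 1) : |∫ σ, f σ ∂μ| ≤ 1 := by
  have h := norm_integral_le_of_norm_le_const (μ := μ) (f := f) (C := 1)
    (Filter.Eventually.of_forall fun σ => by simpa [Real.norm_eq_abs] using hb σ)
  simpa using h

theorem gibbs_of_fv (β C c : ℝ) (hC : 0 < C) (hc : 0 < c)
    (H : ∀ (L : ℕ) (η : Vtx → Bool),
      |∑ τ : (box L) → Bool, sp (glue (box L) τ η (0, 0)) * fvp β (box L) η τ|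
        ≤ C * exp (-c * L)) :
    ∃ C' c' : ℝ, 0 < C' ∧ 0 < c' ∧ ∀ μ : Measure (Vtx → Bool), IsGibbs β μ → ∀ x y : Vtx,
      |(∫ σ, sp (σ x) * sp (σ y) ∂μ) - (∫ σ, sp (σ x) ∂μ) * (∫ σ, sp (σ y) ∂μ)|
        ≤ C' * exp (-c' * dist (pos x) (pos y)) := by
  refine ⟨2 * C * exp c + 2, c / 2, by positivity, by positivity, ?_⟩
  intro μ hμ x y
  have := hμ.prob
  have h1y : |∫ σ, sp (σ y) ∂μ| ≤ 1 := abs_integral_le_one _ (fun σ => (abs_sp _).le)
  have h1x : |∫ σ, sp (σ x) ∂μ| ≤ 1 := abs_integral_le_one _ (fun σ => (abs_sp _).le)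
  by_cases hxy : x = y
  · subst hxy
    have h2 : |∫ σ, sp (σ x) * sp (σ x) ∂μ| ≤ 1 :=
      abs_integral_le_one _ (fun σ => by rw [sp_sq]; simp)
    have h3 : |(∫ σ, sp (σ x) ∂μ) * (∫ σ, sp (σ x) ∂μ)| ≤ 1 := by
      rw [abs_mul]
      calc |∫ σ, sp (σ x) ∂μ| * |∫ σ, sp (σ x) ∂μ| ≤ 1 * 1 := by gcongr
        _ = 1 := by norm_num
    rw [dist_self, mul_zero, exp_zero, mul_one]
    have h4 : 0 < 2 * C * exp c := by positivity
    calc _ ≤ |∫ σ, sp (σ x) * sp (σ x) ∂μ| + |(∫ σ, sp (σ x) ∂μ) * (∫ σ, sp (σ x) ∂μ)| :=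
          abs_sub _ _
      _ ≤ _ := by linarith
  · set M : ℤ := max |x.1 - y.1| |x.2 - y.2| with hM
    have hM1 : 1 ≤ M := by
      by_contra hlt
      have hM0 : M ≤ 0 := by omega
      apply hxy
      have e1 : |x.1 - y.1| ≤ 0 := (le_max_left _ _).trans hM0
      have e2 : |x.2 - y.2| ≤ 0 := (le_max_right _ _).trans hM0
      have e1' := abs_nonpos_iff.mp e1
      have e2' := abs_nonpos_iff.mp e2
      ext
      · omega
      · omega
    obtain ⟨L, hL⟩ : ∃ L : ℕ, (L : ℤ) = M - 1 := ⟨(M - 1).toNat, by omega⟩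
    have hx : x ∈ bx x L := by
      have : (0 : Vtx) + x ∈ bx x L := by
        rw [mem_bx]
        unfold box
        simp
      simpa using this
    have hy : y ∉ bx x L := by
      intro h
      have h' : (y - x) + x ∈ bx x L := by simpa using h
      rw [mem_bx] at h'
      unfold box at h'
      simp only [Finset.mem_product, Finset.mem_Icc, Prod.fst_sub, Prod.snd_sub] at h'
      obtain ⟨⟨a1, a2⟩, a3, a4⟩ := h'
      have b1 : |x.1 - y.1| ≤ L := abs_le.mpr ⟨by omega, by omega⟩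
      have b2 : |x.2 - y.2| ≤ L := abs_le.mpr ⟨by omega, by omega⟩
      have b3 : M ≤ L := max_le b1 b2
      omega
    set B := C * exp (-c * L) with hBdef
    have hB : ∀ η : Vtx → Bool,
        |∑ τ : (bx x L) → Bool, sp (glue (bx x L) τ η x) * fvp β (bx x L) η τ| ≤ B := by
      intro η
      rw [fv_translate]
      exact H L _
    have hBn : 0 < B := by positivity
    have k1 : |∫ σ, sp (σ x) * sp (σ y) ∂μ| ≤ B :=
      abs_integral_spin_mul_le β μ hμ (bx x L) x hx B hB (fun σ => sp (σ y))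
        (measurable_sp.comp (measurable_off _ y hy)) (fun σ => (abs_sp _).le)
    have k2 : |∫ σ, sp (σ x) ∂μ| ≤ B := by
      have := abs_integral_spin_mul_le β μ hμ (bx x L) x hx B hB (fun _ => 1)
        measurable_const (fun σ => by simp)
      simpa using this
    have k3 : |(∫ σ, sp (σ x) ∂μ) * (∫ σ, sp (σ y) ∂μ)| ≤ B := by
      rw [abs_mul]
      calc |∫ σ, sp (σ x) ∂μ| * |∫ σ, sp (σ y) ∂μ| ≤ B * 1 := by gcongr
        _ = B := mul_one B
    have k4 : B ≤ C * exp c * exp (-(c / 2) * dist (pos x) (pos y)) := by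
      rw [hBdef, mul_assoc, ← exp_add]
      have hd := dist_le_max x y
      rw [← hM] at hd
      have hLr : (L : ℝ) = (M : ℝ) - 1 := by exact_mod_cast hL
      have : -c * (L : ℝ) ≤ c + -(c / 2) * dist (pos x) (pos y) := by
        rw [hLr]
        nlinarith
      gcongr
    have k5 : 0 < exp (-(c / 2) * dist (pos x) (pos y)) := exp_pos _
    calc _ ≤ |∫ σ, sp (σ x) * sp (σ y) ∂μ| + |(∫ σ, sp (σ x) ∂μ) * (∫ σ, sp (σ y) ∂μ)| :=
          abs_sub _ _
      _ ≤ B + B := by gcongr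
      _ ≤ _ := by nlinarith

end Pool.Agent.AFIsing
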