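import Pool.Agent.AFIsing.PairBound
import Pool.Agent.AFIsing.Contract
import Pool.Agent.AFIsing.Gibbs

/-!
Exponential decay in finite volume, uniformly in the boundary condition.
-/
open Real

namespace Pool.Agent.AFIsing

/-- finite-volume decay, in terms of disorder sums -/
theorem Fd_decay (J : ℝ) (hJ : J < 0) : ∃ C c : ℝ, 0 < C ∧ 0 < c ∧ ∀ (L : ℕ) (ξ : Vtx → Bool),
    |Fd J (TB L) (box L) ξ nofZ (0, 0)| ≤ C * exp (-c * L) * Zd J (TB L) (box L) ξ nofZ := by
  have hy0 := yy_pos hJ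
  have hy1 := yy_lt J
  set q : ℝ := 3 * yy J with hq
  have hq0 : 0 < q := by positivity
  have hq1 : q < 1 := by linarith
  set b : ℝ := -Real.log q with hb
  have hb0 : 0 < b := by
    have := Real.log_neg hq0 hq1
    linarith
  obtain ⟨L₁, hL₁⟩ := pair_bound J hJ (b / 8) (by positivity)
  obtain ⟨L₂, hL₂⟩ := poly_le_exp (3 * exp (3 * b)) 1 (b / 8) (by positivity)
  set L₀ : ℕ := max (max L₁ L₂) 6 with hL₀
  refine ⟨exp (b / 4 * L₀) + 1, b / 4, by positivity, by positivity, ?_⟩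
  intro L ξ
  have hZ : 0 < Zd J (TB L) (box L) ξ nofZ := Zd_pos _ _ _ _ _
  rcases lt_or_ge L L₀ with hL | hL
  · have h1 := abs_Fd_le J (TB L) (box L) ξ nofZ (0, 0)
    refine h1.trans ?_
    have h2 : 1 ≤ (exp (b / 4 * L₀) + 1) * exp (-(b / 4) * L) := by
      have h3 : 1 ≤ exp (b / 4 * L₀) * exp (-(b / 4) * L) := by
        rw [← exp_add, ← exp_zero]
        apply exp_le_exp.mpr
        have : (L : ℝ) ≤ L₀ := by exact_mod_cast hL.le
        nlinarith
      have h4 : 0 < exp (-(b / 4) * L) := exp_pos _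
      nlinarith
    nlinarith
  · have hLL1 : L₁ ≤ L := le_trans (le_trans (le_max_left _ _) (le_max_left _ _)) hL
    have hLL2 : L₂ ≤ L := le_trans (le_trans (le_max_right _ _) (le_max_left _ _)) hL
    have hL6 : 6 ≤ L := le_trans (le_max_right _ _) hL
    obtain ⟨k, hk1, hk2⟩ : ∃ k : ℕ, 2 * (k + 2) ≤ L ∧ L ≤ 2 * (k + 3) :=
      ⟨L / 2 - 2, by omega, by omega⟩
    have hpair := hL₁ L hLL1 ξ
    obtain ⟨Z, hZdef⟩ : ∃ Z : ℝ, Z = Zd J (TB L) (box L) ξ nofZ := ⟨_, rfl⟩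
    obtain ⟨F, hFdef⟩ : ∃ F : ℝ, F = Fd J (TB L) (box L) ξ nofZ (0, 0) := ⟨_, rfl⟩
    rw [← hZdef] at hZ
    rw [← hZdef, ← hFdef]
    have hc := contraction J L k (by omega) ξ (exp (b / 8 * L) * Z) (by
      intro x m hx hm
      rw [hZdef]
      exact hpair x m (by omega) (by omega))
    rw [← hFdef] at hc
    have hqy : (9 * yy J ^ 2) ^ k = (q ^ k) ^ 2 := by
      rw [hq, ← pow_mul, mul_comm k 2, pow_mul]; congr 1; ring
    rw [hqy] at hc
    clear_value q b L₀
    clear hpair hZdef hFdef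
    -- square root
    have h1 : F ^ 2 ≤ (3 * (2 * k + 3) * q ^ k * (exp (b / 8 * L) * Z)) ^ 2 := by
      refine hc.trans (le_of_eq ?_)
      ring
    have h2 : |F| ≤ 3 * (2 * k + 3) * q ^ k * (exp (b / 8 * L) * Z) := by
      apply abs_le_of_sq_le_sq h1
      have a1 : 0 ≤ q ^ k := pow_nonneg hq0.le k
      have a2 : 0 < exp (b / 8 * L) := exp_pos _
      have a3 : (0 : ℝ) ≤ 3 * (2 * k + 3) := by positivity
      exact mul_nonneg (mul_nonneg a3 a1) (mul_nonneg a2.le hZ.le)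
    refine h2.trans ?_
    have h3 : q ^ k ≤ exp (3 * b) * exp (-(b / 2) * L) := by
      have e1 : q ^ k = exp (-b * k) := by
        rw [hb, neg_neg, Real.exp_mul, Real.exp_log hq0, Real.rpow_natCast]
      rw [e1, ← exp_add]
      apply exp_le_exp.mpr
      have : (L : ℝ) ≤ 2 * (k + 3) := by exact_mod_cast hk2
      nlinarith
    have h4 : (2 * (k : ℝ) + 3) ≤ L := by
      have : 2 * k + 3 ≤ L := by omega
      exact_mod_cast this
    have h5 := hL₂ L hLL2
    rw [pow_one] at h5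
    have p1 : 0 < exp (-(b / 2) * L) := exp_pos _
    have p2 : 0 < exp (b / 8 * L) := exp_pos _
    have p3 : 0 < exp (3 * b) := exp_pos _
    have p4 : 0 < exp (-(b / 4) * L) := exp_pos _
    have p5 : 0 < exp (b / 4 * L₀) := exp_pos _
    have hk0 : (0 : ℝ) ≤ k := Nat.cast_nonneg k
    have hL0 : (0 : ℝ) ≤ L := Nat.cast_nonneg L
    have hqk : 0 ≤ q ^ k := pow_nonneg hq0.le k
    calc 3 * (2 * (k : ℝ) + 3) * q ^ k * (exp (b / 8 * L) * Z)
        ≤ 3 * L * (exp (3 * b) * exp (-(b / 2) * L)) * (exp (b / 8 * L) * Z) := by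
          apply mul_le_mul_of_nonneg_right _ (mul_nonneg p2.le hZ.le)
          apply mul_le_mul _ h3 hqk (by linarith)
          linarith
      _ = 3 * exp (3 * b) * L * (exp (-(b / 2) * L) * exp (b / 8 * L) * Z) := by ring
      _ ≤ exp (b / 8 * L) * (exp (-(b / 2) * L) * exp (b / 8 * L) * Z) := by
          apply mul_le_mul_of_nonneg_right h5
          exact mul_nonneg (mul_nonneg p1.le p2.le) hZ.le
      _ = exp (-(b / 4) * L) * Z := by
          rw [← mul_assoc, ← mul_assoc, ← exp_add, ← exp_add]; ring_nf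
      _ ≤ (exp (b / 4 * L₀) + 1) * exp (-(b / 4) * L) * Z := by
          have h7 : 0 < exp (-(b / 4) * L) * Z := mul_pos p4 hZ
          nlinarith

/-- finite-volume decay for the model -/
theorem fv_decay (β : ℝ) (hβ : 0 < β) : ∃ C c : ℝ, 0 < C ∧ 0 < c ∧
    ∀ (L : ℕ) (η : Vtx → Bool),
      |∑ τ : (box L) → Bool, sp (glue (box L) τ η (0, 0)) * fvp β (box L) η τ|
        ≤ C * exp (-c * L) := by
  obtain ⟨C, c, hC, hc, h⟩ := Fd_decay (-β / 2) (by linarith)
  refine ⟨C, c, hC, hc, ?_⟩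
  intro L η
  rw [fv_eq β (box L) (TB L)]
  · have hZ : 0 < Zd (-β / 2) (TB L) (box L) η nofZ := Zd_pos _ _ _ _ _
    rw [abs_div, abs_of_pos hZ, div_le_iff₀ hZ]
    exact h L η
  · intro t ht
    rw [mem_box, mem_box, mem_box] at ht
    rw [mem_TB]
    simp only [tb, tc] at ht
    omega

end Pool.Agent.AFIsing
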