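import Mathlib

/-!
Module C2 (gap lemma) of MP_a5ec60_pr: the compression of a Toeplitz matrix with decreasing odd
symbol to an even set of sites has a spectral gap.

The proof avoids the spectral theorem.  A maximal nonnegative subspace of the twisted form on
`{∑ w = 0}` has dimension at least half; twisted back it is a subspace `S` on which the form is
at least `ε`; on the complex conjugate `T` of `S` it is at most `-ε`, and `S ⊕ T` is everything.
-/
open Complex

namespace Pool.Agent.AFIsing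

/-- half-integer momenta -/
noncomputable def th (M k : ℕ) : ℝ := (2 * (k : ℝ) + 1) * Real.pi / M

/-- the Hermitian Toeplitz matrix with symbol `K` on the antiperiodic ring of `M` sites -/
noncomputable def Hm (K : ℝ → ℝ) (M : ℕ) (x x' : ℕ) : ℂ :=
  (1 / (M : ℂ)) * ∑ k ∈ Finset.range M,
    (K (th M k) : ℂ) * Complex.exp (Complex.I * (th M k : ℂ) * ((x : ℂ) - (x' : ℂ)))

section Abstract

variable {ι : Type*} [Fintype ι]

/-- complex conjugate of a subspace -/
def cj (P : Submodule ℂ (ι → ℂ)) : Submodule ℂ (ι → ℂ) where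
  carrier := {v | star v ∈ P}
  add_mem' := by
    intro a b ha hb
    have := P.add_mem ha hb
    simpa [star_add] using this
  zero_mem' := by simp
  smul_mem' := by
    intro c v hv
    have := P.smul_mem (star c) hv
    simpa [star_smul] using this

theorem mem_cj {P : Submodule ℂ (ι → ℂ)} {v : ι → ℂ} : v ∈ cj P ↔ star v ∈ P := Iff.rfl

theorem finrank_cj (P : Submodule ℂ (ι → ℂ)) : Module.finrank ℂ (cj P) = Module.finrank ℂ P := by
  unfold Module.finrank
  congr 1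
  refine rank_eq_of_equiv_equiv (R := ℂ) (R' := ℂ) (starRingEnd ℂ)
    { toFun := fun v => ⟨star v.1, v.2⟩
      invFun := fun v => ⟨star v.1, by
        show star (star v.1) ∈ P
        rw [star_star]; exact v.2⟩
      left_inv := fun v => by ext1; simp
      right_inv := fun v => by ext1; simp
      map_add' := fun v w => by ext1; simp } ?_ ?_
  · exact (starRingEnd ℂ).injective.comp Function.injective_id |> fun h =>
      ⟨(starRingEnd ℂ).injective, fun z => ⟨starRingEnd ℂ z, by simp⟩⟩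
  · intro r m
    ext1
    simp

/-- the sesquilinear form attached to a family of functionals and real weights -/
noncomputable def bf (s : Finset ℕ) (κ : ℕ → ℝ) (ℓ : ℕ → ((ι → ℂ) →ₗ[ℂ] ℂ)) (v : ι → ℂ) :
    (ι → ℂ) →ₗ[ℂ] ℂ :=
  ∑ k ∈ s, ((κ k : ℂ) * starRingEnd ℂ (ℓ k v)) • ℓ k

/-- the quadratic form -/
noncomputable def qf (s : Finset ℕ) (κ : ℕ → ℝ) (ℓ : ℕ → ((ι → ℂ) →ₗ[ℂ] ℂ)) (v : ι → ℂ) : ℝ :=
  ∑ k ∈ s, κ k * ‖ℓ k v‖ ^ 2

omit [Fintype ι] in
theorem qf_add (s : Finset ℕ) (κ : ℕ → ℝ) (ℓ : ℕ → ((ι → ℂ) →ₗ[ℂ] ℂ)) (v w : ι → ℂ) :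
    qf s κ ℓ (v + w) = qf s κ ℓ v + qf s κ ℓ w + 2 * (bf s κ ℓ v w).re := by
  unfold qf bf
  simp only [LinearMap.sum_apply, LinearMap.smul_apply, smul_eq_mul, Complex.re_sum,
    Finset.mul_sum, ← Finset.sum_add_distrib]
  refine Finset.sum_congr rfl fun k _ => ?_
  rw [map_add]
  have h : ∀ z : ℂ, ‖z‖ ^ 2 = z.re ^ 2 + z.im ^ 2 := fun z => by
    rw [← Complex.normSq_eq_norm_sq, Complex.normSq_apply]; ring
  rw [h, h, h]
  simp
  ring

omit [Fintype ι] in
theorem qf_smul (s : Finset ℕ) (κ : ℕ → ℝ) (ℓ : ℕ → ((ι → ℂ) →ₗ[ℂ] ℂ)) (c : ℂ) (w : ι → ℂ) :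
    qf s κ ℓ (c • w) = ‖c‖ ^ 2 * qf s κ ℓ w := by
  unfold qf
  rw [Finset.mul_sum]
  refine Finset.sum_congr rfl fun k _ => ?_
  rw [map_smul, smul_eq_mul, norm_mul]
  ring

omit [Fintype ι] in
theorem bf_self (s : Finset ℕ) (κ : ℕ → ℝ) (ℓ : ℕ → ((ι → ℂ) →ₗ[ℂ] ℂ)) (v : ι → ℂ) :
    (bf s κ ℓ v v).re = qf s κ ℓ v := by
  unfold qf bf
  simp only [LinearMap.sum_apply, LinearMap.smul_apply, smul_eq_mul, Complex.re_sum]
  refine Finset.sum_congr rfl fun k _ => ?_
  have h : ∀ z : ℂ, ‖z‖ ^ 2 = z.re ^ 2 + z.im ^ 2 := fun z => by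
    rw [← Complex.normSq_eq_norm_sq, Complex.normSq_apply]; ring
  rw [h]
  simp
  ring

omit [Fintype ι] in
theorem bf_add (s : Finset ℕ) (κ : ℕ → ℝ) (ℓ : ℕ → ((ι → ℂ) →ₗ[ℂ] ℂ)) (v w u : ι → ℂ) :
    bf s κ ℓ (v + w) u = bf s κ ℓ v u + bf s κ ℓ w u := by
  unfold bf
  simp only [LinearMap.sum_apply, LinearMap.smul_apply, smul_eq_mul, map_add,
    ← Finset.sum_add_distrib]
  refine Finset.sum_congr rfl fun k _ => ?_
  ring

omit [Fintype ι] in
theorem bf_smul (s : Finset ℕ) (κ : ℕ → ℝ) (ℓ : ℕ → ((ι → ℂ) →ₗ[ℂ] ℂ)) (c : ℂ) (w u : ι → ℂ) :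
    bf s κ ℓ (c • w) u = starRingEnd ℂ c * bf s κ ℓ w u := by
  unfold bf
  simp only [LinearMap.sum_apply, LinearMap.smul_apply, smul_eq_mul, map_smul, map_mul,
    Finset.mul_sum]
  refine Finset.sum_congr rfl fun k _ => ?_
  ring

/-- the orthogonal of `P` inside `W` has dimension at least `dim W - dim P` -/
theorem exists_orth (s : Finset ℕ) (κ : ℕ → ℝ) (ℓ : ℕ → ((ι → ℂ) →ₗ[ℂ] ℂ))
    (W P : Submodule ℂ (ι → ℂ)) :
    ∃ Q : Submodule ℂ (ι → ℂ), Q ≤ W ∧ (∀ p ∈ P, ∀ w ∈ Q, bf s κ ℓ p w = 0) ∧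
      Module.finrank ℂ W ≤ Module.finrank ℂ P + Module.finrank ℂ Q := by
  classical
  let b := Module.finBasis ℂ P
  let L : W →ₗ[ℂ] (Fin (Module.finrank ℂ P) → ℂ) :=
    LinearMap.pi fun j => (bf s κ ℓ (b j : ι → ℂ)).comp W.subtype
  refine ⟨(LinearMap.ker L).map W.subtype, ?_, ?_, ?_⟩
  · rintro _ ⟨w, _, rfl⟩
    exact w.2
  · rintro p hp _ ⟨w, hw, rfl⟩
    have hw0 : ∀ j, bf s κ ℓ (b j : ι → ℂ) (w : ι → ℂ) = 0 := by
      intro j
      have h1 : L w = 0 := hw
      have := congrFun h1 j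
      simpa [L] using this
    have hrep : (p : ι → ℂ) = ∑ j, (b.repr ⟨p, hp⟩ j) • (b j : ι → ℂ) := by
      have := congrArg P.subtype (b.sum_repr ⟨p, hp⟩)
      rw [map_sum] at this
      simp only [map_smul, Submodule.subtype_apply] at this
      exact this.symm
    have hsum : ∀ (t : Finset (Fin (Module.finrank ℂ P))) (f : Fin (Module.finrank ℂ P) → ℂ),
        bf s κ ℓ (∑ j ∈ t, f j • (b j : ι → ℂ)) (w : ι → ℂ) = 0 := by
      intro t f
      induction t using Finset.induction_on with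
      | empty => simp [bf]
      | insert a t ha ih =>
        rw [Finset.sum_insert ha, bf_add, bf_smul, hw0, ih]; simp
    rw [hrep]
    exact hsum _ _
  · rw [Submodule.finrank_map_subtype_eq]
    have h1 := LinearMap.finrank_range_add_finrank_ker L
    have h2 : Module.finrank ℂ (LinearMap.range L) ≤ Module.finrank ℂ P := by
      refine (Submodule.finrank_le _).trans ?_
      simp
    omega

/-- A form which changes sign under complex conjugation has a nonnegative subspace of at least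
half the dimension. -/
theorem exists_nonneg (s : Finset ℕ) (κ : ℕ → ℝ) (ℓ : ℕ → ((ι → ℂ) →ₗ[ℂ] ℂ))
    (W : Submodule ℂ (ι → ℂ)) (hW : ∀ w ∈ W, star w ∈ W)
    (hanti : ∀ w ∈ W, qf s κ ℓ (star w) = - qf s κ ℓ w) :
    ∃ P : Submodule ℂ (ι → ℂ), P ≤ W ∧ (∀ p ∈ P, 0 ≤ qf s κ ℓ p) ∧
      Module.finrank ℂ W ≤ 2 * Module.finrank ℂ P := by
  classical
  let S : Set ℕ := {n | ∃ P : Submodule ℂ (ι → ℂ), P ≤ W ∧ (∀ p ∈ P, 0 ≤ qf s κ ℓ p) ∧
    Module.finrank ℂ P = n}
  have hS0 : (0 : ℕ) ∈ S := by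
    refine ⟨⊥, bot_le, ?_, by simp⟩
    intro p hp
    rw [Submodule.mem_bot] at hp
    subst hp
    simp [qf]
  have hSb : BddAbove S := by
    refine ⟨Module.finrank ℂ (ι → ℂ), ?_⟩
    rintro n ⟨P, _, _, rfl⟩
    exact Submodule.finrank_le _
  obtain ⟨P, hPW, hP0, hPn⟩ : sSup S ∈ S := Nat.sSup_mem ⟨0, hS0⟩ hSb
  have hmax : ∀ P' : Submodule ℂ (ι → ℂ), P' ≤ W → (∀ p ∈ P', 0 ≤ qf s κ ℓ p) →
      Module.finrank ℂ P' ≤ Module.finrank ℂ P := by
    intro P' h1 h2
    rw [hPn]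
    exact le_csSup hSb ⟨P', h1, h2, rfl⟩
  refine ⟨P, hPW, hP0, ?_⟩
  obtain ⟨Q, hQW, hQ0, hQd⟩ := exists_orth s κ ℓ W P
  have hQneg : ∀ w ∈ Q, qf s κ ℓ w ≤ 0 := by
    intro w hw
    by_contra hcon
    push Not at hcon
    have hwP : w ∉ P := by
      intro hwP
      have := hQ0 w hwP w hw
      rw [← bf_self, this] at hcon
      simp at hcon
    have hlt : P < P ⊔ Submodule.span ℂ {w} := by
      refine lt_of_le_of_ne le_sup_left ?_
      intro h
      apply hwP
      rw [h]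
      exact Submodule.mem_sup_right (Submodule.mem_span_singleton_self w)
    have h1 := Submodule.finrank_lt_finrank_of_lt hlt
    have h2 := hmax (P ⊔ Submodule.span ℂ {w}) ?_ ?_
    · omega
    · refine sup_le hPW ?_
      rw [Submodule.span_singleton_le_iff_mem]
      exact hQW hw
    · intro p hp
      obtain ⟨a, ha, b, hb, rfl⟩ := Submodule.mem_sup.1 hp
      obtain ⟨c, rfl⟩ := Submodule.mem_span_singleton.1 hb
      rw [qf_add, qf_smul]
      have : bf s κ ℓ a (c • w) = 0 := by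
        rw [map_smul, hQ0 a ha w hw, smul_zero]
      rw [this]
      have := hP0 a ha
      simp only [Complex.zero_re, mul_zero, add_zero]
      positivity
  have h3 := hmax (cj Q) ?_ ?_
  · rw [finrank_cj] at h3
    omega
  · intro w hw
    have := hW _ (hQW hw)
    rwa [star_star] at this
  · intro w hw
    have h4 := hQneg _ hw
    have h5 := hanti _ (hQW hw)
    rw [star_star] at h5
    rw [h5]
    linarith

/-- sum of squares -/
noncomputable def nsq (v : ι → ℂ) : ℝ := ∑ x, ‖v x‖ ^ 2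

theorem nsq_nonneg (v : ι → ℂ) : 0 ≤ nsq v := Finset.sum_nonneg fun x _ => by positivity

theorem nsq_parallelogram (a b : ι → ℂ) : nsq (a + b) + nsq (a - b) = 2 * (nsq a + nsq b) := by
  unfold nsq
  rw [← Finset.sum_add_distrib, ← Finset.sum_add_distrib, Finset.mul_sum]
  refine Finset.sum_congr rfl fun x _ => ?_
  have h : ∀ z : ℂ, ‖z‖ ^ 2 = z.re ^ 2 + z.im ^ 2 := fun z => by
    rw [← Complex.normSq_eq_norm_sq, Complex.normSq_apply]; ring
  rw [h, h, h, h]
  simp
  ring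

theorem nsq_star (v : ι → ℂ) : nsq (star v) = nsq v := by
  unfold nsq
  simp

theorem cauchy (w u : ι → ℂ) :
    (∑ x, starRingEnd ℂ (w x) * u x).re ^ 2 ≤ nsq w * nsq u := by
  have h1 : |(∑ x, starRingEnd ℂ (w x) * u x).re| ≤ ∑ x, ‖w x‖ * ‖u x‖ := by
    refine (Complex.abs_re_le_norm _).trans ((norm_sum_le _ _).trans ?_)
    refine Finset.sum_le_sum fun x _ => ?_
    rw [norm_mul, RCLike.norm_conj]
  have h2 := Finset.sum_mul_sq_le_sq_mul_sq Finset.univ (fun x => ‖w x‖) (fun x => ‖u x‖)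
  calc (∑ x, starRingEnd ℂ (w x) * u x).re ^ 2
      = |(∑ x, starRingEnd ℂ (w x) * u x).re| ^ 2 := (sq_abs _).symm
    _ ≤ (∑ x, ‖w x‖ * ‖u x‖) ^ 2 := by gcongr
    _ ≤ _ := h2

theorem final_abs (s : Finset ℕ) (κ : ℕ → ℝ) (ℓ : ℕ → ((ι → ℂ) →ₗ[ℂ] ℂ))
    (H : (ι → ℂ) → (ι → ℂ)) (hH : ∀ v w, bf s κ ℓ v w = ∑ x, starRingEnd ℂ (v x) * H w x)
    (S T : Submodule ℂ (ι → ℂ)) (hST : S ⊔ T = ⊤) (ε : ℝ) (hε : 0 ≤ ε)
    (hS : ∀ v ∈ S, ε * nsq v ≤ qf s κ ℓ v) (hT : ∀ v ∈ T, qf s κ ℓ v ≤ - (ε * nsq v))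
    (v : ι → ℂ) : ε ^ 2 * nsq v ≤ nsq (H v) := by
  obtain ⟨a, ha, b, hb, hab⟩ := Submodule.mem_sup.1 (show v ∈ S ⊔ T by rw [hST]; trivial)
  have hsub : a - b = a + (-1 : ℂ) • b := by
    rw [neg_one_smul, sub_eq_add_neg]
  have hre : (bf s κ ℓ (a - b) v).re = qf s κ ℓ a - qf s κ ℓ b := by
    have h1 := qf_add s κ ℓ a b
    have h2 := qf_add s κ ℓ b a
    rw [add_comm b a] at h2
    rw [hsub, bf_add, bf_smul, ← hab, map_add, map_add]
    have h3 : (starRingEnd ℂ) (-1 : ℂ) = -1 := by simp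
    rw [h3]
    have h4 := bf_self s κ ℓ a
    have h5 := bf_self s κ ℓ b
    simp only [Complex.add_re, neg_mul, one_mul, Complex.neg_re]
    linarith
  have hlow : ε * (nsq a + nsq b) ≤ (bf s κ ℓ (a - b) v).re := by
    rw [hre]
    have := hS a ha
    have := hT b hb
    linarith
  have hcs := cauchy (a - b) (H v)
  rw [← hH] at hcs
  have hpar := nsq_parallelogram a b
  rw [hab] at hpar
  have hna := nsq_nonneg a
  have hnb := nsq_nonneg b
  have hnv := nsq_nonneg v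
  have hnw := nsq_nonneg (a - b)
  have hnH := nsq_nonneg (H v)
  have hsq : (ε * (nsq a + nsq b)) ^ 2 ≤ nsq (a - b) * nsq (H v) := by
    refine le_trans ?_ hcs
    have : 0 ≤ ε * (nsq a + nsq b) := by positivity
    gcongr
  have hamgm : nsq v * nsq (a - b) ≤ (nsq a + nsq b) ^ 2 := by
    have : nsq a + nsq b = (nsq v + nsq (a - b)) / 2 := by linarith
    rw [this]
    nlinarith [sq_nonneg (nsq v - nsq (a - b))]
  have hkey : nsq (a - b) * (ε ^ 2 * nsq v) ≤ nsq (a - b) * nsq (H v) := by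
    calc nsq (a - b) * (ε ^ 2 * nsq v) = ε ^ 2 * (nsq v * nsq (a - b)) := by ring
      _ ≤ ε ^ 2 * (nsq a + nsq b) ^ 2 := by gcongr
      _ = (ε * (nsq a + nsq b)) ^ 2 := by ring
      _ ≤ _ := hsq
  rcases hnw.lt_or_eq with h0 | h0
  · exact le_of_mul_le_mul_left hkey h0
  · have hz : a - b = 0 := by
      have h1 : ∀ x ∈ Finset.univ, ‖(a - b) x‖ ^ 2 = 0 :=
        (Finset.sum_eq_zero_iff_of_nonneg (fun x _ => by positivity)).1 h0.symm
      funext x
      have := h1 x (Finset.mem_univ x)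
      simpa using this
    have hab' : a = b := sub_eq_zero.1 hz
    subst hab'
    have h1 := hS a ha
    have h2 := hT a hb
    have h3 : ε * nsq a ≤ 0 := by linarith
    have h4 : nsq v = 2 * (nsq a + nsq a) := by
      rw [← h0] at hpar
      linarith
    rw [h4]
    nlinarith

end Abstract

section Concrete

variable (A : Finset ℕ)

/-- Fourier functional at momentum `θ` -/
noncomputable def Lf (θ : ℝ) : (A → ℂ) →ₗ[ℂ] ℂ :=
  ∑ x : A, Complex.exp (-(Complex.I * (θ : ℂ) * ((x : ℕ) : ℂ))) • LinearMap.proj x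

theorem Lf_apply (θ : ℝ) (w : A → ℂ) :
    Lf A θ w = ∑ x : A, Complex.exp (-(Complex.I * (θ : ℂ) * ((x : ℕ) : ℂ))) * w x := by
  simp [Lf]

theorem Lf_star (θ : ℝ) (w : A → ℂ) :
    Lf A θ (star w) = starRingEnd ℂ (Lf A (2 * Real.pi - θ) w) := by
  rw [Lf_apply, Lf_apply, map_sum]
  refine Finset.sum_congr rfl fun x _ => ?_
  rw [map_mul, ← Complex.exp_conj]
  have h1 : (starRingEnd ℂ) (-(Complex.I * ((2 * Real.pi - θ : ℝ) : ℂ) * ((x : ℕ) : ℂ)))
      = -(Complex.I * (θ : ℂ) * ((x : ℕ) : ℂ)) + ((x : ℕ) : ℂ) * (2 * Real.pi * Complex.I) := by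
    simp only [map_neg, map_mul, Complex.conj_I, Complex.conj_ofReal, Complex.conj_natCast]
    push_cast
    ring
  rw [h1, Complex.exp_add, Complex.exp_nat_mul_two_pi_mul_I, mul_one]
  simp

theorem norm_Lf_star (θ : ℝ) (w : A → ℂ) :
    ‖Lf A θ (star w)‖ = ‖Lf A (2 * Real.pi - θ) w‖ := by
  rw [Lf_star, RCLike.norm_conj]

/-- twist by half a momentum step -/
noncomputable def tw (M : ℕ) : (A → ℂ) ≃ₗ[ℂ] (A → ℂ) where
  toFun w x := Complex.exp (Complex.I * ((Real.pi / M : ℝ) : ℂ) * ((x : ℕ) : ℂ)) * w x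
  invFun w x := Complex.exp (-(Complex.I * ((Real.pi / M : ℝ) : ℂ) * ((x : ℕ) : ℂ))) * w x
  left_inv w := by
    funext x
    show Complex.exp _ * (Complex.exp _ * w x) = w x
    rw [← mul_assoc, ← Complex.exp_add]
    simp
  right_inv w := by
    funext x
    show Complex.exp _ * (Complex.exp _ * w x) = w x
    rw [← mul_assoc, ← Complex.exp_add]
    simp
  map_add' v w := by
    funext x
    show Complex.exp _ * (v x + w x) = Complex.exp _ * v x + Complex.exp _ * w x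
    ring
  map_smul' c w := by
    funext x
    show Complex.exp _ * (c * w x) = c * (Complex.exp _ * w x)
    ring

theorem Lf_tw (M : ℕ) (θ : ℝ) (w : A → ℂ) : Lf A (θ + Real.pi / M) (tw A M w) = Lf A θ w := by
  rw [Lf_apply, Lf_apply]
  refine Finset.sum_congr rfl fun x _ => ?_
  show Complex.exp _ * (Complex.exp _ * w x) = _
  rw [← mul_assoc, ← Complex.exp_add]
  congr 2
  push_cast
  ring

theorem geom_zero (M : ℕ) (hM : 0 < M) (d : ℤ) (hd : d ≠ 0) (hd2 : |d| < M) :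
    ∑ k ∈ Finset.range M, Complex.exp (Complex.I * (th M k : ℂ) * (d : ℂ)) = 0 := by
  have hM0 : (M : ℂ) ≠ 0 := by exact_mod_cast hM.ne'
  set r : ℂ := Complex.exp (2 * Real.pi * Complex.I * (d : ℂ) / M) with hr
  have h1 : ∀ k : ℕ, Complex.exp (Complex.I * (th M k : ℂ) * (d : ℂ))
      = Complex.exp (Complex.I * Real.pi * d / M) * r ^ k := by
    intro k
    rw [hr, ← Complex.exp_nat_mul, ← Complex.exp_add]
    congr 1
    unfold th
    push_cast
    field_simp
    ring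
  simp_rw [h1]
  rw [← Finset.mul_sum]
  have hrM : r ^ M = 1 := by
    rw [hr, ← Complex.exp_nat_mul]
    rw [show (M : ℂ) * (2 * Real.pi * Complex.I * (d : ℂ) / M) = d * (2 * Real.pi * Complex.I) by
      field_simp]
    exact Complex.exp_int_mul_two_pi_mul_I d
  have hr1 : r ≠ 1 := by
    intro h
    obtain ⟨n, hn⟩ := Complex.exp_eq_one_iff.1 h
    have h2 : (d : ℂ) = n * M := by
      have hpi : (2 * Real.pi * Complex.I : ℂ) ≠ 0 := by
        simp [Real.pi_ne_zero]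
      have : (2 * Real.pi * Complex.I : ℂ) * (d / M) = (2 * Real.pi * Complex.I) * n := by
        rw [← mul_div_assoc]
        rw [hn]
        ring
      have h3 := mul_left_cancel₀ hpi this
      field_simp at h3
      rw [h3, mul_comm]
    have h3 : d = n * M := by exact_mod_cast h2
    have hn0 : n ≠ 0 := by
      rintro rfl
      simp at h3
      exact hd h3
    have : (M : ℤ) ≤ |d| := by
      rw [h3, abs_mul]
      have h4 : 1 ≤ |n| := Int.one_le_abs hn0
      have h5 : |(M : ℤ)| = M := abs_of_nonneg (by positivity)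
      rw [h5]
      nlinarith
    omega
  have := geom_sum_eq hr1 M
  rw [this, hrM]
  simp

theorem parseval (M : ℕ) (hM : 0 < M) (hA : A ⊆ Finset.range M) (v : A → ℂ) :
    ∑ k ∈ Finset.range M, ‖Lf A (th M k) v‖ ^ 2 = M * nsq v := by
  have key : (∑ k ∈ Finset.range M, ((‖Lf A (th M k) v‖ ^ 2 : ℝ) : ℂ)) = ((M * nsq v : ℝ) : ℂ) := by
    have h1 : ∀ k, ((‖Lf A (th M k) v‖ ^ 2 : ℝ) : ℂ)
        = ∑ x : A, ∑ x' : A, starRingEnd ℂ (v x) * v x' *
          Complex.exp (Complex.I * (th M k : ℂ) * ((((x : ℕ) : ℤ) - ((x' : ℕ) : ℤ) : ℤ) : ℂ)) := by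
      intro k
      have h2 : ((‖Lf A (th M k) v‖ ^ 2 : ℝ) : ℂ)
          = starRingEnd ℂ (Lf A (th M k) v) * Lf A (th M k) v := by
        rw [Complex.conj_mul']
        push_cast
        rfl
      rw [h2, Lf_apply, map_sum, Finset.sum_mul_sum]
      refine Finset.sum_congr rfl fun x _ => Finset.sum_congr rfl fun x' _ => ?_
      rw [map_mul, ← Complex.exp_conj]
      have h3 : Complex.exp (Complex.I * (th M k : ℂ) * ((((x : ℕ) : ℤ) - ((x' : ℕ) : ℤ) : ℤ) : ℂ))
          = Complex.exp ((starRingEnd ℂ) (-(Complex.I * (th M k : ℂ) * ((x : ℕ) : ℂ))))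
            * Complex.exp (-(Complex.I * (th M k : ℂ) * ((x' : ℕ) : ℂ))) := by
        rw [← Complex.exp_add]
        congr 1
        simp only [map_neg, map_mul, Complex.conj_I, Complex.conj_ofReal, Complex.conj_natCast]
        push_cast
        ring
      rw [h3]
      ring
    simp_rw [h1]
    rw [Finset.sum_comm]
    unfold nsq
    push_cast
    rw [Finset.mul_sum]
    refine Finset.sum_congr rfl fun x _ => ?_
    rw [Finset.sum_comm]
    rw [Finset.sum_eq_single x]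
    · simp only [sub_self, mul_zero, Complex.exp_zero, mul_one, Finset.sum_const,
        Finset.card_range, nsmul_eq_mul]
      rw [Complex.conj_mul']
    · intro x' _ hx'
      rw [← Finset.mul_sum]
      have h0 := geom_zero M hM (((x : ℕ) : ℤ) - ((x' : ℕ) : ℤ)) ?_ ?_
      · push_cast at h0
        rw [h0, mul_zero]
      · intro h
        apply hx'
        have : ((x : ℕ) : ℤ) = ((x' : ℕ) : ℤ) := by linarith
        have : (x : ℕ) = (x' : ℕ) := by exact_mod_cast this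
        exact Subtype.ext this.symm
      · have h1 := Finset.mem_range.1 (hA x.2)
        have h2 := Finset.mem_range.1 (hA x'.2)
        rw [abs_lt]
        constructor <;> omega
    · intro h
      exact absurd (Finset.mem_univ x) h
  exact_mod_cast key

/-- zero-sum vectors -/
def W0 : Submodule ℂ (A → ℂ) := LinearMap.ker (∑ x : A, LinearMap.proj (R := ℂ) (φ := fun _ : A => ℂ) x)

theorem mem_W0 {w : A → ℂ} : w ∈ W0 A ↔ ∑ x, w x = 0 := by
  simp [W0]

theorem finrank_W0 : A.card ≤ Module.finrank ℂ (W0 A) + 1 := by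
  have h := LinearMap.finrank_range_add_finrank_ker
    (∑ x : A, LinearMap.proj (R := ℂ) (φ := fun _ : A => ℂ) x)
  have h1 : Module.finrank ℂ (LinearMap.range
      (∑ x : A, LinearMap.proj (R := ℂ) (φ := fun _ : A => ℂ) x)) ≤ 1 := by
    refine (Submodule.finrank_le _).trans ?_
    simp
  have h2 : Module.finrank ℂ (A → ℂ) = A.card := by simp
  rw [h2] at h
  unfold W0
  omega

/-- integer momenta -/
noncomputable def ph (M k : ℕ) : ℝ := 2 * (k : ℝ) * Real.pi / M

theorem bf_eq (K : ℝ → ℝ) (M : ℕ) (v w : A → ℂ) :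
    bf (Finset.range M) (fun k => K (th M k) / M) (fun k => Lf A (th M k)) v w
      = ∑ x : A, starRingEnd ℂ (v x) * ∑ x' : A, Hm K M x x' * w x' := by
  unfold bf
  simp only [LinearMap.sum_apply, LinearMap.smul_apply, smul_eq_mul]
  have h1 : ∀ k ∈ Finset.range M,
      (((K (th M k) / M : ℝ) : ℂ) * starRingEnd ℂ (Lf A (th M k) v)) * Lf A (th M k) w
      = ∑ x : A, ∑ x' : A, starRingEnd ℂ (v x) * ((1 / (M : ℂ)) * ((K (th M k) : ℂ) *
        Complex.exp (Complex.I * (th M k : ℂ) * (((x : ℕ) : ℂ) - ((x' : ℕ) : ℂ)))) * w x') := by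
    intro k _
    rw [Lf_apply, Lf_apply, map_sum, mul_assoc, Finset.sum_mul_sum, Finset.mul_sum]
    refine Finset.sum_congr rfl fun x _ => ?_
    rw [Finset.mul_sum]
    refine Finset.sum_congr rfl fun x' _ => ?_
    rw [map_mul, ← Complex.exp_conj]
    have h3 : Complex.exp (Complex.I * (th M k : ℂ) * (((x : ℕ) : ℂ) - ((x' : ℕ) : ℂ)))
        = Complex.exp ((starRingEnd ℂ) (-(Complex.I * (th M k : ℂ) * ((x : ℕ) : ℂ))))
          * Complex.exp (-(Complex.I * (th M k : ℂ) * ((x' : ℕ) : ℂ))) := by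
      rw [← Complex.exp_add]
      congr 1
      simp only [map_neg, map_mul, Complex.conj_I, Complex.conj_ofReal, Complex.conj_natCast]
      ring
    rw [h3]
    push_cast
    ring
  rw [Finset.sum_congr rfl h1, Finset.sum_comm]
  refine Finset.sum_congr rfl fun x _ => ?_
  rw [Finset.sum_comm, Finset.mul_sum]
  refine Finset.sum_congr rfl fun x' _ => ?_
  rw [← Finset.mul_sum, ← Finset.sum_mul]
  unfold Hm
  rw [Finset.mul_sum]

end Concrete

theorem gap (K : ℝ → ℝ) (c : ℝ) (hc : 0 < c)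
    (hodd : ∀ θ : ℝ, 0 < θ → θ < 2 * Real.pi → K (2 * Real.pi - θ) = - K θ)
    (hmono : ∀ θ θ' : ℝ, 0 < θ → θ < θ' → θ' < 2 * Real.pi → c * (θ' - θ) ≤ K θ - K θ')
    (M : ℕ) (hM : 2 ≤ M) (hMe : Even M)
    (A : Finset ℕ) (hA : A ⊆ Finset.range M) (hAe : Even A.card) (v : ℕ → ℂ) :
    (c * Real.pi / M) ^ 2 * ∑ x ∈ A, ‖v x‖ ^ 2
      ≤ ∑ x ∈ A, ‖∑ x' ∈ A, Hm K M x x' * v x'‖ ^ 2 := by
  have hM0 : (0 : ℝ) < M := by positivity
  have hpi := Real.pi_pos
  set ε : ℝ := c * Real.pi / M with hε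
  have hεpos : 0 < ε := by positivity
  -- the two forms
  set κ : ℕ → ℝ := fun k => K (th M k) / M with hκ
  set ℓ : ℕ → ((A → ℂ) →ₗ[ℂ] ℂ) := fun k => Lf A (th M k) with hℓ
  set κ' : ℕ → ℝ := fun k => K (ph M k) / M with hκ'
  set ℓ' : ℕ → ((A → ℂ) →ₗ[ℂ] ℂ) := fun k => Lf A (ph M k) with hℓ'
  have hthpos : ∀ k, 0 < th M k := fun k => by unfold th; positivity
  have hthlt : ∀ k, k < M → th M k < 2 * Real.pi := fun k hk => by
    unfold th
    rw [div_lt_iff₀ hM0]
    have : (k : ℝ) + 1 ≤ M := by exact_mod_cast hk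
    nlinarith
  have hphpos : ∀ k, 0 < k → 0 < ph M k := fun k hk => by unfold ph; positivity
  have hphlt : ∀ k, k < M → ph M k < 2 * Real.pi := fun k hk => by
    unfold ph
    rw [div_lt_iff₀ hM0]
    have : (k : ℝ) < M := by exact_mod_cast hk
    nlinarith
  -- sign change of the first form
  have hanti : ∀ w : A → ℂ, qf (Finset.range M) κ ℓ (star w) = - qf (Finset.range M) κ ℓ w := by
    intro w
    unfold qf
    rw [← Finset.sum_range_reflect, ← Finset.sum_neg_distrib]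
    refine Finset.sum_congr rfl fun k hk => ?_
    have hk' := Finset.mem_range.1 hk
    have h1 : th M (M - 1 - k) = 2 * Real.pi - th M k := by
      unfold th
      have : ((M - 1 - k : ℕ) : ℝ) = M - 1 - k := by
        rw [Nat.sub_sub, Nat.cast_sub (by omega)]
        push_cast
        ring
      rw [this]
      field_simp
      ring
    simp only [hκ, hℓ]
    rw [norm_Lf_star, h1, hodd _ (hthpos k) (hthlt k hk')]
    rw [show 2 * Real.pi - (2 * Real.pi - th M k) = th M k by ring]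
    ring
  -- sign change of the second form
  have hanti' : ∀ w : A → ℂ, qf (Finset.Ico 1 M) κ' ℓ' (star w) = - qf (Finset.Ico 1 M) κ' ℓ' w := by
    intro w
    unfold qf
    have hrefl := Finset.sum_Ico_reflect (fun k => κ' k * ‖ℓ' k (star w)‖ ^ 2) 1
      (m := M) (n := M) (by omega)
    rw [show M + 1 - M = 1 by omega, show M + 1 - 1 = M by omega] at hrefl
    rw [← hrefl, ← Finset.sum_neg_distrib]
    refine Finset.sum_congr rfl fun k hk => ?_
    have hk' := Finset.mem_Ico.1 hk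
    have h1 : ph M (M - k) = 2 * Real.pi - ph M k := by
      unfold ph
      rw [Nat.cast_sub (by omega)]
      field_simp
    simp only [hκ', hℓ']
    rw [norm_Lf_star, h1, hodd _ (hphpos k (by omega)) (hphlt k hk'.2)]
    rw [show 2 * Real.pi - (2 * Real.pi - ph M k) = ph M k by ring]
    ring
  -- comparison
  have hcomp : ∀ w : A → ℂ, tw A M w ∈ W0 A →
      qf (Finset.Ico 1 M) κ' ℓ' (tw A M w) + ε * nsq w ≤ qf (Finset.range M) κ ℓ w := by
    intro w hw
    have hpar := parseval A M (by omega) hA w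
    have hstep : ∀ k, th M k + Real.pi / M = ph M (k + 1) := by
      intro k
      unfold th ph
      push_cast
      field_simp
      ring
    have hL : ∀ k, ℓ k w = ℓ' (k + 1) (tw A M w) := by
      intro k
      simp only [hℓ, hℓ']
      rw [← hstep, Lf_tw]
    have hlast : ℓ' M (tw A M w) = 0 := by
      simp only [hℓ']
      rw [Lf_apply]
      rw [mem_W0] at hw
      rw [← hw]
      refine Finset.sum_congr rfl fun x _ => ?_
      have h2 : -(Complex.I * ((ph M M : ℝ) : ℂ) * ((x : ℕ) : ℂ))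
          = ((-(x : ℕ) : ℤ) : ℂ) * (2 * Real.pi * Complex.I) := by
        unfold ph
        have : (M : ℂ) ≠ 0 := by exact_mod_cast hM0.ne'
        push_cast
        field_simp
      rw [h2, Complex.exp_int_mul_two_pi_mul_I, one_mul]
    obtain ⟨m, rfl⟩ : ∃ m, M = m + 1 := ⟨M - 1, by omega⟩
    have hnsq : nsq w = ∑ k ∈ Finset.range m, ‖ℓ k w‖ ^ 2 / ((m + 1 : ℕ) : ℝ) := by
      rw [← Finset.sum_div]
      rw [eq_div_iff hM0.ne', mul_comm, ← hpar, Finset.sum_range_succ]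
      have : ‖Lf A (th (m + 1) m) w‖ = 0 := by
        have h3 := hL m
        simp only [hℓ] at h3
        rw [h3, hlast, norm_zero]
      rw [this]
      simp [hℓ]
    have hq1 : qf (Finset.range (m + 1)) κ ℓ w = ∑ k ∈ Finset.range m, κ k * ‖ℓ k w‖ ^ 2 := by
      unfold qf
      rw [Finset.sum_range_succ, hL m, hlast]
      simp
    have hq2 : qf (Finset.Ico 1 (m + 1)) κ' ℓ' (tw A (m + 1) w)
        = ∑ k ∈ Finset.range m, κ' (k + 1) * ‖ℓ k w‖ ^ 2 := by
      unfold qf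
      rw [Finset.sum_Ico_eq_sum_range]
      refine Finset.sum_congr rfl fun k _ => ?_
      rw [hL k, add_comm 1 k]
    rw [hq1, hq2, hnsq, Finset.mul_sum, ← Finset.sum_add_distrib]
    refine Finset.sum_le_sum fun k hk => ?_
    have hk' := Finset.mem_range.1 hk
    have h4 := hmono (th (m + 1) k) (ph (m + 1) (k + 1)) (hthpos k)
      (by rw [← hstep k]; have : 0 < Real.pi / ((m + 1 : ℕ) : ℝ) := by positivity
          linarith) (hphlt _ (by omega))
    rw [← hstep k] at h4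
    have h5 : κ' (k + 1) + ε / ((m + 1 : ℕ) : ℝ) ≤ κ k := by
      simp only [hκ, hκ']
      rw [← add_div, ← hstep k]
      refine div_le_div_of_nonneg_right ?_ hM0.le
      have h6 : c * (th (m + 1) k + Real.pi / ((m + 1 : ℕ) : ℝ) - th (m + 1) k) = ε := by
        rw [hε]; ring
      linarith
    have h7 : 0 ≤ ‖ℓ k w‖ ^ 2 := by positivity
    calc κ' (k + 1) * ‖ℓ k w‖ ^ 2 + ε * (‖ℓ k w‖ ^ 2 / ((m + 1 : ℕ) : ℝ))
        = (κ' (k + 1) + ε / ((m + 1 : ℕ) : ℝ)) * ‖ℓ k w‖ ^ 2 := by ring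
      _ ≤ κ k * ‖ℓ k w‖ ^ 2 := by gcongr
  -- the nonnegative subspace of the twisted form
  obtain ⟨P, hPW, hP0, hPd⟩ := exists_nonneg (Finset.Ico 1 M) κ' ℓ' (W0 A)
    (fun w hw => by
      rw [mem_W0] at hw ⊢
      have := congrArg (starRingEnd ℂ) hw
      rw [map_sum, map_zero] at this
      exact this)
    (fun w _ => hanti' w)
  have hfr := finrank_W0 A
  have hPd2 : A.card ≤ 2 * Module.finrank ℂ P := by
    obtain ⟨r, hr⟩ := hAe
    omega
  let S : Submodule ℂ (A → ℂ) := P.map ((tw A M).symm : (A → ℂ) →ₗ[ℂ] (A → ℂ))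
  have hSfr : Module.finrank ℂ S = Module.finrank ℂ P := LinearEquiv.finrank_map_eq _ _
  have hSq : ∀ w ∈ S, ε * nsq w ≤ qf (Finset.range M) κ ℓ w := by
    rintro _ ⟨p, hp, rfl⟩
    have h1 := hcomp ((tw A M).symm p) (by simpa using hPW hp)
    rw [LinearEquiv.apply_symm_apply] at h1
    have h2 := hP0 p hp
    have h3 : ((((tw A M).symm : (A → ℂ) ≃ₗ[ℂ] (A → ℂ)) : (A → ℂ) →ₗ[ℂ] (A → ℂ)) p)
      = (tw A M).symm p := rfl
    rw [h3]
    linarith
  have hTq : ∀ w ∈ cj S, qf (Finset.range M) κ ℓ w ≤ - (ε * nsq w) := by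
    intro w hw
    have h1 := hSq _ (mem_cj.1 hw)
    rw [nsq_star, hanti] at h1
    linarith
  have hST : S ⊔ cj S = ⊤ := by
    apply Submodule.eq_top_of_disjoint
    · rw [finrank_cj, hSfr]
      simp
      omega
    · rw [Submodule.disjoint_def]
      intro w hw1 hw2
      have h1 := hSq w hw1
      have h2 := hTq w hw2
      have h3 : ε * nsq w ≤ 0 := by linarith
      have h4 : nsq w ≤ 0 := by
        by_contra hcon
        push Not at hcon
        have := mul_pos hεpos hcon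
        linarith
      have h5 : nsq w = 0 := le_antisymm h4 (nsq_nonneg w)
      have h6 : ∀ x ∈ Finset.univ, ‖w x‖ ^ 2 = 0 :=
        (Finset.sum_eq_zero_iff_of_nonneg (fun x _ => by positivity)).1 h5
      funext x
      simpa using h6 x (Finset.mem_univ x)
  have hfin := final_abs (Finset.range M) κ ℓ (fun w x => ∑ x' : A, Hm K M x x' * w x')
    (fun v w => bf_eq A K M v w) S (cj S) hST ε hεpos.le hSq hTq (fun x : A => v x)
  unfold nsq at hfin
  have e1 : ∑ x : A, ‖v x‖ ^ 2 = ∑ x ∈ A, ‖v x‖ ^ 2 := Finset.sum_coe_sort A (fun x => ‖v x‖ ^ 2)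
  have e2 : ∀ y : ℕ, ∑ x' : A, Hm K M y x' * v x' = ∑ x' ∈ A, Hm K M y x' * v x' := fun y =>
    Finset.sum_coe_sort A (fun x' => Hm K M y x' * v x')
  have e3 : ∑ x : A, ‖∑ x' : A, Hm K M x x' * v x'‖ ^ 2
      = ∑ x ∈ A, ‖∑ x' ∈ A, Hm K M x x' * v x'‖ ^ 2 := by
    simp_rw [e2]
    exact Finset.sum_coe_sort A (fun x => ‖∑ x' ∈ A, Hm K M x x' * v x'‖ ^ 2)
  rw [e1, e3] at hfin
  exact hfin

end Pool.Agent.AFIsing
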