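import Pool.Agent.AFIsing.Basic

/-!
The triangle relations for disorder sums on the triangular lattice with columns indexed by a
commutative ring `X` (`ℤ` or `ZMod M`) and rows by `ℤ`.
-/
open Real

namespace Pool.Agent.AFIsing

section lattice

variable {X : Type*} [CommRing X] [DecidableEq X]

/-- right vertex of the up-triangle `t` -/
def tb (t : X × ℤ) : X × ℤ := (t.1 + 1, t.2)
/-- top vertex of the up-triangle `t` -/
def tc (t : X × ℤ) : X × ℤ := (t.1, t.2 + 1)

/-- energy: sum over the up-triangles in `T`; in flagged triangles the right spin is flipped -/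
def En (T : Finset (X × ℤ)) (φ σ : X × ℤ → Bool) : ℝ :=
  ∑ t ∈ T, tri (sp (σ t)) (sp (φ t) * sp (σ (tb t))) (sp (σ (tc t)))

/-- vertical cut between the columns `x` and `x+1` below height `m` -/
def cut (x : X) (m : ℤ) : X × ℤ → Bool := fun t => decide (t.1 = x ∧ t.2 < m)

/-- part of a column -/
def col (x : X) (j : ℤ) : X × ℤ → Bool := fun v => decide (v.1 = x ∧ v.2 ≤ j)

/-- energy of all triangles except `(x,j)` -/
def rest (T : Finset (X × ℤ)) (x : X) (j : ℤ) (ψ σ : X × ℤ → Bool) : ℝ :=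
  En (T.erase (x, j)) (flip (cut x j) ψ) σ

lemma En_erase (T : Finset (X × ℤ)) (x : X) (j : ℤ) (h : (x, j) ∈ T) (φ σ : X × ℤ → Bool) :
    En T φ σ = En (T.erase (x, j)) φ σ
      + tri (sp (σ (x, j))) (sp (φ (x, j)) * sp (σ (x + 1, j))) (sp (σ (x, j + 1))) := by
  unfold En
  rw [← Finset.sum_erase_add T _ h]
  rfl

lemma En_cut0 (T : Finset (X × ℤ)) (x : X) (j : ℤ) (h : (x, j) ∈ T) (ψ σ : X × ℤ → Bool) :
    En T (flip (cut x j) ψ) σ = rest T x j ψ σ
      + tri (sp (σ (x, j))) (sp (ψ (x, j)) * sp (σ (x + 1, j))) (sp (σ (x, j + 1))) := by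
  rw [En_erase T x j h]
  unfold rest
  congr 4
  simp [flip, cut]

lemma En_cut1 (T : Finset (X × ℤ)) (x : X) (j : ℤ) (h : (x, j) ∈ T) (ψ σ : X × ℤ → Bool) :
    En T (flip (cut x (j + 1)) ψ) σ = rest T x j ψ σ
      + tri (sp (σ (x, j))) (-(sp (ψ (x, j)) * sp (σ (x + 1, j)))) (sp (σ (x, j + 1))) := by
  rw [En_erase T x j h]
  unfold rest
  congr 1
  · unfold En
    apply Finset.sum_congr rfl
    intro t ht
    have hne : t ≠ (x, j) := Finset.ne_of_mem_erase ht
    have : flip (cut x (j + 1)) ψ t = flip (cut x j) ψ t := by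
      unfold flip cut
      congr 1
      by_cases h1 : t.1 = x
      · have h2 : t.2 ≠ j := by
          intro h2; apply hne; ext <;> simp [h1, h2]
        simp only [h1, true_and, decide_eq_decide]
        omega
      · simp [h1]
    rw [this]
  · congr 1
    simp [flip, cut, sp_not]

lemma En_cut2 (T : Finset (X × ℤ)) (x : X) (j : ℤ) (h : (x, j) ∈ T) (ψ σ : X × ℤ → Bool)
    (h1 : (1 : X) ≠ 0) :
    En T (flip (cut (x - 1) (j + 1)) ψ) (flip (col x j) σ) = rest T x j ψ σ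
      + tri (-(sp (σ (x, j)))) (sp (ψ (x, j)) * sp (σ (x + 1, j))) (sp (σ (x, j + 1))) := by
  have hx1 : x + 1 ≠ x := by
    intro h; exact h1 (by simpa using h)
  have hx2 : x ≠ x - 1 := by
    intro h; apply h1
    have : x - (x - 1) = 0 := by rw [← h]; ring
    simpa using this
  rw [En_erase T x j h]
  unfold rest
  congr 1
  · unfold En
    apply Finset.sum_congr rfl
    intro t ht
    have hne : t ≠ (x, j) := Finset.ne_of_mem_erase ht
    unfold flip cut col tb tc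
    simp only [sp_xor]
    by_cases hx : t.1 = x
    · have h2 : t.2 ≠ j := by
        intro h2; apply hne; ext <;> simp [hx, h2]
      simp only [hx, hx2, hx1, false_and, true_and, decide_false, sp_false, one_mul]
      rcases lt_or_gt_of_ne h2 with h3 | h3
      · have e1 : t.2 ≤ j := h3.le
        have e2 : t.2 + 1 ≤ j := h3
        simp only [e1, e2, h3, decide_true, sp_true]
        unfold tri; ring
      · have e1 : ¬ t.2 ≤ j := not_le.mpr h3
        have e2 : ¬ t.2 + 1 ≤ j := by omega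
        have e3 : ¬ t.2 < j := by omega
        simp only [e1, e2, e3, decide_false, sp_false]
        unfold tri; ring
    · simp only [hx, false_and, decide_false, sp_false, one_mul]
      by_cases hx' : t.1 = x - 1
      · have e0 : t.1 + 1 = x := by rw [hx']; ring
        simp only [hx', true_and]
        by_cases e1 : t.2 ≤ j
        · have e2 : t.2 < j + 1 := by omega
          have e3 : x - 1 + 1 = x := by ring
          simp only [e1, e2, e3, decide_true, true_and, sp_true]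
          unfold tri; ring
        · have e2 : ¬ t.2 < j + 1 := by omega
          simp only [e1, e2, and_false, decide_false, sp_false]
          unfold tri; ring
      · have e0 : t.1 + 1 ≠ x := by
          intro h; apply hx'; rw [← h]; ring
        simp only [hx', e0, false_and, decide_false, sp_false]
        unfold tri; ring
  · congr 1
    · simp [flip, col, sp_not]
    · simp only [flip, cut, col, sp_xor]
      simp [hx1, hx2]
    · simp only [flip, col, sp_xor]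
      simp

variable (J : ℝ) (T : Finset (X × ℤ)) (Λ : Finset (X × ℤ))

/-- weighted sum of the spin at `u` -/
noncomputable def Fd (ξ φ : X × ℤ → Bool) (u : X × ℤ) : ℝ :=
  Sm Λ ξ (fun σ => sp (σ u) * exp (J * En T φ σ))

/-- partition function -/
noncomputable def Zd (ξ φ : X × ℤ → Bool) : ℝ :=
  Sm Λ ξ (fun σ => exp (J * En T φ σ))

lemma Zd_pos (ξ φ : X × ℤ → Bool) : 0 < Zd J T Λ ξ φ :=
  Sm_pos _ _ _ (fun _ => exp_pos _)

lemma abs_Fd_le (ξ φ : X × ℤ → Bool) (u : X × ℤ) : |Fd J T Λ ξ φ u| ≤ Zd J T Λ ξ φ := by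
  unfold Fd Zd
  apply abs_Sm_le
  intro σ _
  rw [abs_mul, abs_sp, one_mul, abs_of_pos (exp_pos _)]

/-- the part of the weight away from the triangle `(x,j)` -/
noncomputable def gw (x : X) (j : ℤ) (ψ σ : X × ℤ → Bool) : ℝ := exp (J * rest T x j ψ σ)

lemma Fd_cut0 (x : X) (j : ℤ) (h : (x, j) ∈ T) (ξ ψ : X × ℤ → Bool) (u : X × ℤ) :
    Fd J T Λ ξ (flip (cut x j) ψ) u = Sm Λ ξ (fun σ => sp (σ u) * (gw J T x j ψ σ *
      wt J (sp (σ (x, j))) (sp (ψ (x, j)) * sp (σ (x + 1, j))) (sp (σ (x, j + 1))))) := by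
  unfold Fd gw wt
  congr 1; funext σ
  rw [En_cut0 T x j h, mul_add, exp_add]

lemma Fd_cut1 (x : X) (j : ℤ) (h : (x, j) ∈ T) (ξ ψ : X × ℤ → Bool) (u : X × ℤ) :
    Fd J T Λ ξ (flip (cut x (j + 1)) ψ) u = Sm Λ ξ (fun σ => sp (σ u) * (gw J T x j ψ σ *
      wt J (sp (σ (x, j))) (-(sp (ψ (x, j)) * sp (σ (x + 1, j)))) (sp (σ (x, j + 1))))) := by
  unfold Fd gw wt
  congr 1; funext σ
  rw [En_cut1 T x j h, mul_add, exp_add]

lemma Fd_cut2 (x : X) (j : ℤ) (h : (x, j) ∈ T) (ξ ξ' ψ : X × ℤ → Bool) (u : X × ℤ)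
    (h1 : (1 : X) ≠ 0) (hξ : ∀ v ∉ Λ, ξ v = flip (col x j) ξ' v) :
    Fd J T Λ ξ' (flip (cut (x - 1) (j + 1)) ψ) u
      = Sm Λ ξ (fun σ => sp (col x j u) * sp (σ u) * (gw J T x j ψ σ *
      wt J (-sp (σ (x, j))) (sp (ψ (x, j)) * sp (σ (x + 1, j))) (sp (σ (x, j + 1))))) := by
  have hξ2 : ∀ v ∉ Λ, ξ' v = flip (col x j) ξ v := by
    intro v hv
    have := hξ v hv
    unfold flip at this ⊢
    rw [this]; simp
  unfold Fd
  rw [Sm_congr_bdry Λ ξ' _ _ hξ2, ← Sm_flip]
  congr 1; funext σ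
  rw [En_cut2 T x j h _ _ h1, mul_add, exp_add]
  simp only [flip, sp_xor, gw, wt]

/-- The three relations at the triangle `(x,j)`. -/
lemma relations (x : X) (j : ℤ) (h : (x, j) ∈ T) (ξ ξ' ψ : X × ℤ → Bool)
    (h1 : (1 : X) ≠ 0) (hξ : ∀ v ∉ Λ, ξ v = flip (col x j) ξ' v)
    (A1 A2 B1 B2 C1 C2 β : ℝ)
    (hA1 : A1 = Fd J T Λ ξ (flip (cut x j) ψ) (x, j))
    (hB1 : B1 = Fd J T Λ ξ (flip (cut x j) ψ) (x + 1, j))
    (hB2 : B2 = Fd J T Λ ξ (flip (cut x (j + 1)) ψ) (x + 1, j))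
    (hC1 : C1 = Fd J T Λ ξ (flip (cut x (j + 1)) ψ) (x, j + 1))
    (hA2 : A2 = Fd J T Λ ξ' (flip (cut (x - 1) (j + 1)) ψ) (x, j))
    (hC2 : C2 = Fd J T Λ ξ' (flip (cut (x - 1) (j + 1)) ψ) (x, j + 1))
    (hβ : β = sp (ψ (x, j))) :
    A1 + A2 = - yy J * (β * (B1 + B2) + (C1 + C2)) ∧
    β * (B1 - B2) = - yy J * ((A1 - A2) + (C1 + C2)) ∧
    C1 - C2 = - yy J * ((A1 - A2) - β * (B1 + B2)) := by
  rw [Fd_cut0 J T Λ x j h] at hA1 hB1
  rw [Fd_cut1 J T Λ x j h] at hB2 hC1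
  rw [Fd_cut2 J T Λ x j h ξ ξ' ψ _ h1 hξ] at hA2 hC2
  have ca : sp (col x j (x, j)) = -1 := by simp [col]
  have cc : sp (col x j (x, j + 1)) = 1 := by simp [col]
  rw [ca] at hA2
  rw [cc] at hC2
  have key : ∀ σ : X × ℤ → Bool, (sp (σ (x, j)) = 1 ∨ sp (σ (x, j)) = -1) ∧
      (β * sp (σ (x + 1, j)) = 1 ∨ β * sp (σ (x + 1, j)) = -1) ∧
      (sp (σ (x, j + 1)) = 1 ∨ sp (σ (x, j + 1)) = -1) := by
    intro σ
    refine ⟨sp_cases _, ?_, sp_cases _⟩
    rw [hβ]
    rcases sp_cases (ψ (x, j)) with h | h <;> rcases sp_cases (σ (x + 1, j)) with h' | h' <;>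
      rw [h, h'] <;> norm_num
  rw [← hβ] at hA1 hA2 hB1 hB2 hC1 hC2
  subst hA1 hA2 hB1 hB2 hC1 hC2
  unfold Sm
  simp only [← Finset.sum_add_distrib, ← Finset.sum_sub_distrib, Finset.mul_sum]
  refine ⟨?_, ?_, ?_⟩
  · apply Finset.sum_congr rfl
    intro τ _
    obtain ⟨k1, k2, k3⟩ := key (glue Λ τ ξ)
    have := tri_id1 J k1 k2 k3
    set σ := glue Λ τ ξ
    linear_combination (gw J T x j ψ σ) * this
  · apply Finset.sum_congr rfl
    intro τ _
    obtain ⟨k1, k2, k3⟩ := key (glue Λ τ ξ)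
    have := tri_id2 J k1 k2 k3
    set σ := glue Λ τ ξ
    linear_combination (gw J T x j ψ σ) * this
  · apply Finset.sum_congr rfl
    intro τ _
    obtain ⟨k1, k2, k3⟩ := key (glue Λ τ ξ)
    have := tri_id3 J k1 k2 k3
    set σ := glue Λ τ ξ
    linear_combination (gw J T x j ψ σ) * this

end lattice

end Pool.Agent.AFIsing
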