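import Pool.Agent.AFIsing.StripFlip

/-!
Localisation: strips inside a planar region.
-/
open Real

namespace Pool.Agent.AFIsing

lemma En_subset (S T : Finset Vtx) (hST : S ⊆ T) (φ σ : Vtx → Bool) :
    En T φ σ = En S φ σ + En (T \ S) φ σ := by
  rw [← En_union S (T \ S) Finset.disjoint_sdiff, Finset.union_sdiff_of_subset hST]

lemma En_local (T S D Q : Finset Vtx) (hST : S ⊆ T) (φ σ ω : Vtx → Bool)
    (hQ : ∀ t ∈ T, t ∉ S → t ∉ Q → t ∉ D ∧ tb t ∉ D ∧ tc t ∉ D)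
    (hσ : ∀ v ∉ D, σ v = ω v) :
    |En T φ σ - (En S φ σ + En ((T \ S) \ Q) φ ω)| ≤ 3 * Q.card := by
  have h1 : En ((T \ S) \ Q) φ ω = En ((T \ S) \ Q) φ σ := by
    apply En_congr
    intro t ht
    rw [Finset.mem_sdiff, Finset.mem_sdiff] at ht
    obtain ⟨a, b, c⟩ := hQ t ht.1.1 ht.1.2 ht.2
    rw [hσ t a, hσ _ b, hσ _ c]
    exact ⟨rfl, rfl, rfl⟩
  have h2 : En (T \ S) φ σ = En ((T \ S) ∩ Q) φ σ + En ((T \ S) \ Q) φ σ := by
    rw [← En_union]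
    · congr 1
      rw [Finset.union_comm, Finset.sdiff_union_inter]
    · rw [Finset.disjoint_left]
      intro t ht ht'
      rw [Finset.mem_inter] at ht
      rw [Finset.mem_sdiff] at ht'
      exact ht'.2 ht.2
  rw [En_subset S T hST, h2, h1]
  have h3 : En S φ σ + (En ((T \ S) ∩ Q) φ σ + En ((T \ S) \ Q) φ σ)
      - (En S φ σ + En ((T \ S) \ Q) φ σ) = En ((T \ S) ∩ Q) φ σ := by ring
  rw [h3]
  refine (abs_En_le _ _ _).trans ?_
  have : ((T \ S) ∩ Q).card ≤ Q.card := Finset.card_le_card Finset.inter_subset_right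
  have h4 : (((T \ S) ∩ Q).card : ℝ) ≤ Q.card := by exact_mod_cast this
  linarith

lemma Zd_local_le (J : ℝ) (T S D Q : Finset Vtx) (hST : S ⊆ T) (φ ω : Vtx → Bool)
    (hQ : ∀ t ∈ T, t ∉ S → t ∉ Q → t ∉ D ∧ tb t ∉ D ∧ tc t ∉ D) :
    Zd J T D ω φ ≤ exp (|J| * (3 * Q.card)) * (exp (J * En ((T \ S) \ Q) φ ω) * Zd J S D ω φ) := by
  have h1 : exp (J * En ((T \ S) \ Q) φ ω) * Zd J S D ω φ
      = Sm D ω (fun σ => exp (J * (En S φ σ + En ((T \ S) \ Q) φ ω))) := by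
    unfold Zd
    rw [← Sm_mul]
    congr 1; funext σ
    rw [← exp_add]; ring_nf
  rw [h1]
  unfold Zd
  apply Sm_exp_le
  intro σ hσ
  exact En_local T S D Q hST φ σ ω hQ hσ

lemma le_Zd_local (J : ℝ) (T S D Q : Finset Vtx) (hST : S ⊆ T) (φ ω : Vtx → Bool)
    (hQ : ∀ t ∈ T, t ∉ S → t ∉ Q → t ∉ D ∧ tb t ∉ D ∧ tc t ∉ D) :
    exp (J * En ((T \ S) \ Q) φ ω) * Zd J S D ω φ ≤ exp (|J| * (3 * Q.card)) * Zd J T D ω φ := by
  have h1 : exp (J * En ((T \ S) \ Q) φ ω) * Zd J S D ω φ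
      = Sm D ω (fun σ => exp (J * (En S φ σ + En ((T \ S) \ Q) φ ω))) := by
    unfold Zd
    rw [← Sm_mul]
    congr 1; funext σ
    rw [← exp_add]; ring_nf
  rw [h1]
  unfold Zd
  refine Sm_exp_le J _ _ (fun σ => (En S φ σ + En ((T \ S) \ Q) φ ω)) (En T φ) _ ?_
  intro σ hσ
  rw [abs_sub_comm]
  exact En_local T S D Q hST φ σ ω hQ hσ

/-- comparison of two disordered partition functions through a strip -/
lemma Zd_compare (J : ℝ) (T S D Q : Finset Vtx) (hST : S ⊆ T) (φ₁ φ₂ ω₁ ω₂ : Vtx → Bool)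
    (κ : ℝ)
    (hQ : ∀ t ∈ T, t ∉ S → t ∉ Q → t ∉ D ∧ tb t ∉ D ∧ tc t ∉ D)
    (hc : ∀ t ∈ T, t ∉ S → t ∉ Q → ω₂ t = ω₁ t ∧
      sp (φ₂ t) * sp (ω₂ (tb t)) = sp (φ₁ t) * sp (ω₁ (tb t)) ∧ ω₂ (tc t) = ω₁ (tc t))
    (hκ : Zd J S D ω₂ φ₂ ≤ κ * Zd J S D ω₁ φ₁) (hκ0 : 0 ≤ κ) :
    Zd J T D ω₂ φ₂ ≤ κ * exp (|J| * (6 * Q.card)) * Zd J T D ω₁ φ₁ := by
  have h1 := Zd_local_le J T S D Q hST φ₂ ω₂ hQ
  have h2 := le_Zd_local J T S D Q hST φ₁ ω₁ hQ
  have h3 : En ((T \ S) \ Q) φ₂ ω₂ = En ((T \ S) \ Q) φ₁ ω₁ := by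
    apply En_congr
    intro t ht
    rw [Finset.mem_sdiff, Finset.mem_sdiff] at ht
    exact hc t ht.1.1 ht.1.2 ht.2
  rw [h3] at h1
  calc Zd J T D ω₂ φ₂
      ≤ exp (|J| * (3 * Q.card)) * (exp (J * En ((T \ S) \ Q) φ₁ ω₁) * Zd J S D ω₂ φ₂) := h1
    _ ≤ exp (|J| * (3 * Q.card)) * (exp (J * En ((T \ S) \ Q) φ₁ ω₁)
        * (κ * Zd J S D ω₁ φ₁)) := by gcongr
    _ = κ * exp (|J| * (3 * Q.card)) *
        (exp (J * En ((T \ S) \ Q) φ₁ ω₁) * Zd J S D ω₁ φ₁) := by ring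
    _ ≤ κ * exp (|J| * (3 * Q.card)) * (exp (|J| * (3 * Q.card)) * Zd J T D ω₁ φ₁) := by
        gcongr
    _ = κ * exp (|J| * (6 * Q.card)) * Zd J T D ω₁ φ₁ := by
        rw [show |J| * (6 * (Q.card : ℝ)) = |J| * (3 * Q.card) + |J| * (3 * Q.card) by ring,
          exp_add]
        ring

/-- strip embedded along a row -/
def eH (a b : ℤ) (v : Vtx) : Vtx := (a + v.1, b + v.2)
/-- strip embedded along a column -/
def eV (a b : ℤ) (v : Vtx) : Vtx := (a + v.2, b + v.1)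

lemma eH_inj (a b : ℤ) : Function.Injective (eH a b) := by
  rintro ⟨x, y⟩ ⟨x', y'⟩ h
  simp only [eH, Prod.mk.injEq] at h
  ext <;> simp only <;> omega

lemma eV_inj (a b : ℤ) : Function.Injective (eV a b) := by
  rintro ⟨x, y⟩ ⟨x', y'⟩ h
  simp only [eV, Prod.mk.injEq] at h
  ext <;> simp only <;> omega

lemma Zd_embed (J : ℝ) (p h : ℕ) (e : Vtx → Vtx) (he : Function.Injective e)
    (φ ω g : Vtx → Bool)
    (hf : ∀ σ : Vtx → Bool, En ((Ts p h).image e) φ σ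
      = En (Ts p h) nofZ (flip g (σ ∘ e))) :
    Zd J ((Ts p h).image e) ((Ls p h).image e) ω φ = Zs J p h (flip g (ω ∘ e)) := by
  unfold Zs Zd
  rw [← Sm_flip, ← Sm_comp e (Ls p h) ((Ls p h).image e)]
  · apply Sm_congr
    intro σ _
    rw [hf]
  · intro w
    rw [Finset.mem_image]
    constructor
    · rintro ⟨w', hw', h1⟩
      rw [← he h1]; exact hw'
    · intro hw; exact ⟨w, hw, rfl⟩
  · intro w _ w' _ h1; exact he h1
  · intro v hv
    rw [Finset.mem_image] at hv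
    exact hv

lemma En_imageH (T : Finset Vtx) (a b : ℤ) (φ σ : Vtx → Bool) :
    En (T.image (eH a b)) φ σ = En T (φ ∘ eH a b) (σ ∘ eH a b) := by
  unfold En
  rw [Finset.sum_image (fun x _ y _ h => eH_inj a b h)]
  apply Finset.sum_congr rfl
  intro t _
  have h1 : tb (eH a b t) = eH a b (tb t) := by
    simp only [tb, eH]; ext <;> simp only <;> ring
  have h2 : tc (eH a b t) = eH a b (tc t) := by
    simp only [tc, eH]; ext <;> simp only <;> ring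
  rw [h1, h2]
  rfl

lemma En_imageV (T : Finset Vtx) (a b : ℤ) (φ σ : Vtx → Bool) :
    En (T.image (eV a b)) φ σ = ∑ t ∈ T, tri (sp (σ (eV a b t)))
      (sp (φ (eV a b t)) * sp (σ (eV a b (tc t)))) (sp (σ (eV a b (tb t)))) := by
  unfold En
  rw [Finset.sum_image (fun x _ y _ h => eV_inj a b h)]
  apply Finset.sum_congr rfl
  intro t _
  have h1 : tb (eV a b t) = eV a b (tc t) := by
    simp only [tb, tc, eV]; ext <;> simp only <;> ring
  have h2 : tc (eV a b t) = eV a b (tb t) := by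
    simp only [tb, tc, eV]; ext <;> simp only <;> ring
  rw [h1, h2]

end Pool.Agent.AFIsing
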