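import Pool.Agent.AFIsing.Lattice

/-!
The antiferromagnetic Ising model on the triangular lattice, and its Gibbs measures.
-/
open MeasureTheory

namespace Pool.Agent.AFIsing

/-- The vertices of the triangular lattice `V = {a + bω : a, b ∈ ℤ}`, `ω = e^{iπ/3}`, coded by
the pairs `(a, b)`. -/
abbrev Vtx : Type := ℤ × ℤ

/-- the vertex `a + bω ∈ ℂ` coded by `(a, b)` -/
noncomputable def pos (v : Vtx) : ℂ :=
  (v.1 : ℂ) + (v.2 : ℂ) * Complex.exp ((Real.pi / 3 : ℝ) * Complex.I)

/-- The triangular lattice: two vertices are adjacent when their Euclidean distance is `1`. -/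
def TriG : SimpleGraph Vtx where
  Adj u v := dist (pos u) (pos v) = 1
  symm := ⟨fun u v h => by rw [dist_comm]; exact h⟩
  loopless := ⟨fun u h => by simp at h⟩

/-- The number of edges `{u, v}` that meet `Λ` and have `σ u = σ v`. -/
noncomputable def mono (Λ : Finset Vtx) (σ : Vtx → Bool) : ℕ :=
  {e : Sym2 Vtx | e ∈ TriG.edgeSet ∧ (∃ v ∈ Λ, v ∈ e) ∧ ∀ u ∈ e, ∀ v ∈ e, σ u = σ v}.ncard

/-- The probability that the finite-volume measure on `Λ` with boundary configuration `η` and
inverse temperature `β` gives to the configuration `τ` on `Λ` (completed by `η` off `Λ`). -/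
noncomputable def fvp (β : ℝ) (Λ : Finset Vtx) (η : Vtx → Bool) (τ : Λ → Bool) : ℝ :=
  Real.exp (-β * mono Λ (glue Λ τ η)) /
    ∑ τ' : Λ → Bool, Real.exp (-β * mono Λ (glue Λ τ' η))

/-- The σ-algebra generated by the spins off `Λ`. -/
@[reducible] def offSigma (Λ : Finset Vtx) : MeasurableSpace (Vtx → Bool) :=
  ⨆ v ∈ {v : Vtx | v ∉ Λ}, MeasurableSpace.comap (fun σ : Vtx → Bool => σ v) ⊤

/-- Gibbs measures at inverse temperature `β` (DLR condition). -/
structure IsGibbs (β : ℝ) (μ : Measure (Vtx → Bool)) : Prop where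
  prob : IsProbabilityMeasure μ
  dlr : ∀ (Λ : Finset Vtx) (τ : Λ → Bool),
    μ[Set.indicator {σ : Vtx → Bool | ∀ v : Λ, σ v = τ v} (fun _ => (1 : ℝ)) | offSigma Λ]
      =ᵐ[μ] fun σ => fvp β Λ σ τ

/-- the box of radius `L` -/
noncomputable def box (L : ℕ) : Finset Vtx := Finset.Icc (-(L : ℤ)) L ×ˢ Finset.Icc (-(L : ℤ)) L

/-- no flags -/
def nofZ : Vtx → Bool := fun _ => false

end Pool.Agent.AFIsing
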