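import Pool.Agent.AFIsing.Cases

/-!
The partition function with a pair of disorders costs at most `exp (ε L)`.
-/
open Real Filter

namespace Pool.Agent.AFIsing

lemma poly_le_exp (B : ℝ) (k : ℕ) (b : ℝ) (hb : 0 < b) :
    ∃ L₀ : ℕ, ∀ L : ℕ, L₀ ≤ L → B * (L : ℝ) ^ k ≤ exp (b * L) := by
  have h1 := (isLittleO_pow_exp_pos_mul_atTop k hb).comp_tendsto
    (tendsto_natCast_atTop_atTop (R := ℝ))
  have h2 := h1.bound (show (0 : ℝ) < 1 / (|B| + 1) by positivity)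
  rw [eventually_atTop] at h2
  obtain ⟨L₀, h3⟩ := h2
  refine ⟨L₀, fun L hL => ?_⟩
  have h4 := h3 L hL
  simp only [Function.comp, Real.norm_eq_abs] at h4
  rw [abs_of_nonneg (by positivity), abs_of_pos (exp_pos _)] at h4
  have h5 : B * (L : ℝ) ^ k ≤ (|B| + 1) * (L : ℝ) ^ k := by
    have : B ≤ |B| + 1 := by linarith [le_abs_self B]
    gcongr
  refine h5.trans ?_
  calc (|B| + 1) * (L : ℝ) ^ k ≤ (|B| + 1) * (1 / (|B| + 1) * exp (b * L)) := by gcongr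
    _ = exp (b * L) := by field_simp

/-- the bound for one strip of length at most `2L` -/
lemma strip_uniform (J : ℝ) (hJ : J < 0) : ∃ (C : ℝ) (K : ℕ) (ρ : ℝ), 1 ≤ C ∧ 1 < ρ ∧
    ∀ L h : ℕ, C * (4 * (L : ℝ)) ^ K ≤ ρ ^ (h + 1) → ∀ p : ℕ, p + 1 ≤ 2 * L →
      ∀ ω : Vtx → Bool, Zs J p h (flip row0 ω)
        ≤ C * (4 * (L : ℝ)) ^ K * exp (|J| * (16 * ((h : ℝ) + 1))) * Zs J p h ω := by
  obtain ⟨C, K, ρ, hC, hρ, key⟩ := strip_flip_bottom J hJ
  refine ⟨max C 1, K, ρ, le_max_right _ _, hρ, ?_⟩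
  intro L h hL p hp ω
  have h1 : ((2 * p + 2 : ℕ) : ℝ) ≤ 4 * (L : ℝ) := by
    have : 2 * p + 2 ≤ 4 * L := by omega
    calc ((2 * p + 2 : ℕ) : ℝ) ≤ ((4 * L : ℕ) : ℝ) := by exact_mod_cast this
      _ = 4 * (L : ℝ) := by push_cast; ring
  have h2 : C * ((2 * p + 2 : ℕ) : ℝ) ^ K ≤ max C 1 * (4 * (L : ℝ)) ^ K := by
    have : C ≤ max C 1 := le_max_left _ _
    gcongr
  have h3 := key p h (h2.trans hL) ω
  have hZ : 0 ≤ Zs J p h ω := (Zd_pos _ _ _ _ _).le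
  calc Zs J p h (flip row0 ω) ≤ C * ((2 * p + 2 : ℕ) : ℝ) ^ K
        * exp (|J| * (16 * ((h : ℝ) + 1))) * Zs J p h ω := h3
    _ ≤ max C 1 * (4 * (L : ℝ)) ^ K * exp (|J| * (16 * ((h : ℝ) + 1))) * Zs J p h ω := by
      gcongr

/-- the three cuts, with explicit constants -/
lemma pair_explicit (J : ℝ) (L h : ℕ) (κ : ℝ) (hκ : 1 ≤ κ)
    (hs : ∀ p : ℕ, p + 1 ≤ 2 * L → ∀ ω : Vtx → Bool, Zs J p h (flip row0 ω) ≤ κ * Zs J p h ω)
    (hh : 4 * h + 4 ≤ L) (ξ : Vtx → Bool) (x m : ℤ) (hx : 2 * |x| ≤ L) (hm : 2 * |m| ≤ L) :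
    Zd J (TB L) (box L) (pbd L x ξ) (pfl x m)
      ≤ (κ * exp (|J| * (24 * ((h : ℝ) + 1)))) ^ 3 * Zd J (TB L) (box L) ξ nofZ := by
  set A : ℝ := κ * exp (|J| * (24 * ((h : ℝ) + 1))) with hA
  have hA1 : 1 ≤ A := by
    rw [hA]
    have h1 : 1 ≤ exp (|J| * (24 * ((h : ℝ) + 1))) := by
      rw [← exp_zero]
      apply exp_le_exp.mpr
      positivity
    nlinarith
  have hA0 : 0 ≤ A := by linarith
  have hκ0 : 0 ≤ κ := by linarith
  have hx' := abs_le.mp (show |x| ≤ (L : ℤ) / 2 by omega)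
  have hm' := abs_le.mp (show |m| ≤ (L : ℤ) / 2 by omega)
  -- step 1
  have s1 : Zd J (TB L) (box L) (pbd L x ξ) (pfl x m)
      ≤ A * Zd J (TB L) (box L) (pbd L x ξ) (cut 0 0) := by
    obtain ⟨p, hp⟩ : ∃ p : ℕ, (p : ℤ) + 1 = m + L := ⟨(m + L - 1).toNat, by omega⟩
    unfold pfl
    rcases le_or_gt x 0 with h0 | h0
    · apply vert_left J L p h x m hp (by omega) (by omega) (by omega) _ _ _ κ hκ0
        (hs p (by omega))
      intro t _ _ h2
      unfold cut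
      rw [decide_eq_false_iff_not]
      omega
    · apply vert_right J L p h x m hp (by omega) (by omega) (by omega) _ _ _ κ hκ0
        (hs p (by omega))
      intro t _ h2 _
      unfold cut
      rw [decide_eq_false_iff_not]
      omega
  -- step 2
  have s2 : Zd J (TB L) (box L) (pbd L x ξ) (cut 0 0)
      ≤ A * Zd J (TB L) (box L) (pbd L x ξ) nofZ := by
    obtain ⟨p, hp⟩ : ∃ p : ℕ, (p : ℤ) + 1 = 0 + L := ⟨L - 1, by omega⟩
    have e : (cut (0 : ℤ) 0 : Vtx → Bool) = flip (cut 0 0) nofZ := by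
      funext v; simp [flip, nofZ]
    rw [e]
    apply vert_right J L p h 0 0 hp (by omega) (by omega) (by omega) _ _ _ κ hκ0
      (hs p (by omega))
    intro t _ _ _
    rfl
  -- step 3
  have s3 : Zd J (TB L) (box L) (pbd L x ξ) nofZ
      ≤ A * Zd J (TB L) (box L) ξ nofZ := by
    have hZ : 0 < Zd J (TB L) (box L) ξ nofZ := Zd_pos _ _ _ _ _
    rcases lt_trichotomy x 0 with h0 | h0 | h0
    · obtain ⟨p, hp⟩ : ∃ p : ℕ, (p : ℤ) + 1 = 0 - x := ⟨(0 - x - 1).toNat, by omega⟩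
      have e : pbd L x ξ = flip (bR L x 0) ξ := by
        funext v
        unfold pbd bR flip
        congr 1
        by_cases a1 : v.2 < -(L : ℤ) <;> by_cases a2 : v.1 ≤ x <;> by_cases a3 : v.1 ≤ 0 <;>
          simp [a1, a2, a3] <;> omega
      rw [e]
      exact horiz J L p h x 0 hp (by omega) (by omega) (by omega) ξ κ hκ0 (hs p (by omega))
    · subst h0
      have e : pbd L 0 ξ = ξ := by
        funext v
        simp [pbd]
      rw [e]
      nlinarith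
    · obtain ⟨p, hp⟩ : ∃ p : ℕ, (p : ℤ) + 1 = x - 0 := ⟨(x - 0 - 1).toNat, by omega⟩
      have e : pbd L x ξ = flip (bR L 0 x) ξ := by
        funext v
        unfold pbd bR flip
        congr 1
        by_cases a1 : v.2 < -(L : ℤ) <;> by_cases a2 : v.1 ≤ x <;> by_cases a3 : v.1 ≤ 0 <;>
          simp [a1, a2, a3] <;> omega
      rw [e]
      exact horiz J L p h 0 x hp (by omega) (by omega) (by omega) ξ κ hκ0 (hs p (by omega))
  calc Zd J (TB L) (box L) (pbd L x ξ) (pfl x m)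
      ≤ A * Zd J (TB L) (box L) (pbd L x ξ) (cut 0 0) := s1
    _ ≤ A * (A * Zd J (TB L) (box L) (pbd L x ξ) nofZ) := by gcongr
    _ ≤ A * (A * (A * Zd J (TB L) (box L) ξ nofZ)) := by gcongr
    _ = A ^ 3 * Zd J (TB L) (box L) ξ nofZ := by ring

/-- For large `L` a pair of disorders at distance at most `L/2` from the centre costs at most
`exp (ε L)`, for every boundary condition. -/
theorem pair_bound (J : ℝ) (hJ : J < 0) (ε : ℝ) (hε : 0 < ε) :
    ∃ L₀ : ℕ, ∀ L : ℕ, L₀ ≤ L → ∀ (ξ : Vtx → Bool) (x m : ℤ), 2 * |x| ≤ L → 2 * |m| ≤ L →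
      Zd J (TB L) (box L) (pbd L x ξ) (pfl x m) ≤ exp (ε * L) * Zd J (TB L) (box L) ξ nofZ := by
  obtain ⟨C, K, ρ, hC, hρ, key⟩ := strip_uniform J hJ
  -- the height of the strips
  set δ : ℝ := min (1 / 8) (ε / (240 * (|J| + 1))) with hδ
  have hδ0 : 0 < δ := by
    rw [hδ]
    apply lt_min (by norm_num)
    positivity
  have hδ1 : δ ≤ 1 / 8 := min_le_left _ _
  have hδ2 : 120 * |J| * δ ≤ ε / 2 := by
    have h1 : δ ≤ ε / (240 * (|J| + 1)) := min_le_right _ _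
    have h2 : 120 * |J| * δ ≤ 120 * |J| * (ε / (240 * (|J| + 1))) := by gcongr
    have h3 : 120 * |J| * (ε / (240 * (|J| + 1))) ≤ ε / 2 := by
      rw [mul_div_assoc', div_le_div_iff₀ (by positivity) (by norm_num)]
      have := abs_nonneg J
      nlinarith
    linarith
  have hlog : 0 < Real.log ρ := Real.log_pos hρ
  obtain ⟨L₁, hL₁⟩ := poly_le_exp (C * 4 ^ K) K (Real.log ρ * δ) (by positivity)
  obtain ⟨L₂, hL₂⟩ := poly_le_exp ((C * 4 ^ K) ^ 3 * exp (120 * |J|)) (3 * K) (ε / 2)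
    (by positivity)
  refine ⟨max (max L₁ L₂) 8, ?_⟩
  intro L hL ξ x m hx hm
  have hLL1 : L₁ ≤ L := le_trans (le_trans (le_max_left _ _) (le_max_left _ _)) hL
  have hLL2 : L₂ ≤ L := le_trans (le_trans (le_max_right _ _) (le_max_left _ _)) hL
  have hL8 : 8 ≤ L := le_trans (le_max_right _ _) hL
  have hL8' : (8 : ℝ) ≤ L := by exact_mod_cast hL8
  set h : ℕ := ⌊δ * L⌋₊ with hh
  have hh1 : (h : ℝ) ≤ δ * L := Nat.floor_le (by positivity)
  have hh2 : δ * L ≤ (h : ℝ) + 1 := (Nat.lt_floor_add_one _).le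
  have hh3 : 4 * h + 4 ≤ L := by
    have : (4 * h + 4 : ℝ) ≤ L := by nlinarith
    exact_mod_cast this
  have c1 : C * (4 * (L : ℝ)) ^ K ≤ ρ ^ (h + 1) := by
    have h1 := hL₁ L hLL1
    have h2 : C * (4 * (L : ℝ)) ^ K = C * 4 ^ K * (L : ℝ) ^ K := by rw [mul_pow]; ring
    rw [h2]
    refine h1.trans ?_
    have h3 : ρ ^ (h + 1) = exp (Real.log ρ * ((h + 1 : ℕ) : ℝ)) := by
      rw [Real.exp_mul, Real.exp_log (by linarith), Real.rpow_natCast]
    rw [h3]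
    apply exp_le_exp.mpr
    push_cast
    rw [mul_assoc]
    gcongr
  set κ : ℝ := C * (4 * (L : ℝ)) ^ K * exp (|J| * (16 * ((h : ℝ) + 1))) with hκ
  have hκ1 : 1 ≤ κ := by
    have a1 : 1 ≤ (4 * (L : ℝ)) ^ K := one_le_pow₀ (by linarith)
    have a2 : 1 ≤ exp (|J| * (16 * ((h : ℝ) + 1))) := by
      rw [← exp_zero]; apply exp_le_exp.mpr; positivity
    have a3 : 1 ≤ C * (4 * (L : ℝ)) ^ K := by nlinarith
    nlinarith
  have main := pair_explicit J L h κ hκ1 (fun p hp ω => key L h c1 p hp ω) hh3 ξ x m hx hm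
  refine main.trans ?_
  have hZ : 0 ≤ Zd J (TB L) (box L) ξ nofZ := (Zd_pos _ _ _ _ _).le
  apply mul_le_mul_of_nonneg_right _ hZ
  have e1 : κ * exp (|J| * (24 * ((h : ℝ) + 1)))
      = C * (4 * (L : ℝ)) ^ K * exp (40 * |J| * ((h : ℝ) + 1)) := by
    rw [hκ, mul_assoc, ← exp_add]
    ring_nf
  have e2 : (κ * exp (|J| * (24 * ((h : ℝ) + 1)))) ^ 3
      = (C * 4 ^ K) ^ 3 * exp (120 * |J|) * (L : ℝ) ^ (3 * K) * exp (120 * |J| * h) := by
    rw [e1, mul_pow, ← Real.exp_nat_mul]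
    have : ((3 : ℕ) : ℝ) * (40 * |J| * ((h : ℝ) + 1)) = 120 * |J| + 120 * |J| * h := by
      push_cast; ring
    rw [this, exp_add, mul_pow 4, mul_comm 3 K, pow_mul]
    ring
  rw [e2]
  have h2 := hL₂ L hLL2
  have h3 : exp (120 * |J| * h) ≤ exp (ε / 2 * L) := by
    apply exp_le_exp.mpr
    calc 120 * |J| * (h : ℝ) ≤ 120 * |J| * (δ * L) := by gcongr
      _ = 120 * |J| * δ * L := by ring
      _ ≤ ε / 2 * L := by gcongr
  calc (C * 4 ^ K) ^ 3 * exp (120 * |J|) * (L : ℝ) ^ (3 * K) * exp (120 * |J| * h)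
      ≤ exp (ε / 2 * L) * exp (ε / 2 * L) := by gcongr
    _ = exp (ε * L) := by rw [← exp_add]; ring_nf

end Pool.Agent.AFIsing
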