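import Pool.Agent.AFIsing.Model

/-!
Planar disorder sums in a box: definitions.
-/
namespace Pool.Agent.AFIsing

/-- the up-triangles of the box -/
noncomputable def TB (L : ℕ) : Finset Vtx :=
  Finset.Icc (-(L : ℤ) - 1) L ×ˢ Finset.Icc (-(L : ℤ) - 1) L

/-- `ξ` with the rows below the box flipped on the columns between `0` and `x` -/
def pbd (L : ℕ) (x : ℤ) (ξ : Vtx → Bool) : Vtx → Bool :=
  fun v => xor (decide (v.2 < -(L : ℤ)) && xor (decide (v.1 ≤ x)) (decide (v.1 ≤ 0))) (ξ v)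

/-- flags of the pair of faces `(0,0)`, `(x,m)` -/
def pfl (x m : ℤ) : Vtx → Bool := flip (cut x m) (cut 0 0)

lemma mem_box {L : ℕ} {v : Vtx} :
    v ∈ box L ↔ (-(L : ℤ) ≤ v.1 ∧ v.1 ≤ L) ∧ (-(L : ℤ) ≤ v.2 ∧ v.2 ≤ L) := by
  simp [box]

lemma mem_TB {L : ℕ} {v : Vtx} :
    v ∈ TB L ↔ (-(L : ℤ) - 1 ≤ v.1 ∧ v.1 ≤ L) ∧ (-(L : ℤ) - 1 ≤ v.2 ∧ v.2 ≤ L) := by
  simp [TB]

end Pool.Agent.AFIsing
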