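import Pool.Agent.AFIsing.Tools
import Pool.Agent.AFIsing.CylBound
import Pool.Agent.AFIsing.Planar

/-!
Strips: `p+1` columns `0..p`, rows `0..2h+2`; the rows `0` and `2h+2` are fixed.
-/
open Real

namespace Pool.Agent.AFIsing

/-- triangles of the strip -/
noncomputable def Ts (p h : ℕ) : Finset Vtx :=
  Finset.Ico (0 : ℤ) (p : ℕ) ×ˢ Finset.Ico (0 : ℤ) ((2 * h + 2 : ℕ) : ℤ)

/-- the middle row -/
noncomputable def Am (p h : ℕ) : Finset Vtx :=
  Finset.Ico (0 : ℤ) ((p + 1 : ℕ) : ℤ) ×ˢ {((h : ℤ) + 1)}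

/-- the other dynamic sites -/
noncomputable def Bm (p h : ℕ) : Finset Vtx :=
  (Finset.Ico (0 : ℤ) ((p + 1 : ℕ) : ℤ) ×ˢ Finset.Ioo (0 : ℤ) ((2 * h + 2 : ℕ) : ℤ)).filter
    (fun v => v.2 ≠ (h : ℤ) + 1)

/-- dynamic sites of the strip -/
noncomputable def Ls (p h : ℕ) : Finset Vtx :=
  Finset.Ico (0 : ℤ) ((p + 1 : ℕ) : ℤ) ×ˢ Finset.Ioo (0 : ℤ) ((2 * h + 2 : ℕ) : ℤ)

lemma Ls_eq (p h : ℕ) : Ls p h = Am p h ∪ Bm p h := by
  ext v
  simp only [Ls, Am, Bm, Finset.mem_union, Finset.mem_filter, Finset.mem_product,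
    Finset.mem_Ico, Finset.mem_Ioo, Finset.mem_singleton]
  constructor
  · rintro ⟨h1, h2⟩
    by_cases h3 : v.2 = (h : ℤ) + 1
    · left; exact ⟨h1, h3⟩
    · right; exact ⟨⟨h1, h2⟩, h3⟩
  · rintro (⟨h1, h3⟩ | ⟨h1, _⟩)
    · refine ⟨h1, ?_⟩
      rw [h3]; push_cast; constructor <;> omega
    · exact h1

lemma Am_disj (p h : ℕ) : Disjoint (Am p h) (Bm p h) := by
  rw [Finset.disjoint_left]
  intro v hv hv'
  simp only [Am, Bm, Finset.mem_filter, Finset.mem_product, Finset.mem_singleton] at hv hv'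
  exact hv'.2 hv.2

section Phi

variable (p h : ℕ)

/-- representative in `1..2p+2` -/
def rp (c : ZMod (2 * p + 2)) : ℕ := if c.val = 0 then 2 * p + 2 else c.val

/-- from the cylinder to the strip -/
def Ph (v : ZMod (2 * p + 2) × ℤ) : Vtx :=
  if 0 ≤ v.2 ∧ v.2 ≤ (h : ℤ) + 1 then
    (if rp p v.1 ≤ p + 1 then ((rp p v.1 : ℤ) - 1, v.2)
      else (2 * (p : ℤ) + 2 - rp p v.1, 2 * (h : ℤ) + 2 - v.2))
  else (-1, 0)

lemma rp_cast {k : ℕ} (hk : k < 2 * p + 2) : rp p (((k + 1 : ℕ) : ZMod (2 * p + 2))) = k + 1 := by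
  unfold rp
  rcases Nat.lt_or_ge (k + 1) (2 * p + 2) with h1 | h1
  · rw [ZMod.val_natCast, Nat.mod_eq_of_lt h1]
    simp
  · have : k + 1 = 2 * p + 2 := by omega
    rw [this, ZMod.natCast_self]
    simp

lemma rp_range (c : ZMod (2 * p + 2)) : 1 ≤ rp p c ∧ rp p c ≤ 2 * p + 2 := by
  unfold rp
  have : NeZero (2 * p + 2) := ⟨by omega⟩
  have := ZMod.val_lt c
  split_ifs with h
  · omega
  · omega

lemma rp_inj (c c' : ZMod (2 * p + 2)) (h : rp p c = rp p c') : c = c' := by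
  have : NeZero (2 * p + 2) := ⟨by omega⟩
  have h1 := ZMod.val_lt c
  have h2 := ZMod.val_lt c'
  unfold rp at h
  apply ZMod.val_injective
  split_ifs at h <;> omega

lemma Ph_lo {k : ℕ} (hk : k ≤ p) {j : ℤ} (hj0 : 0 ≤ j) (hj : j ≤ (h : ℤ) + 1) :
    Ph p h (((k + 1 : ℕ) : ZMod (2 * p + 2)), j) = ((k : ℤ), j) := by
  unfold Ph
  rw [rp_cast p (by omega)]
  rw [if_pos ⟨hj0, hj⟩, if_pos (by omega)]
  simp

lemma Ph_hi {k : ℕ} (hk : p + 1 ≤ k) (hk2 : k ≤ 2 * p + 1) {j : ℤ} (hj0 : 0 ≤ j)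
    (hj : j ≤ (h : ℤ) + 1) :
    Ph p h (((k + 1 : ℕ) : ZMod (2 * p + 2)), j)
      = (2 * (p : ℤ) + 1 - k, 2 * (h : ℤ) + 2 - j) := by
  unfold Ph
  rw [rp_cast p (by omega)]
  rw [if_pos ⟨hj0, hj⟩, if_neg (by omega)]
  push_cast
  ext
  · simp only; ring
  · rfl

lemma Ph_mem (w : ZMod (2 * p + 2) × ℤ) : Ph p h w ∈ Bm p h ↔ w ∈ LL (2 * p + 2) (h + 1) := by
  have hr := rp_range p w.1
  rw [mem_LL]
  simp only [Bm, Finset.mem_filter, Finset.mem_product, Finset.mem_Ico, Finset.mem_Ioo]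
  unfold Ph
  split_ifs with h1 h2
  · simp only
    push_cast
    constructor
    · rintro ⟨⟨_, h3⟩, h4⟩
      constructor <;> omega
    · rintro ⟨h3, h4⟩
      refine ⟨⟨⟨?_, ?_⟩, ⟨?_, ?_⟩⟩, ?_⟩ <;> omega
  · simp only
    push_cast
    constructor
    · rintro ⟨⟨_, h3⟩, h4⟩
      constructor <;> omega
    · rintro ⟨h3, h4⟩
      refine ⟨⟨⟨?_, ?_⟩, ⟨?_, ?_⟩⟩, ?_⟩ <;> omega
  · simp only
    push_cast
    constructor
    · intro h3
      exfalso; simp at h3
    · rintro ⟨h3, h4⟩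
      exfalso; apply h1; constructor <;> omega

lemma Ph_inj (w : ZMod (2 * p + 2) × ℤ) (hw : w ∈ LL (2 * p + 2) (h + 1))
    (w' : ZMod (2 * p + 2) × ℤ) (hw' : w' ∈ LL (2 * p + 2) (h + 1))
    (he : Ph p h w = Ph p h w') : w = w' := by
  rw [mem_LL] at hw hw'
  have hr := rp_range p w.1
  have hr' := rp_range p w'.1
  push_cast at hw hw'
  unfold Ph at he
  rw [if_pos (show 0 ≤ w.2 ∧ w.2 ≤ (h : ℤ) + 1 by omega),
    if_pos (show 0 ≤ w'.2 ∧ w'.2 ≤ (h : ℤ) + 1 by omega)] at he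
  split_ifs at he with h1 h2 h2
  · simp only [Prod.mk.injEq] at he
    ext
    · apply rp_inj; omega
    · omega
  · simp only [Prod.mk.injEq] at he
    omega
  · simp only [Prod.mk.injEq] at he
    omega
  · simp only [Prod.mk.injEq] at he
    ext
    · apply rp_inj; omega
    · omega

lemma Ph_surj (v : Vtx) (hv : v ∈ Bm p h) : ∃ w ∈ LL (2 * p + 2) (h + 1), Ph p h w = v := by
  have hv' := hv
  simp only [Bm, Finset.mem_filter, Finset.mem_product, Finset.mem_Ico, Finset.mem_Ioo] at hv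
  obtain ⟨⟨⟨a1, a2⟩, a3, a4⟩, a5⟩ := hv
  push_cast at a2 a4
  rcases lt_or_gt_of_ne a5 with h1 | h1
  · have e : Ph p h (((v.1.toNat + 1 : ℕ) : ZMod (2 * p + 2)), v.2) = v := by
      rw [Ph_lo p h (by omega) (by omega) (by omega)]
      ext <;> simp; omega
    exact ⟨_, (Ph_mem p h _).mp (by rw [e]; exact hv'), e⟩
  · have e : Ph p h (((2 * p + 1 - v.1.toNat + 1 : ℕ) : ZMod (2 * p + 2)),
        2 * (h : ℤ) + 2 - v.2) = v := by
      rw [Ph_hi p h (by omega) (by omega) (by omega) (by omega)]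
      ext
      · simp only; omega
      · simp only; omega
    exact ⟨_, (Ph_mem p h _).mp (by rw [e]; exact hv'), e⟩

end Phi

lemma sum_Ico_int (n : ℕ) (f : ℤ → ℝ) :
    ∑ x ∈ Finset.Ico (0 : ℤ) (n : ℕ), f x = ∑ i ∈ Finset.range n, f (i : ℤ) := by
  refine Finset.sum_bij' (fun x _ => x.toNat) (fun i _ => (i : ℤ)) ?_ ?_ ?_ ?_ ?_
  · intro x hx; rw [Finset.mem_Ico] at hx; rw [Finset.mem_range]; omega
  · intro i hi; rw [Finset.mem_range] at hi; rw [Finset.mem_Ico]; omega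
  · intro x hx; rw [Finset.mem_Ico] at hx; omega
  · intro i hi; simp
  · intro x hx; rw [Finset.mem_Ico] at hx
    congr 1; omega

lemma sum_ZMod (M : ℕ) [NeZero M] (f : ZMod M → ℝ) :
    ∑ c : ZMod M, f c = ∑ k ∈ Finset.range M, f ((k + 1 : ℕ) : ZMod M) := by
  have h1 : ∑ c : ZMod M, f (c + 1) = ∑ c : ZMod M, f c :=
    Equiv.sum_comp (Equiv.addRight (1 : ZMod M)) f
  rw [← h1]
  refine Finset.sum_bij' (fun c _ => c.val) (fun k _ => (k : ZMod M)) ?_ ?_ ?_ ?_ ?_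
  · intro c _; rw [Finset.mem_range]; exact ZMod.val_lt c
  · intro k _; exact Finset.mem_univ _
  · intro c _; exact ZMod.natCast_zmod_val c
  · intro k hk; rw [Finset.mem_range] at hk; exact ZMod.val_natCast_of_lt hk
  · intro c _
    congr 1
    push_cast
    rw [ZMod.natCast_zmod_val]

/-- energy of the middle row -/
noncomputable def rowE (p : ℕ) (r : ℤ) (σ : Vtx → Bool) : ℝ :=
  ∑ i ∈ Finset.range p, sp (σ ((i : ℤ), r)) * sp (σ ((i : ℤ) + 1, r))

/-- the energy on the strip against the energy on the cylinder -/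
lemma energy_compare (p h : ℕ) (σ : Vtx → Bool) :
    |En (Ts p h) nofZ σ - (En (TT (2 * p + 2) (h + 1)) nof (σ ∘ Ph p h)
      + rowE p ((h : ℤ) + 1) σ - rowE p (2 * (h : ℤ) + 2) σ)| ≤ 8 * ((h : ℝ) + 1) := by
  set s : ℤ → ℤ → ℝ := fun i j => sp (σ (i, j)) with hs
  have habs : ∀ i j, |s i j| = 1 := fun i j => abs_sp _
  -- strip energy
  have e1 : En (Ts p h) nofZ σ = ∑ i ∈ Finset.range p, ∑ j ∈ Finset.range (2 * h + 2),
      tri (s i j) (s (i + 1) j) (s i (j + 1)) := by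
    unfold En Ts
    rw [Finset.sum_product, sum_Ico_int]
    apply Finset.sum_congr rfl
    intro i _
    rw [sum_Ico_int]
    apply Finset.sum_congr rfl
    intro j _
    simp only [nofZ, sp_false, one_mul, tb, tc, hs]
  -- cylinder energy
  set F : ℕ → ℝ := fun k => ∑ j ∈ Finset.range (h + 1),
    tri (sp (σ (Ph p h (((k + 1 : ℕ) : ZMod (2 * p + 2)), (j : ℤ)))))
      (sp (σ (Ph p h (((k + 1 + 1 : ℕ) : ZMod (2 * p + 2)), (j : ℤ)))))
      (sp (σ (Ph p h (((k + 1 : ℕ) : ZMod (2 * p + 2)), (j : ℤ) + 1)))) with hF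
  have e2 : En (TT (2 * p + 2) (h + 1)) nof (σ ∘ Ph p h)
      = ∑ k ∈ Finset.range (2 * p + 2), F k := by
    unfold En TT
    rw [Finset.sum_product, sum_ZMod]
    apply Finset.sum_congr rfl
    intro k _
    rw [sum_Ico_int, hF]
    apply Finset.sum_congr rfl
    intro j _
    simp only [nof, sp_false, one_mul, tb, tc, Function.comp]
    push_cast
    rfl
  have h1 : ∀ k ∈ Finset.range p, F k = ∑ j ∈ Finset.range (h + 1),
      tri (s k j) (s (k + 1) j) (s k (j + 1)) := by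
    intro k hk
    rw [Finset.mem_range] at hk
    rw [hF]
    apply Finset.sum_congr rfl
    intro j hj
    rw [Finset.mem_range] at hj
    rw [Ph_lo p h (by omega) (by omega) (by omega), Ph_lo p h (by omega) (by omega) (by omega),
      Ph_lo p h (by omega) (by omega) (by omega)]
    simp only [hs]
    push_cast
    rfl
  have hFle : ∀ k, |F k| ≤ 3 * ((h : ℝ) + 1) := by
    intro k
    rw [hF]
    calc |∑ j ∈ Finset.range (h + 1), _| ≤ ∑ j ∈ Finset.range (h + 1), (3 : ℝ) := by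
          refine (Finset.abs_sum_le_sum_abs _ _).trans ?_
          apply Finset.sum_le_sum
          intro j _
          exact abs_tri_le (abs_sp _) (abs_sp _) (abs_sp _)
      _ = 3 * ((h : ℝ) + 1) := by
          rw [Finset.sum_const, Finset.card_range, nsmul_eq_mul]; push_cast; ring
  have h3 : ∀ i ∈ Finset.range p, F (p + 1 + (p - 1 - i)) = ∑ j ∈ Finset.range (h + 1),
      tri (s (i + 1) (2 * h + 2 - j)) (s i (2 * h + 2 - j)) (s (i + 1) (2 * h + 1 - j)) := by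
    intro i hi
    rw [Finset.mem_range] at hi
    rw [hF]
    apply Finset.sum_congr rfl
    intro j hj
    rw [Finset.mem_range] at hj
    rw [Ph_hi p h (by omega) (by omega) (by omega) (by omega),
      Ph_hi p h (by omega) (by omega) (by omega) (by omega),
      Ph_hi p h (by omega) (by omega) (by omega) (by omega)]
    have q1 : 2 * (p : ℤ) + 1 - ((p + 1 + (p - 1 - i) : ℕ) : ℤ) = i + 1 := by omega
    have q2 : 2 * (p : ℤ) + 1 - ((p + 1 + (p - 1 - i) + 1 : ℕ) : ℤ) = i := by omega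
    have q3 : 2 * (h : ℤ) + 2 - ((j : ℤ) + 1) = 2 * h + 1 - j := by ring
    rw [q1, q2, q3]
  have e3 : ∑ k ∈ Finset.range (2 * p + 2), F k
      = ∑ i ∈ Finset.range p, F i + F p + ∑ i ∈ Finset.range p, F (p + 1 + (p - 1 - i))
        + F (p + 1 + p) := by
    rw [show 2 * p + 2 = (p + 1) + (p + 1) by ring, Finset.sum_range_add,
      Finset.sum_range_succ, Finset.sum_range_succ, Finset.sum_range_reflect
        (fun i => F (p + 1 + i)) p]
    ring
  have e4 : ∀ i : ℕ, ∑ j ∈ Finset.range (2 * h + 2), tri (s i j) (s (i + 1) j) (s i (j + 1))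
      = ∑ j ∈ Finset.range (h + 1), tri (s i j) (s (i + 1) j) (s i (j + 1))
        + ∑ j ∈ Finset.range (h + 1),
          tri (s i (2 * h + 1 - j)) (s (i + 1) (2 * h + 1 - j)) (s i (2 * h + 2 - j)) := by
    intro i
    rw [show 2 * h + 2 = (h + 1) + (h + 1) by ring, Finset.sum_range_add]
    congr 1
    rw [← Finset.sum_range_reflect]
    apply Finset.sum_congr rfl
    intro j hj
    rw [Finset.mem_range] at hj
    have q1 : (((h + 1 + (h + 1 - 1 - j) : ℕ)) : ℤ) = 2 * h + 1 - j := by omega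
    have q2 : (2 * (h : ℤ) + 1 - j) + 1 = 2 * h + 2 - j := by ring
    rw [q1, q2]
  have e5 : ∑ i ∈ Finset.range p, ∑ j ∈ Finset.range (h + 1),
        tri (s i (2 * h + 1 - j)) (s (i + 1) (2 * h + 1 - j)) (s i (2 * h + 2 - j))
      - ∑ i ∈ Finset.range p, ∑ j ∈ Finset.range (h + 1),
        tri (s (i + 1) (2 * h + 2 - j)) (s i (2 * h + 2 - j)) (s (i + 1) (2 * h + 1 - j))
      = rowE p ((h : ℤ) + 1) σ - rowE p (2 * (h : ℤ) + 2) σ
        + ∑ j ∈ Finset.range (h + 1), (s 0 (2 * h + 1 - j) * s 0 (2 * h + 2 - j)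
          - s p (2 * h + 1 - j) * s p (2 * h + 2 - j)) := by
    have a1 : ∀ i : ℕ, ∑ j ∈ Finset.range (h + 1),
        (s i (2 * h + 1 - j) * s (i + 1) (2 * h + 1 - j)
          - s i (2 * h + 2 - j) * s (i + 1) (2 * h + 2 - j))
        = s i (h + 1) * s (i + 1) (h + 1) - s i (2 * h + 2) * s (i + 1) (2 * h + 2) := by
      intro i
      have := Finset.sum_range_sub
        (fun j : ℕ => s i (2 * h + 2 - j) * s (i + 1) (2 * h + 2 - j)) (h + 1)
      have q1 : (2 * (h : ℤ) + 2 - ((h + 1 : ℕ) : ℤ)) = h + 1 := by push_cast; ring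
      have q2 : (2 * (h : ℤ) + 2 - ((0 : ℕ) : ℤ)) = 2 * h + 2 := by push_cast; ring
      rw [q1, q2] at this
      rw [← this]
      apply Finset.sum_congr rfl
      intro j _
      have q3 : (2 * (h : ℤ) + 2 - ((j + 1 : ℕ) : ℤ)) = 2 * h + 1 - j := by push_cast; ring
      rw [q3]
    have a2 : ∀ j : ℕ, ∑ i ∈ Finset.range p,
        (s i (2 * h + 1 - j) * s i (2 * h + 2 - j)
          - s (i + 1) (2 * h + 1 - j) * s (i + 1) (2 * h + 2 - j))
        = s 0 (2 * h + 1 - j) * s 0 (2 * h + 2 - j)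
          - s p (2 * h + 1 - j) * s p (2 * h + 2 - j) := by
      intro j
      have := Finset.sum_range_sub' (fun i : ℕ => s i (2 * h + 1 - j) * s i (2 * h + 2 - j)) p
      push_cast at this
      exact this
    have a3 : ∑ j ∈ Finset.range (h + 1), (s 0 (2 * h + 1 - j) * s 0 (2 * h + 2 - j)
          - s p (2 * h + 1 - j) * s p (2 * h + 2 - j))
        = ∑ i ∈ Finset.range p, ∑ j ∈ Finset.range (h + 1),
          (s i (2 * h + 1 - j) * s i (2 * h + 2 - j)
          - s (i + 1) (2 * h + 1 - j) * s (i + 1) (2 * h + 2 - j)) := by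
      rw [Finset.sum_comm]
      apply Finset.sum_congr rfl
      intro j _
      exact (a2 j).symm
    have a4 : rowE p ((h : ℤ) + 1) σ - rowE p (2 * (h : ℤ) + 2) σ
        = ∑ i ∈ Finset.range p, ∑ j ∈ Finset.range (h + 1),
        (s i (2 * h + 1 - j) * s (i + 1) (2 * h + 1 - j)
          - s i (2 * h + 2 - j) * s (i + 1) (2 * h + 2 - j)) := by
      unfold rowE
      rw [← Finset.sum_sub_distrib]
      apply Finset.sum_congr rfl
      intro i _
      rw [a1]
    rw [a3, a4, ← Finset.sum_sub_distrib, ← Finset.sum_add_distrib]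
    apply Finset.sum_congr rfl
    intro i _
    rw [← Finset.sum_sub_distrib, ← Finset.sum_add_distrib]
    apply Finset.sum_congr rfl
    intro j _
    unfold tri
    ring
  have e6 : |∑ j ∈ Finset.range (h + 1), (s 0 (2 * h + 1 - j) * s 0 (2 * h + 2 - j)
          - s p (2 * h + 1 - j) * s p (2 * h + 2 - j))| ≤ 2 * ((h : ℝ) + 1) := by
    calc |∑ j ∈ Finset.range (h + 1), (s 0 (2 * h + 1 - j) * s 0 (2 * h + 2 - j)
          - s p (2 * h + 1 - j) * s p (2 * h + 2 - j))|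
        ≤ ∑ j ∈ Finset.range (h + 1), (2 : ℝ) := by
          refine (Finset.abs_sum_le_sum_abs _ _).trans ?_
          apply Finset.sum_le_sum
          intro j _
          refine (abs_sub _ _).trans ?_
          rw [abs_mul, abs_mul, habs, habs, habs, habs]
          norm_num
      _ = 2 * ((h : ℝ) + 1) := by
          rw [Finset.sum_const, Finset.card_range, nsmul_eq_mul]; push_cast; ring
  have e7 : En (Ts p h) nofZ σ - (En (TT (2 * p + 2) (h + 1)) nof (σ ∘ Ph p h)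
      + rowE p ((h : ℤ) + 1) σ - rowE p (2 * (h : ℤ) + 2) σ)
      = (∑ j ∈ Finset.range (h + 1), (s 0 (2 * h + 1 - j) * s 0 (2 * h + 2 - j)
          - s p (2 * h + 1 - j) * s p (2 * h + 2 - j))) - F p - F (p + 1 + p) := by
    rw [e1, e2, e3]
    simp only [e4]
    rw [Finset.sum_add_distrib, Finset.sum_congr rfl h1, Finset.sum_congr rfl h3]
    linarith [e5]
  rw [e7]
  have f1 := abs_le.mp (hFle p)
  have f2 := abs_le.mp (hFle (p + 1 + p))
  have f3 := abs_le.mp e6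
  rw [abs_le]
  constructor <;> linarith [f1.1, f1.2, f2.1, f2.2, f3.1, f3.2]

end Pool.Agent.AFIsing
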