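import Pool.Agent.AFIsing.Strip

/-!
Flipping the bottom (or the top) row of a strip costs at most a factor
`polynomial × exp (O(h))`.
-/
open Real

namespace Pool.Agent.AFIsing

variable (J : ℝ) (p h : ℕ)

/-- partition function of the strip -/
noncomputable def Zs (ω : Vtx → Bool) : ℝ := Zd J (Ts p h) (Ls p h) ω nofZ

/-- weight of the middle row and the cylinder -/
noncomputable def fc (σ : Vtx → Bool) : ℝ :=
  exp (J * rowE p ((h : ℤ) + 1) σ)
    * Zd J (TT (2 * p + 2) (h + 1)) (LL (2 * p + 2) (h + 1)) (σ ∘ Ph p h) nof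

/-- reduced partition function -/
noncomputable def Wc (ω : Vtx → Bool) : ℝ := Sm (Am p h) ω (fc J p h)

lemma mem_Am (v : Vtx) : v ∈ Am p h ↔ (0 ≤ v.1 ∧ v.1 ≤ p) ∧ v.2 = (h : ℤ) + 1 := by
  simp only [Am, Finset.mem_product, Finset.mem_Ico, Finset.mem_singleton]
  push_cast
  constructor
  · rintro ⟨⟨a, b⟩, c⟩; exact ⟨⟨a, by omega⟩, c⟩
  · rintro ⟨⟨a, b⟩, c⟩; exact ⟨⟨a, by omega⟩, c⟩

lemma mem_Bm (v : Vtx) : v ∈ Bm p h ↔
    (0 ≤ v.1 ∧ v.1 ≤ p) ∧ (0 < v.2 ∧ v.2 < 2 * (h : ℤ) + 2) ∧ v.2 ≠ (h : ℤ) + 1 := by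
  simp only [Bm, Finset.mem_filter, Finset.mem_product, Finset.mem_Ico, Finset.mem_Ioo]
  push_cast
  constructor
  · rintro ⟨⟨⟨a, b⟩, c⟩, d⟩; exact ⟨⟨a, by omega⟩, c, d⟩
  · rintro ⟨⟨a, b⟩, c, d⟩; exact ⟨⟨⟨a, by omega⟩, c⟩, d⟩

lemma rowE_congr (r : ℤ) (σ σ' : Vtx → Bool)
    (hσ : ∀ i : ℤ, 0 ≤ i → i ≤ p → σ (i, r) = σ' (i, r)) : rowE p r σ = rowE p r σ' := by
  unfold rowE
  apply Finset.sum_congr rfl
  intro i hi
  rw [Finset.mem_range] at hi
  rw [hσ i (by omega) (by omega), hσ ((i : ℤ) + 1) (by omega) (by omega)]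

/-- the sum of the modified energy -/
lemma Sm_modified (ω : Vtx → Bool) :
    Sm (Ls p h) ω (fun σ => exp (J * (En (TT (2 * p + 2) (h + 1)) nof (σ ∘ Ph p h)
      + rowE p ((h : ℤ) + 1) σ - rowE p (2 * (h : ℤ) + 2) σ)))
      = exp (-(J * rowE p (2 * (h : ℤ) + 2) ω)) * Wc J p h ω := by
  rw [Ls_eq, Sm_split _ _ (Am_disj p h)]
  unfold Wc
  rw [← Sm_mul]
  apply Sm_congr
  intro σ hσ
  unfold fc Zd
  rw [← Sm_comp (Ph p h) (LL (2 * p + 2) (h + 1)) (Bm p h) (Ph_mem p h) (Ph_inj p h)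
    (Ph_surj p h) σ (fun σ' => exp (J * En (TT (2 * p + 2) (h + 1)) nof σ')),
    ← mul_assoc, ← exp_add, ← Sm_mul]
  apply Sm_congr
  intro σ' hσ'
  rw [← exp_add]
  congr 1
  have h1 : rowE p ((h : ℤ) + 1) σ' = rowE p ((h : ℤ) + 1) σ := by
    apply rowE_congr
    intro i hi0 hi
    apply hσ'
    rw [mem_Bm]
    simp
  have h2 : rowE p (2 * (h : ℤ) + 2) σ' = rowE p (2 * (h : ℤ) + 2) ω := by
    apply rowE_congr
    intro i hi0 hi
    rw [hσ', hσ]
    · rw [mem_Am]; simp only; omega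
    · rw [mem_Bm]; simp
  rw [h1, h2]
  ring

lemma Zs_le (ω : Vtx → Bool) :
    Zs J p h ω ≤ exp (|J| * (8 * ((h : ℝ) + 1)))
      * (exp (-(J * rowE p (2 * (h : ℤ) + 2) ω)) * Wc J p h ω) := by
  rw [← Sm_modified]
  unfold Zs Zd
  apply Sm_exp_le
  intro σ _
  exact energy_compare p h σ

lemma le_Zs (ω : Vtx → Bool) :
    exp (-(J * rowE p (2 * (h : ℤ) + 2) ω)) * Wc J p h ω
      ≤ exp (|J| * (8 * ((h : ℝ) + 1))) * Zs J p h ω := by
  rw [← Sm_modified]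
  unfold Zs Zd
  refine Sm_exp_le J _ _ (fun σ => (En (TT (2 * p + 2) (h + 1)) nof (σ ∘ Ph p h)
      + rowE p ((h : ℤ) + 1) σ - rowE p (2 * (h : ℤ) + 2) σ)) (En (Ts p h) nofZ) _ ?_
  intro σ _
  rw [abs_sub_comm]
  exact energy_compare p h σ

/-- the bottom ring -/
def zb (σ : Vtx → Bool) : ZMod (2 * p + 2) → Bool := fun c => σ (Ph p h (c, 0))
/-- the top ring -/
def zt (σ : Vtx → Bool) : ZMod (2 * p + 2) → Bool := fun c => σ (Ph p h (c, (h : ℤ) + 1))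

/-- the bottom row -/
def row0 : Vtx → Bool := fun v => decide (v.2 = 0)

/-- the middle row -/
noncomputable def rowA : Vtx → Bool := fun v => decide (v ∈ Am p h)

lemma rp_natCast (c : ZMod (2 * p + 2)) : ((rp p c : ℕ) : ZMod (2 * p + 2)) = c := by
  have : NeZero (2 * p + 2) := ⟨by omega⟩
  unfold rp
  split_ifs with h0
  · rw [ZMod.natCast_self]
    symm
    rwa [ZMod.val_eq_zero] at h0
  · exact ZMod.natCast_zmod_val c

lemma fl_half (c : ZMod (2 * p + 2)) : fl (2 * p + 2) (p + 1) c = decide (rp p c ≤ p + 1) := by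
  have : NeZero (2 * p + 2) := ⟨by omega⟩
  have hr := rp_range p c
  conv_lhs => rw [← rp_natCast p c]
  rw [fl_eq (by omega) hr.1 hr.2]

lemma Zd_bc (σ' : Vtx → Bool) (ζ X : ZMod (2 * p + 2) → Bool) (x : ℕ)
    (h0 : ∀ c, σ' (Ph p h (c, 0)) = xor (fl (2 * p + 2) x c) (ζ c))
    (h1 : ∀ c, σ' (Ph p h (c, (h : ℤ) + 1)) = X c) :
    Zd J (TT (2 * p + 2) (h + 1)) (LL (2 * p + 2) (h + 1)) (σ' ∘ Ph p h) nof
      = Zd J (TT (2 * p + 2) (h + 1)) (LL (2 * p + 2) (h + 1)) (bc ζ X x) nof := by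
  have key : ∀ v : ZMod (2 * p + 2) × ℤ, 0 ≤ v.2 → v.2 ≤ (h : ℤ) + 1 →
      v ∉ LL (2 * p + 2) (h + 1) → (σ' ∘ Ph p h) v = bc ζ X x v := by
    rintro ⟨c, j⟩ hv0 hv1 hv
    rw [mem_LL] at hv
    push_cast at hv
    simp only at hv0 hv1 hv
    by_cases hj : j ≤ 0
    · have : j = 0 := le_antisymm hj hv0
      subst this
      simp only [Function.comp, h0, bc, le_refl, if_true]
    · have : j = (h : ℤ) + 1 := by
        by_contra hne
        apply hv
        constructor <;> omega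
      subst this
      simp only [Function.comp, h1, bc, hj, if_false]
  apply Zd_congr
  intro t ht
  rw [mem_TT] at ht
  push_cast at ht
  refine ⟨key t ht.1 (by omega), key (tb t) ht.1 (by simp only [tb]; omega),
    key (tc t) (by simp only [tc]; omega) (by simp only [tc]; omega)⟩

lemma fl_zero_eq (M : ℕ) (c : ZMod M) : fl M 0 c = false := rfl

lemma Ph_zero_row (c : ZMod (2 * p + 2)) :
    (rp p c ≤ p + 1 → (Ph p h (c, 0)).2 = 0) ∧
    (¬ rp p c ≤ p + 1 → (Ph p h (c, 0)).2 = 2 * (h : ℤ) + 2) := by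
  unfold Ph
  constructor
  · intro hc
    rw [if_pos (by simp only; omega)]
    simp [hc]
  · intro hc
    rw [if_pos (by simp only; omega)]
    simp [hc]

lemma Ph_top_mem (c : ZMod (2 * p + 2)) : Ph p h (c, (h : ℤ) + 1) ∈ Am p h := by
  have hr := rp_range p c
  rw [mem_Am]
  unfold Ph
  rw [if_pos (by simp only; omega)]
  by_cases hc : rp p c ≤ p + 1
  · rw [if_pos hc]
    refine ⟨⟨?_, ?_⟩, rfl⟩
    · show (0 : ℤ) ≤ (rp p c : ℤ) - 1
      omega
    · show (rp p c : ℤ) - 1 ≤ p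
      omega
  · rw [if_neg hc]
    refine ⟨⟨?_, ?_⟩, ?_⟩
    · show (0 : ℤ) ≤ 2 * (p : ℤ) + 2 - (rp p c : ℤ)
      omega
    · show 2 * (p : ℤ) + 2 - (rp p c : ℤ) ≤ p
      omega
    · show 2 * (h : ℤ) + 2 - ((h : ℤ) + 1) = (h : ℤ) + 1
      ring

lemma two_Wc (ω : Vtx → Bool) :
    2 * Wc J p h ω = Sm (Am p h) ω (fun σ => exp (J * rowE p ((h : ℤ) + 1) σ)
      * PP J (h + 1) (zb p h σ) (zt p h σ) 0) := by
  have h1 : Wc J p h ω = Sm (Am p h) ω (fun σ => fc J p h (flip (rowA p h) σ)) := by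
    rw [Sm_flip]
    unfold Wc
    apply Sm_congr_bdry
    intro v hv
    simp [flip, rowA, hv]
  have h2 : 2 * Wc J p h ω = Sm (Am p h) ω (fun σ => fc J p h σ + fc J p h (flip (rowA p h) σ)) := by
    rw [Sm_add, ← h1]
    unfold Wc
    ring
  rw [h2]
  apply Sm_congr
  intro σ _
  have h3 : rowE p ((h : ℤ) + 1) (flip (rowA p h) σ) = rowE p ((h : ℤ) + 1) σ := by
    unfold rowE
    apply Finset.sum_congr rfl
    intro i hi
    rw [Finset.mem_range] at hi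
    have a1 : ((i : ℤ), (h : ℤ) + 1) ∈ Am p h :=
      (mem_Am p h _).mpr ⟨⟨(show (0 : ℤ) ≤ (i : ℤ) by omega),
        (show (i : ℤ) ≤ (p : ℤ) by omega)⟩, rfl⟩
    have a2 : ((i : ℤ) + 1, (h : ℤ) + 1) ∈ Am p h :=
      (mem_Am p h _).mpr ⟨⟨(show (0 : ℤ) ≤ (i : ℤ) + 1 by omega),
        (show (i : ℤ) + 1 ≤ (p : ℤ) by omega)⟩, rfl⟩
    simp only [flip, rowA, a1, a2, decide_true, sp_xor, sp_true]
    ring
  have h4 : Zd J (TT (2 * p + 2) (h + 1)) (LL (2 * p + 2) (h + 1)) (σ ∘ Ph p h) nof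
      = Zd J (TT (2 * p + 2) (h + 1)) (LL (2 * p + 2) (h + 1))
        (bc (zb p h σ) (zt p h σ) 0) nof := by
    apply Zd_bc
    · intro c; rw [fl_zero_eq, Bool.false_xor]; rfl
    · intro c; rfl
  have h5 : Zd J (TT (2 * p + 2) (h + 1)) (LL (2 * p + 2) (h + 1))
        (flip (rowA p h) σ ∘ Ph p h) nof
      = Zd J (TT (2 * p + 2) (h + 1)) (LL (2 * p + 2) (h + 1))
        (bc (zb p h σ) (fun c => !(zt p h σ c)) 0) nof := by
    apply Zd_bc
    · intro c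
      have hmem : Ph p h (c, 0) ∉ Am p h := by
        have := Ph_zero_row p h c
        rw [mem_Am]
        by_cases hc : rp p c ≤ p + 1
        · rw [this.1 hc]; omega
        · rw [this.2 hc]; omega
      rw [fl_zero_eq, Bool.false_xor]
      unfold flip rowA
      rw [decide_eq_false hmem, Bool.false_xor]
      rfl
    · intro c
      unfold flip rowA
      rw [decide_eq_true (Ph_top_mem p h c), Bool.true_xor]
      rfl
  unfold fc PP
  rw [h3, h4, h5, mul_add]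

lemma zb_flip (σ : Vtx → Bool) (c : ZMod (2 * p + 2)) :
    zb p h (flip row0 σ) c = xor (fl (2 * p + 2) (p + 1) c) (zb p h σ c) := by
  have := Ph_zero_row p h c
  rw [fl_half]
  unfold zb flip row0
  by_cases hc : rp p c ≤ p + 1
  · rw [decide_eq_true hc, decide_eq_true (this.1 hc)]
  · have h4 : ¬ ((Ph p h (c, 0)).2 = 0) := by rw [this.2 hc]; omega
    rw [decide_eq_false hc, decide_eq_false h4]

lemma zt_flip (σ : Vtx → Bool) : zt p h (flip row0 σ) = zt p h σ := by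
  funext c
  have := (mem_Am p h _).mp (Ph_top_mem p h c)
  have h4 : ¬ ((Ph p h (c, (h : ℤ) + 1)).2 = 0) := by rw [this.2]; omega
  unfold zt flip row0
  rw [decide_eq_false h4, Bool.false_xor]

lemma bc_flip (σ : Vtx → Bool) (X : ZMod (2 * p + 2) → Bool) :
    bc (zb p h (flip row0 σ)) X 0 = bc (zb p h σ) X (p + 1) := by
  funext v
  unfold bc
  by_cases hv : v.2 ≤ 0
  · rw [if_pos hv, if_pos hv, zb_flip, fl_zero_eq, Bool.false_xor]
  · rw [if_neg hv, if_neg hv]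

lemma PP_flip (σ : Vtx → Bool) :
    PP J (h + 1) (zb p h (flip row0 σ)) (zt p h (flip row0 σ)) 0
      = PP J (h + 1) (zb p h σ) (zt p h σ) (p + 1) := by
  unfold PP
  rw [bc_flip, bc_flip, zt_flip]

lemma two_Wc_flip (ω : Vtx → Bool) :
    2 * Wc J p h (flip row0 ω) = Sm (Am p h) ω (fun σ => exp (J * rowE p ((h : ℤ) + 1) σ)
      * PP J (h + 1) (zb p h σ) (zt p h σ) (p + 1)) := by
  rw [two_Wc, ← Sm_flip]
  apply Sm_congr
  intro σ _
  have h3 : rowE p ((h : ℤ) + 1) (flip row0 σ) = rowE p ((h : ℤ) + 1) σ := by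
    apply rowE_congr
    intro i _ _
    have : ¬ ((h : ℤ) + 1 = 0) := by omega
    simp [flip, row0, this]
  rw [h3, PP_flip]

/-- flipping the bottom row of the strip -/
theorem strip_flip_bottom (hJ : J < 0) :
    ∃ (C : ℝ) (K : ℕ) (ρ : ℝ), 0 < C ∧ 1 < ρ ∧ ∀ p h : ℕ,
      C * ((2 * p + 2 : ℕ) : ℝ) ^ K ≤ ρ ^ (h + 1) → ∀ ω : Vtx → Bool,
      Zs J p h (flip row0 ω) ≤ C * ((2 * p + 2 : ℕ) : ℝ) ^ K * exp (|J| * (16 * ((h : ℝ) + 1)))
        * Zs J p h ω := by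
  obtain ⟨C, K, ρ, hC, hρ, key⟩ := cyl_flip J hJ
  refine ⟨C, K, ρ, hC, hρ, ?_⟩
  intro p h hCh ω
  have hM : NeZero (2 * p + 2) := ⟨by omega⟩
  have k1 := key (2 * p + 2) (h + 1) ⟨p + 1, by ring⟩ (by omega) (by omega) hCh
  have k2 : 2 * Wc J p h (flip row0 ω)
      ≤ C * ((2 * p + 2 : ℕ) : ℝ) ^ K * (2 * Wc J p h ω) := by
    rw [two_Wc_flip, two_Wc, ← Sm_mul]
    apply Sm_le
    intro σ _
    have := k1 (zb p h σ) (zt p h σ) (p + 1) (by omega)
    have he := exp_pos (J * rowE p ((h : ℤ) + 1) σ)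
    calc exp (J * rowE p ((h : ℤ) + 1) σ) * PP J (h + 1) (zb p h σ) (zt p h σ) (p + 1)
        ≤ exp (J * rowE p ((h : ℤ) + 1) σ) *
          (C * ((2 * p + 2 : ℕ) : ℝ) ^ K * PP J (h + 1) (zb p h σ) (zt p h σ) 0) := by
          gcongr
      _ = _ := by ring
  have k3 := Zs_le J p h (flip row0 ω)
  have k4 := le_Zs J p h ω
  have h5 : rowE p (2 * (h : ℤ) + 2) (flip row0 ω) = rowE p (2 * (h : ℤ) + 2) ω := by
    apply rowE_congr
    intro i _ _
    have : ¬ (2 * (h : ℤ) + 2 = 0) := by omega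
    simp [flip, row0, this]
  rw [h5] at k3
  have hA : 0 ≤ C * ((2 * p + 2 : ℕ) : ℝ) ^ K := by positivity
  calc Zs J p h (flip row0 ω)
      ≤ exp (|J| * (8 * ((h : ℝ) + 1))) * (exp (-(J * rowE p (2 * (h : ℤ) + 2) ω))
        * Wc J p h (flip row0 ω)) := k3
    _ ≤ exp (|J| * (8 * ((h : ℝ) + 1))) * (exp (-(J * rowE p (2 * (h : ℤ) + 2) ω))
        * (C * ((2 * p + 2 : ℕ) : ℝ) ^ K * Wc J p h ω)) := by
        gcongr
        linarith
    _ = C * ((2 * p + 2 : ℕ) : ℝ) ^ K * exp (|J| * (8 * ((h : ℝ) + 1)))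
        * (exp (-(J * rowE p (2 * (h : ℤ) + 2) ω)) * Wc J p h ω) := by ring
    _ ≤ C * ((2 * p + 2 : ℕ) : ℝ) ^ K * exp (|J| * (8 * ((h : ℝ) + 1)))
        * (exp (|J| * (8 * ((h : ℝ) + 1))) * Zs J p h ω) := by
        gcongr
    _ = C * ((2 * p + 2 : ℕ) : ℝ) ^ K * exp (|J| * (16 * ((h : ℝ) + 1)))
        * Zs J p h ω := by
        rw [show |J| * (16 * ((h : ℝ) + 1)) = |J| * (8 * ((h : ℝ) + 1))
          + |J| * (8 * ((h : ℝ) + 1)) by ring, exp_add]
        ring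

/-- the top row -/
def rowT (h : ℕ) : Vtx → Bool := fun v => decide (v.2 = 2 * (h : ℤ) + 2)

lemma En_flip_all (T : Finset Vtx) (φ σ : Vtx → Bool) :
    En T φ (flip (fun _ => true) σ) = En T φ σ := by
  unfold En
  apply Finset.sum_congr rfl
  intro t _
  simp only [flip, sp_xor, sp_true]
  unfold tri; ring

lemma Zs_top (ω : Vtx → Bool) : Zs J p h (flip (rowT h) ω) = Zs J p h (flip row0 ω) := by
  have h1 : Zs J p h (flip (rowT h) ω)
      = Zd J (Ts p h) (Ls p h) (flip (fun _ => true) (flip (rowT h) ω)) nofZ := by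
    have := Sm_flip (Ls p h) (flip (rowT h) ω) (fun _ => true)
      (fun σ => exp (J * En (Ts p h) nofZ σ))
    simp only [En_flip_all] at this
    exact this
  rw [h1]
  unfold Zs
  have key : ∀ v : Vtx, 0 ≤ v.1 → v.1 ≤ p → 0 ≤ v.2 → v.2 ≤ 2 * (h : ℤ) + 2 → v ∉ Ls p h →
      flip (fun _ => true) (flip (rowT h) ω) v = flip row0 ω v := by
    intro v a1 a2 a3 a4 a5
    have : v.2 = 0 ∨ v.2 = 2 * (h : ℤ) + 2 := by
      by_contra hne
      push Not at hne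
      apply a5
      simp only [Ls, Finset.mem_product, Finset.mem_Ico, Finset.mem_Ioo]
      push_cast
      omega
    have hn : ¬ (0 : ℤ) = 2 * (h : ℤ) + 2 := by omega
    have hn' : ¬ 2 * (h : ℤ) + 2 = 0 := by omega
    rcases this with h2 | h2
    · simp [flip, rowT, row0, h2, hn]
    · simp [flip, rowT, row0, h2, hn']
  apply Zd_congr
  intro t ht
  simp only [Ts, Finset.mem_product, Finset.mem_Ico] at ht
  push_cast at ht
  refine ⟨key t (by omega) (by omega) (by omega) (by omega),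
    key (tb t) ?_ ?_ ?_ ?_, key (tc t) ?_ ?_ ?_ ?_⟩ <;> simp only [tb, tc] <;> omega

end Pool.Agent.AFIsing
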